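import Pool.Agent.H568.GR.Stm

/-!
# The average over all shifts modulo a squarefree number
-/

set_option autoImplicit false

namespace Pool.Agent.H568.GR

namespace Avf

open Finset

/-- Pairs of shift vectors modulo `n`. -/
abbrev X (k n : ℕ) : Type := (Fin k → Fin n) × (Fin k → Fin n)

/-- Reduction modulo `p`. -/
def rd {k n : ℕ} (p : ℕ) (hp : 0 < p) (x : X k n) : X k p :=
  (fun i => ⟨(x.1 i : ℕ) % p, Nat.mod_lt _ hp⟩, fun i => ⟨(x.2 i : ℕ) % p, Nat.mod_lt _ hp⟩)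

theorem sh_modEq {k : ℕ} (p : ℤ) (Q : Fin k → ℕ) (h h' g g' : Fin k → ℤ)
    (h1 : ∀ i, h i ≡ g i [ZMOD p]) (h2 : ∀ i, h' i ≡ g' i [ZMOD p]) (ω : Fin k → Bool) :
    sh Q h h' ω ≡ sh Q g g' ω [ZMOD p] := by
  unfold sh
  refine Int.ModEq.sum fun i _ => ?_
  refine Int.ModEq.mul_left _ ?_
  split_ifs
  · exact h1 i
  · exact h2 i

theorem cp_congr {k : ℕ} (p : ℕ) (Q : Fin k → ℕ) (h h' g g' : Fin k → ℤ)
    (h1 : ∀ i, h i ≡ g i [ZMOD p]) (h2 : ∀ i, h' i ≡ g' i [ZMOD p]) :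
    cp p Q h h' = cp p Q g g' := by
  unfold cp
  congr 2
  refine Finset.sum_congr rfl fun x _ => Finset.prod_congr rfl fun ω _ => ?_
  congr 1
  exact jacobiSym.mod_left' (Int.ModEq.add_left _ (sh_modEq p Q h h' g g' h1 h2 ω))

theorem cp_nonneg {k : ℕ} (p : ℕ) (Q : Fin k → ℕ) (h h' : Fin k → ℤ) : 0 ≤ cp p Q h h' := by
  unfold cp
  positivity

theorem pos_of_mem {r : ℕ} (p : r.primeFactors) : 0 < (p : ℕ) :=
  (Nat.prime_of_mem_primeFactors p.2).pos

theorem prod_coe {r : ℕ} (hr : Squarefree r) : ∏ p : r.primeFactors, (p : ℕ) = r := by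
  rw [Finset.prod_coe_sort r.primeFactors (fun p => p)]
  exact Nat.prod_primeFactors_of_squarefree hr

theorem eq_of_mod {r : ℕ} (hr : Squarefree r) (a b : Fin r)
    (h : ∀ p : r.primeFactors, (a : ℕ) % p = (b : ℕ) % p) : a = b := by
  have h1 : (a : ℕ) ≡ b [MOD r] := by
    have h2 : (a : ℕ) ≡ b [MOD ∏ p ∈ r.primeFactors, p] := by
      rw [Nat.modEq_iff_dvd]
      push_cast
      refine Finset.prod_dvd_of_coprime ?_ ?_
      · intro p hp q hq hpq
        have := (Nat.coprime_primes (Nat.prime_of_mem_primeFactors hp)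
          (Nat.prime_of_mem_primeFactors hq)).2 hpq
        exact Nat.isCoprime_iff_coprime.2 this
      · intro p hp
        exact Nat.modEq_iff_dvd.1 (h ⟨p, hp⟩)
    rwa [Nat.prod_primeFactors_of_squarefree hr] at h2
  have h3 := Nat.ModEq.eq_of_lt_of_lt h1 a.2 b.2
  exact Fin.ext h3

/-- Chinese remainder theorem. -/
theorem bij {k r : ℕ} (hr : Squarefree r) :
    Function.Bijective (fun (x : X k r) (p : r.primeFactors) => rd (p : ℕ) (pos_of_mem p) x) := by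
  rw [Fintype.bijective_iff_injective_and_card]
  constructor
  · intro x y hxy
    have h1 : ∀ p : r.primeFactors, rd (p : ℕ) (pos_of_mem p) x = rd (p : ℕ) (pos_of_mem p) y :=
      fun p => congrFun hxy p
    refine Prod.ext (funext fun i => eq_of_mod hr _ _ fun p => ?_)
      (funext fun i => eq_of_mod hr _ _ fun p => ?_)
    · have h2 := congrFun (congrArg Prod.fst (h1 p)) i
      exact congrArg Fin.val h2
    · have h2 := congrFun (congrArg Prod.snd (h1 p)) i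
      exact congrArg Fin.val h2
  · rw [Fintype.card_pi]
    simp only [X, Fintype.card_prod, Fintype.card_fun, Fintype.card_fin]
    rw [Finset.prod_mul_distrib, Finset.prod_pow, prod_coe hr]

theorem sum_eq {k : ℕ} (Q : Fin k → ℕ) (r : ℕ) (hr : Squarefree r) :
    (∑ h : Fin k → Fin r, ∑ h' : Fin k → Fin r,
      ∏ p ∈ r.primeFactors, cp p Q (fun i => ((h i : ℕ) : ℤ)) (fun i => ((h' i : ℕ) : ℤ))) =
    ∏ p ∈ r.primeFactors, ∑ h : Fin k → Fin p, ∑ h' : Fin k → Fin p,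
      cp p Q (fun i => ((h i : ℕ) : ℤ)) (fun i => ((h' i : ℕ) : ℤ)) := by
  classical
  have h1 : ∀ n : ℕ, ∀ F : (Fin k → Fin n) → (Fin k → Fin n) → ℝ,
      ∑ h : Fin k → Fin n, ∑ h' : Fin k → Fin n, F h h' = ∑ x : X k n, F x.1 x.2 := by
    intro n F
    rw [Fintype.sum_prod_type]
  rw [h1]
  have h2 : ∀ x : X k r, ∏ p ∈ r.primeFactors,
      cp p Q (fun i => ((x.1 i : ℕ) : ℤ)) (fun i => ((x.2 i : ℕ) : ℤ)) =
      ∏ p : r.primeFactors, (fun (y : (p : r.primeFactors) → X k (p : ℕ)) =>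
        cp (p : ℕ) Q (fun i => (((y p).1 i : ℕ) : ℤ)) (fun i => (((y p).2 i : ℕ) : ℤ)))
        (fun q => rd (q : ℕ) (pos_of_mem q) x) := by
    intro x
    rw [← Finset.prod_coe_sort r.primeFactors]
    refine Finset.prod_congr rfl fun p _ => ?_
    refine cp_congr _ _ _ _ _ _ (fun i => ?_) (fun i => ?_)
    · show ((x.1 i : ℕ) : ℤ) ≡ (((x.1 i : ℕ) % (p : ℕ) : ℕ) : ℤ) [ZMOD (p : ℕ)]
      rw [Int.natCast_mod]
      exact (Int.mod_modEq _ _).symm
    · show ((x.2 i : ℕ) : ℤ) ≡ (((x.2 i : ℕ) % (p : ℕ) : ℕ) : ℤ) [ZMOD (p : ℕ)]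
      rw [Int.natCast_mod]
      exact (Int.mod_modEq _ _).symm
  rw [Finset.sum_congr rfl fun x _ => h2 x]
  rw [Function.Bijective.sum_comp (bij hr) (fun (y : (p : r.primeFactors) → X k (p : ℕ)) =>
    ∏ p : r.primeFactors, cp (p : ℕ) Q (fun i => (((y p).1 i : ℕ) : ℤ))
      (fun i => (((y p).2 i : ℕ) : ℤ)))]
  rw [← Finset.prod_coe_sort r.primeFactors]
  have h3 : ∀ p : r.primeFactors, (∑ h : Fin k → Fin (p : ℕ), ∑ h' : Fin k → Fin (p : ℕ),
      cp (p : ℕ) Q (fun i => ((h i : ℕ) : ℤ)) (fun i => ((h' i : ℕ) : ℤ))) =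
      ∑ x : X k (p : ℕ), cp (p : ℕ) Q (fun i => ((x.1 i : ℕ) : ℤ)) (fun i => ((x.2 i : ℕ) : ℤ)) :=
    fun p => h1 _ _
  rw [Finset.prod_congr rfl fun p _ => h3 p]
  rw [Fintype.prod_sum]

end Avf

open Avf Finset in
theorem avf : S_AVP → S_AVF := by
  intro hA k hk Q r hodd hr hcop
  rw [sum_eq Q r hr]
  have hr0 : r ≠ 0 := hr.ne_zero
  have h1 : ((r : ℝ)) = ∏ p ∈ r.primeFactors, (p : ℝ) := by
    have h0 := Nat.prod_primeFactors_of_squarefree hr
    rw [← Nat.cast_prod, h0]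
  have h2 : √(r : ℝ) = ∏ p ∈ r.primeFactors, √(p : ℝ) := by
    rw [h1]
    exact Real.sqrt_prod _ (fun p _ => Nat.cast_nonneg p)
  rw [h2]
  have h3 : (r : ℝ) ^ (2 * k) = ∏ p ∈ r.primeFactors, (p : ℝ) ^ (2 * k) := by
    rw [h1, Finset.prod_pow]
  rw [h3, ← Finset.prod_div_distrib, ← Finset.prod_const, ← Finset.prod_div_distrib]
  refine Finset.prod_le_prod (fun p _ => ?_) (fun p hp => ?_)
  · refine div_nonneg (Finset.sum_nonneg fun h _ => Finset.sum_nonneg fun h' _ => cp_nonneg _ _ _ _) ?_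
    positivity
  · have hpp := Nat.prime_of_mem_primeFactors hp
    have hpd := Nat.dvd_of_mem_primeFactors hp
    have hp2 : p ≠ 2 := by
      rintro rfl
      exact (Nat.not_even_iff_odd.2 hodd) (even_iff_two_dvd.2 hpd)
    have h4 := hA k hk Q p p hpp hp2 hpp.one_lt.le (fun i hi => by
      have h5 : p ∣ Nat.gcd r (Q i) := Nat.dvd_gcd hpd hi
      rw [(hcop i : Nat.gcd r (Q i) = 1)] at h5
      exact hpp.one_lt.ne' (Nat.dvd_one.1 h5))
    refine h4.trans ?_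
    have hp1 : (1 : ℝ) ≤ p := by exact_mod_cast hpp.one_lt.le
    have hs1 : 1 ≤ √(p : ℝ) := Real.one_le_sqrt.2 hp1
    have hsp : √(p : ℝ) ≤ p := by
      nlinarith [Real.sq_sqrt (show (0 : ℝ) ≤ p by linarith)]
    have h6 : 1 / (p : ℝ) ≤ 1 / √(p : ℝ) := one_div_le_one_div_of_le (by linarith) hsp
    calc (2 : ℝ) ^ (k + 2) * (1 / √(p : ℝ) + 1 / p) ≤ 2 ^ (k + 2) * (1 / √(p : ℝ) + 1 / √(p : ℝ)) := by
          gcongr
      _ = 2 ^ (k + 3) / √(p : ℝ) := by ring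

end Pool.Agent.H568.GR
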