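import Pool.Agent.H568.GR.Stm

/-!
# GR-AVP: the average of the complete sums over shifts in a short interval, one prime
-/

set_option autoImplicit false

namespace Pool.Agent.H568.GR

open Finset

namespace Avp

theorem jac_le (a : ℤ) (p : ℕ) : |((jacobiSym a p : ℤ) : ℝ)| ≤ 1 := by
  rcases jacobiSym.trichotomy a p with h | h | h <;> rw [h] <;> norm_num

theorem cp_le_one {k : ℕ} (p : ℕ) (Q : Fin k → ℕ) (h h' : Fin k → ℤ) : cp p Q h h' ≤ 1 := by
  unfold cp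
  apply div_le_one_of_le₀ _ (Nat.cast_nonneg p)
  refine (abs_sum_le_sum_abs _ _).trans ?_
  refine (sum_le_card_nsmul _ _ (1 : ℝ) ?_).trans ?_
  · intro x _
    rw [abs_prod]
    exact prod_le_one (fun _ _ => abs_nonneg _) (fun _ _ => jac_le _ _)
  · simp

/-- the sum which has to be divisible by `p` -/
def DD {k H : ℕ} (Q : Fin k → ℕ) (p : ℕ) (s : Finset (Fin k))
    (x : (Fin k → Fin H) × (Fin k → Fin H)) : Prop :=
  (p : ℤ) ∣ ∑ i ∈ s, (Q i : ℤ) * (((x.1 i : ℕ) : ℤ) - ((x.2 i : ℕ) : ℤ))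

open Classical in
theorem count {k H : ℕ} (Q : Fin k → ℕ) (p : ℕ) (hp : p.Prime) (hQ : ∀ i, ¬ p ∣ Q i)
    (s : Finset (Fin k)) (hs : s.Nonempty) :
    (univ.filter (fun x : (Fin k → Fin H) × (Fin k → Fin H) => DD Q p s x)).card ≤
      H ^ (k - 1) * ((H / p + 1) * H ^ k) := by
  obtain ⟨i, hi⟩ := hs
  let Φ : (Fin k → Fin H) × (Fin k → Fin H) →
      ({j : Fin k // j ≠ i} → Fin H) × (Fin (H / p + 1) × (Fin k → Fin H)) :=
    fun x => (fun j => x.1 j, (⟨((x.1 i : Fin H) : ℕ) / p,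
      Nat.lt_succ_of_le (Nat.div_le_div_right (x.1 i).isLt.le)⟩, x.2))
  have h1 : (univ.filter (fun x : (Fin k → Fin H) × (Fin k → Fin H) => DD Q p s x)).card ≤
      (univ : Finset (({j : Fin k // j ≠ i} → Fin H) × (Fin (H / p + 1) × (Fin k → Fin H)))).card := by
    refine card_le_card_of_injOn Φ (fun _ _ => mem_univ _) ?_
    intro x hx y hy hxy
    rw [mem_coe, mem_filter] at hx hy
    have hx' := hx.2
    have hy' := hy.2
    unfold DD at hx' hy'
    simp only [Φ, Prod.mk.injEq, Fin.mk.injEq] at hxy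
    obtain ⟨e1, e2, e3⟩ := hxy
    have e1' : ∀ j, j ≠ i → x.1 j = y.1 j := fun j hj => congrFun e1 ⟨j, hj⟩
    have e4 : (p : ℤ) ∣ (Q i : ℤ) * (((x.1 i : ℕ) : ℤ) - ((y.1 i : ℕ) : ℤ)) := by
      have h2 := dvd_sub hx' hy'
      rw [← sum_sub_distrib, sum_eq_single_of_mem i hi] at h2
      · rw [e3] at h2
        have h3 : (Q i : ℤ) * (((x.1 i : ℕ) : ℤ) - ((y.1 i : ℕ) : ℤ)) =
            (Q i : ℤ) * (((x.1 i : ℕ) : ℤ) - ((y.2 i : ℕ) : ℤ)) -
              (Q i : ℤ) * (((y.1 i : ℕ) : ℤ) - ((y.2 i : ℕ) : ℤ)) := by ring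
        rw [h3]
        exact h2
      · intro j _ hj
        rw [e1' j hj, e3, sub_self]
    have e5 : (p : ℤ) ∣ ((x.1 i : ℕ) : ℤ) - ((y.1 i : ℕ) : ℤ) := by
      rcases (Nat.prime_iff_prime_int.1 hp).dvd_or_dvd e4 with h | h
      · exact absurd (Int.natCast_dvd_natCast.1 h) (hQ i)
      · exact h
    have e6 : (y.1 i : ℕ) % p = (x.1 i : ℕ) % p := (Nat.modEq_iff_dvd).2 e5
    have e7 : (x.1 i : ℕ) = (y.1 i : ℕ) := by
      rw [← Nat.div_add_mod (x.1 i : ℕ) p, ← Nat.div_add_mod (y.1 i : ℕ) p, e2, e6]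
    have e8 : x.1 = y.1 := by
      funext j
      by_cases hj : j = i
      · rw [hj]; exact Fin.ext e7
      · exact e1' j hj
    exact Prod.ext e8 e3
  refine h1.trans (le_of_eq ?_)
  simp [Fintype.card_subtype_compl]

theorem count_real {k H : ℕ} (hk : 1 ≤ k) (hH : 1 ≤ H) (p : ℕ) (hp : p.Prime) (c : ℕ)
    (hc : c ≤ H ^ (k - 1) * ((H / p + 1) * H ^ k)) :
    (c : ℝ) ≤ (H : ℝ) ^ (2 * k) * (1 / p + 1 / H) := by
  have hpR : (0 : ℝ) < p := by exact_mod_cast hp.pos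
  have hHR : (0 : ℝ) < H := by exact_mod_cast hH
  have h1 : (c : ℝ) ≤ (H : ℝ) ^ (k - 1) * ((((H / p : ℕ) : ℝ) + 1) * (H : ℝ) ^ k) := by
    exact_mod_cast hc
  have h2 : ((H / p : ℕ) : ℝ) ≤ (H : ℝ) / p := Nat.cast_div_le
  have h3 : (H : ℝ) ^ (2 * k) = (H : ℝ) ^ (k - 1) * H * (H : ℝ) ^ k := by
    rw [← pow_succ, ← pow_add]
    congr 1
    omega
  have h4 : (H : ℝ) ^ (2 * k) * (1 / p + 1 / H) =
      (H : ℝ) ^ (k - 1) * (((H : ℝ) / p + 1) * (H : ℝ) ^ k) := by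
    rw [h3]
    field_simp
  rw [h4]
  refine h1.trans ?_
  have h5 : (0 : ℝ) ≤ (H : ℝ) ^ (k - 1) := by positivity
  have h6 : (0 : ℝ) ≤ (H : ℝ) ^ k := by positivity
  exact mul_le_mul_of_nonneg_left (mul_le_mul_of_nonneg_right (by linarith) h6) h5

end Avp

open Avp Classical in
theorem avp : S_WEIL → S_AVP := by
  intro hW k hk Q p H hp hp2 hH hQ
  have hpR : (0 : ℝ) < p := by exact_mod_cast hp.pos
  have hp1 : (1 : ℝ) ≤ p := by exact_mod_cast hp.one_le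
  have hHR : (0 : ℝ) < H := by exact_mod_cast hH
  have hsq : (0 : ℝ) < √(p : ℝ) := Real.sqrt_pos.2 hpR
  rw [← Fintype.sum_prod_type' (f := fun h h' : Fin k → Fin H =>
    cp p Q (fun i => ((h i : ℕ) : ℤ)) (fun i => ((h' i : ℕ) : ℤ)))]
  have h1 : ∀ x : (Fin k → Fin H) × (Fin k → Fin H),
      cp p Q (fun i => ((x.1 i : ℕ) : ℤ)) (fun i => ((x.2 i : ℕ) : ℤ)) ≤ 2 ^ k / √(p : ℝ) +
        ∑ s ∈ univ.filter (fun s : Finset (Fin k) => s.Nonempty),
          (if DD Q p s x then (1 : ℝ) else 0) := by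
    intro x
    by_cases hx : ∀ s : Finset (Fin k), s.Nonempty → ¬ DD Q p s x
    · have h2 := hW k hk Q (fun i => ((x.1 i : ℕ) : ℤ)) (fun i => ((x.2 i : ℕ) : ℤ)) p hp hp2 hx
      have h0 : (0 : ℝ) ≤ ∑ s ∈ univ.filter (fun s : Finset (Fin k) => s.Nonempty),
          (if DD Q p s x then (1 : ℝ) else 0) :=
        sum_nonneg (fun _ _ => by split_ifs <;> norm_num)
      linarith
    · push Not at hx
      obtain ⟨s, hs, hsx⟩ := hx
      have h2 : (1 : ℝ) ≤ ∑ s ∈ univ.filter (fun s : Finset (Fin k) => s.Nonempty),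
          (if DD Q p s x then (1 : ℝ) else 0) := by
        have h3 := single_le_sum (f := fun s => if DD Q p s x then (1 : ℝ) else 0)
          (s := univ.filter (fun s : Finset (Fin k) => s.Nonempty))
          (fun _ _ => by positivity) (mem_filter.2 ⟨mem_univ s, hs⟩)
        simpa [hsx] using h3
      have h3 := cp_le_one p Q (fun i => ((x.1 i : ℕ) : ℤ)) (fun i => ((x.2 i : ℕ) : ℤ))
      have h4 : (0 : ℝ) ≤ 2 ^ k / √(p : ℝ) := by positivity
      linarith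
  have h2 : ∑ x : (Fin k → Fin H) × (Fin k → Fin H),
      cp p Q (fun i => ((x.1 i : ℕ) : ℤ)) (fun i => ((x.2 i : ℕ) : ℤ)) ≤
      (H : ℝ) ^ (2 * k) * (2 ^ k / √(p : ℝ)) +
        2 ^ k * ((H : ℝ) ^ (2 * k) * (1 / p + 1 / H)) := by
    refine (sum_le_sum fun x _ => h1 x).trans ?_
    rw [sum_add_distrib, sum_comm]
    apply add_le_add
    · rw [sum_const, card_univ, nsmul_eq_mul]
      apply le_of_eq
      congr 1
      simp only [Fintype.card_prod, Fintype.card_fun, Fintype.card_fin]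
      push_cast
      ring
    · have h3 : ∀ s ∈ univ.filter (fun s : Finset (Fin k) => s.Nonempty),
          ∑ x : (Fin k → Fin H) × (Fin k → Fin H), (if DD Q p s x then (1 : ℝ) else 0) ≤
            (H : ℝ) ^ (2 * k) * (1 / p + 1 / H) := by
        intro s hs
        rw [sum_boole]
        exact count_real hk hH p hp _ (count Q p hp hQ s (mem_filter.1 hs).2)
      refine (sum_le_card_nsmul _ _ _ h3).trans ?_
      rw [nsmul_eq_mul]
      apply mul_le_mul_of_nonneg_right _ (by positivity)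
      have h4 : (univ.filter (fun s : Finset (Fin k) => s.Nonempty)).card ≤ 2 ^ k := by
        refine (card_filter_le _ _).trans ?_
        simp
      exact_mod_cast h4
  rw [div_le_iff₀ (by positivity)]
  refine h2.trans ?_
  have h3 : (1 : ℝ) / p ≤ 1 / √(p : ℝ) := by
    apply one_div_le_one_div_of_le hsq
    rw [Real.sqrt_le_left hpR.le]
    nlinarith
  have h4 : (0 : ℝ) < 1 / H := by positivity
  have h5 : (0 : ℝ) < 1 / √(p : ℝ) := by positivity
  have h6 : (0 : ℝ) < (H : ℝ) ^ (2 * k) := by positivity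
  have h7 : (0 : ℝ) < 2 ^ k := by positivity
  have h8 : (2 : ℝ) ^ (k + 2) = 2 ^ k * 4 := by rw [pow_add]; norm_num
  rw [h8]
  have h9 : (H : ℝ) ^ (2 * k) * (2 ^ k / √(p : ℝ)) + 2 ^ k * ((H : ℝ) ^ (2 * k) * (1 / p + 1 / H)) =
      2 ^ k * (H : ℝ) ^ (2 * k) * (1 / √(p : ℝ) + 1 / p + 1 / H) := by ring
  have h10 : 2 ^ k * 4 * (1 / √(p : ℝ) + 1 / H) * (H : ℝ) ^ (2 * k) =
      2 ^ k * (H : ℝ) ^ (2 * k) * (4 * (1 / √(p : ℝ) + 1 / H)) := by ring
  rw [h9, h10]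
  apply mul_le_mul_of_nonneg_left _ (by positivity)
  linarith

end Pool.Agent.H568.GR
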