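import Pool.Agent.H568.GR.Stm2
import Pool.Agent.H568.TS.Pt
import Pool.Agent.H510R2.Div

set_option autoImplicit false

namespace Pool.Agent.H568.GR

open Finset NumberField

theorem cnb : S_CNB := by
  obtain ⟨C, hC, h⟩ := Pool.Agent.H568.TS.class_number
  refine ⟨C, hC, fun K _ _ h2 => ?_⟩
  have h1 := h K h2
  have e : ((discr K).natAbs : ℝ) = |(discr K : ℝ)| := by
    rw [Nat.cast_natAbs, Int.cast_abs]
  rwa [e] at h1

theorem dvb : S_DIV := by
  intro ε hε
  obtain ⟨C, hC, h⟩ := Pool.Agent.H510R2.divisor_bound ε hε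
  refine ⟨max C 1, le_max_right _ _, fun n hn => (h n hn).trans ?_⟩
  exact mul_le_mul_of_nonneg_right (le_max_left _ _) (by positivity)

end Pool.Agent.H568.GR
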