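import Pool.Agent.H568.GR.Stm

/-!
# Torsion in class groups of quadratic fields: the piece CNT
-/

set_option autoImplicit false

namespace Pool.Agent.H568.GR

open Finset

namespace Cnt

/-- the number of odd numbers up to `k` -/
noncomputable def c (k : ℕ) : ℝ := ∑ m ∈ Icc 1 k, if Odd m then (1 : ℝ) else 0

theorem c_eq (k : ℕ) : c k = ((k : ℝ) + ((k % 2 : ℕ) : ℝ)) / 2 := by
  induction k with
  | zero => simp [c]
  | succ k ih =>
    have e : c (k + 1) = c k + if Odd (k + 1) then (1 : ℝ) else 0 := by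
      unfold c
      exact Finset.sum_Icc_succ_top (by omega) _
    rw [e, ih]
    rcases Nat.even_or_odd k with hk | hk
    · have h1 : k % 2 = 0 := Nat.even_iff.1 hk
      have h2 : (k + 1) % 2 = 1 := by omega
      rw [if_pos (Nat.odd_iff.2 h2), h1, h2]
      push_cast; ring
    · have h1 : k % 2 = 1 := Nat.odd_iff.1 hk
      have h2 : (k + 1) % 2 = 0 := by omega
      have h3 : ¬ Odd (k + 1) := by rw [Nat.not_odd_iff_even]; exact Nat.even_iff.2 h2
      rw [if_neg h3, h1, h2]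
      push_cast; ring

theorem c_near (N d : ℕ) (hd : 1 ≤ d) : |c (N / d) - (N : ℝ) / 2 * (1 / d)| ≤ 1 := by
  have hd0 : (0 : ℝ) < d := by exact_mod_cast hd
  have h1 : ((N / d : ℕ) : ℝ) ≤ (N : ℝ) / d := Nat.cast_div_le
  have h2 : (N : ℝ) / d < ((N / d : ℕ) : ℝ) + 1 := by
    rw [div_lt_iff₀ hd0]
    have := Nat.lt_div_mul_add (a := N) hd
    have h3 : N < (N / d + 1) * d := by
      have := Nat.div_add_mod N d
      have h4 := Nat.mod_lt N hd
      nlinarith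
    exact_mod_cast h3
  have h5 : (0 : ℝ) ≤ ((N / d % 2 : ℕ) : ℝ) := Nat.cast_nonneg _
  have h6 : ((N / d % 2 : ℕ) : ℝ) ≤ 1 := by
    have : N / d % 2 ≤ 1 := by omega
    exact_mod_cast this
  have e : (N : ℝ) / 2 * (1 / d) = (N / d) / 2 := by ring
  rw [c_eq, e, abs_le]
  constructor <;> linarith

section main

variable (g : ℕ → ℝ)

/-- partial sums -/
noncomputable def S (x : ℕ) : ℝ := ∑ n ∈ Icc 1 x, g n

/-- partial sums of `g d / d` -/
noncomputable def Lp (x : ℕ) : ℝ := ∑ n ∈ Icc 1 x, g n / n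

theorem S_succ (x : ℕ) : S g (x + 1) = S g x + g (x + 1) := by
  unfold S; exact Finset.sum_Icc_succ_top (by omega) _

theorem Lp_succ (x : ℕ) : Lp g (x + 1) = Lp g x + g (x + 1) / ((x + 1 : ℕ) : ℝ) := by
  unfold Lp; exact Finset.sum_Icc_succ_top (by omega) _

theorem abel (η N0 : ℝ) (hη : 0 < η) (y : ℕ) (hy : N0 ≤ y)
    (hS : ∀ x : ℕ, |S g x| ≤ η * (x + N0)) (j : ℕ) :
    |Lp g (y + j) - Lp g y - S g (y + j) / ((y + j : ℕ) + 1 : ℝ) + S g y / ((y : ℝ) + 1)|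
      ≤ 2 * η * (harmonic (y + j) : ℝ) := by
  induction j with
  | zero =>
    simp only [Nat.add_zero]
    have e : Lp g y - Lp g y - S g y / ((y : ℝ) + 1) + S g y / ((y : ℝ) + 1) = 0 := by ring
    rw [e, abs_zero]
    have : (0 : ℝ) ≤ (harmonic y : ℝ) := by
      have : (0 : ℚ) ≤ harmonic y := by
        unfold harmonic
        exact Finset.sum_nonneg fun i _ => by positivity
      exact_mod_cast this
    positivity
  | succ j ih =>
    set Z := y + j with hZ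
    have hZe : y + (j + 1) = Z + 1 := by omega
    rw [hZe, Lp_succ]
    have hh : ((harmonic (Z + 1) : ℚ) : ℝ) = (harmonic Z : ℝ) + 1 / ((Z : ℝ) + 1) := by
      rw [harmonic_succ]
      push_cast
      ring
    rw [hh]
    have hZ1 : (0 : ℝ) < (Z : ℝ) + 1 := by positivity
    have hZ2 : (0 : ℝ) < (Z : ℝ) + 1 + 1 := by positivity
    have e : Lp g Z + g (Z + 1) / ((Z + 1 : ℕ) : ℝ) - Lp g y - S g (Z + 1) / (((Z + 1 : ℕ) : ℝ) + 1)
        + S g y / ((y : ℝ) + 1) = (Lp g Z - Lp g y - S g Z / ((Z : ℝ) + 1) + S g y / ((y : ℝ) + 1))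
        + S g (Z + 1) / (((Z : ℝ) + 1) * ((Z : ℝ) + 1 + 1)) := by
      have hg : g (Z + 1) = S g (Z + 1) - S g Z := by rw [S_succ]; ring
      rw [hg]
      push_cast
      field_simp
      ring
    rw [e]
    refine (abs_add_le _ _).trans ?_
    have h1 : |S g (Z + 1) / (((Z : ℝ) + 1) * ((Z : ℝ) + 1 + 1))| ≤ 2 * η * (1 / ((Z : ℝ) + 1)) := by
      rw [abs_div, abs_of_pos (mul_pos hZ1 hZ2), div_le_iff₀ (mul_pos hZ1 hZ2)]
      have h2 := hS (Z + 1)
      push_cast at h2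
      have hyZ : (y : ℝ) ≤ Z := by rw [hZ]; push_cast; linarith [Nat.cast_nonneg (α := ℝ) j]
      have e3 : 2 * η * (1 / ((Z : ℝ) + 1)) * (((Z : ℝ) + 1) * ((Z : ℝ) + 1 + 1))
          = 2 * η * ((Z : ℝ) + 1 + 1) := by field_simp
      rw [e3]
      refine h2.trans ?_
      nlinarith
    linarith

theorem tail (η N0 : ℝ) (hη : 0 < η) (y Z : ℕ) (hyZ : y ≤ Z) (hy1 : 1 ≤ y) (hy : N0 ≤ y)
    (hS : ∀ x : ℕ, |S g x| ≤ η * (x + N0)) :
    |Lp g Z - Lp g y| ≤ 6 * η * (1 + Real.log Z) := by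
  obtain ⟨j, rfl⟩ := Nat.exists_eq_add_of_le hyZ
  have h := abel g η N0 hη y hy hS j
  have hh : (harmonic (y + j) : ℝ) ≤ 1 + Real.log ((y + j : ℕ) : ℝ) := by
    exact_mod_cast harmonic_le_one_add_log (y + j)
  set Z := y + j with hZ
  have hyr : (1 : ℝ) ≤ y := by exact_mod_cast hy1
  have hyZ' : (y : ℝ) ≤ Z := by exact_mod_cast hyZ
  have hlog : 0 ≤ Real.log (Z : ℝ) := Real.log_nonneg (by linarith)
  have h1 : |S g Z / ((Z : ℝ) + 1)| ≤ 2 * η := by
    rw [abs_div, abs_of_pos (by linarith : (0 : ℝ) < (Z : ℝ) + 1), div_le_iff₀ (by linarith)]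
    refine (hS Z).trans ?_
    nlinarith
  have h2 : |S g y / ((y : ℝ) + 1)| ≤ 2 * η := by
    rw [abs_div, abs_of_pos (by linarith : (0 : ℝ) < (y : ℝ) + 1), div_le_iff₀ (by linarith)]
    refine (hS y).trans ?_
    nlinarith
  have h3 : 2 * η * (harmonic Z : ℝ) ≤ 2 * η * (1 + Real.log Z) :=
    mul_le_mul_of_nonneg_left hh (by positivity)
  have e : Lp g Z - Lp g y = (Lp g Z - Lp g y - S g Z / ((Z : ℝ) + 1) + S g y / ((y : ℝ) + 1))
      + (S g Z / ((Z : ℝ) + 1)) - S g y / ((y : ℝ) + 1) := by ring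
  rw [e]
  have h4 := abs_sub (Lp g Z - Lp g y - S g Z / ((Z : ℝ) + 1) + S g y / ((y : ℝ) + 1)
      + (S g Z / ((Z : ℝ) + 1))) (S g y / ((y : ℝ) + 1))
  have h5 := abs_add_le (Lp g Z - Lp g y - S g Z / ((Z : ℝ) + 1) + S g y / ((y : ℝ) + 1))
      (S g Z / ((Z : ℝ) + 1))
  have h6 : 4 * η ≤ 4 * η * (1 + Real.log Z) := by nlinarith
  linarith

/-- the sum over the pairs `(d, m)` with `d m ≤ N`, `m` odd -/
noncomputable def P (N a b : ℕ) : ℝ :=
  ∑ d ∈ Ioc a b, ∑ m ∈ Icc 1 N, if d * m ≤ N ∧ Odd m then g d else 0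

theorem inner (N d : ℕ) (hd : 1 ≤ d) :
    ∑ m ∈ Icc 1 N, (if d * m ≤ N ∧ Odd m then g d else 0) = g d * c (N / d) := by
  unfold c
  rw [mul_sum]
  have hsub : Icc 1 (N / d) ⊆ Icc 1 N := Icc_subset_Icc_right (Nat.div_le_self _ _)
  symm
  rw [← sum_subset_zero_on_sdiff hsub (f := fun m => g d * if Odd m then (1 : ℝ) else 0)
    (g := fun m => if d * m ≤ N ∧ Odd m then g d else 0)]
  · intro m hm
    rw [mem_sdiff, mem_Icc, mem_Icc] at hm
    have h1 : ¬ m ≤ N / d := fun h => hm.2 ⟨hm.1.1, h⟩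
    rw [Nat.le_div_iff_mul_le hd] at h1
    rw [if_neg]
    rintro ⟨h2, _⟩
    exact h1 (by rw [mul_comm]; exact h2)
  · intro m hm
    rw [mem_Icc, Nat.le_div_iff_mul_le hd] at hm
    have h2 : d * m ≤ N := by rw [mul_comm]; exact hm.2
    by_cases ho : Odd m
    · rw [if_pos ho, if_pos ⟨h2, ho⟩, mul_one]
    · rw [if_neg ho, if_neg (fun h => ho h.2), mul_zero]

theorem low (hg : ∀ n, |g n| ≤ 1) (N y : ℕ) :
    |P g N 0 y - (N : ℝ) / 2 * Lp g y| ≤ y := by
  unfold P Lp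
  have e0 : Ioc 0 y = Icc 1 y := by ext; simp [Nat.succ_le_iff]
  rw [e0, mul_sum, ← sum_sub_distrib]
  refine (abs_sum_le_sum_abs _ _).trans ?_
  calc ∑ d ∈ Icc 1 y, |∑ m ∈ Icc 1 N, (if d * m ≤ N ∧ Odd m then g d else 0)
        - (N : ℝ) / 2 * (g d / d)| ≤ ∑ d ∈ Icc 1 y, (1 : ℝ) := by
        refine sum_le_sum fun d hd => ?_
        have hd1 : 1 ≤ d := (mem_Icc.1 hd).1
        rw [inner g N d hd1]
        have e : g d * c (N / d) - (N : ℝ) / 2 * (g d / d)
            = g d * (c (N / d) - (N : ℝ) / 2 * (1 / d)) := by ring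
        rw [e, abs_mul]
        have h1 := hg d
        have h2 := c_near N d hd1
        calc |g d| * |c (N / d) - (N : ℝ) / 2 * (1 / d)| ≤ 1 * 1 :=
              mul_le_mul h1 h2 (abs_nonneg _) zero_le_one
          _ = 1 := one_mul 1
    _ = y := by simp

theorem Ioc_sum (a b : ℕ) (hab : a ≤ b) : ∑ d ∈ Ioc a b, g d = S g b - S g a := by
  obtain ⟨j, rfl⟩ := Nat.exists_eq_add_of_le hab
  induction j with
  | zero => simp
  | succ j ih =>
    have e : a + (j + 1) = (a + j) + 1 := by omega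
    rw [e, S_succ, Finset.sum_Ioc_succ_top (by omega), ih (by omega)]
    ring

theorem high (η N0 : ℝ) (hη : 0 < η) (N y : ℕ) (hy1 : 1 ≤ y) (hyN : y ≤ N) (hy : N0 ≤ y)
    (hS : ∀ x : ℕ, |S g x| ≤ η * (x + N0)) :
    |P g N y N| ≤ 4 * η * N ^ 2 / y := by
  have hyr : (1 : ℝ) ≤ y := by exact_mod_cast hy1
  have hyNr : (y : ℝ) ≤ N := by exact_mod_cast hyN
  unfold P
  rw [sum_comm]
  have hin : ∀ m ∈ Icc 1 N, |∑ d ∈ Ioc y N, (if d * m ≤ N ∧ Odd m then g d else 0)|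
      ≤ if m ≤ N / y then 4 * η * N else 0 := by
    intro m hm
    have hm1 : 1 ≤ m := (mem_Icc.1 hm).1
    by_cases ho : Odd m
    · by_cases hmy : m ≤ N / y
      · rw [if_pos hmy]
        have h1 : y ≤ N / m := by
          rw [Nat.le_div_iff_mul_le hm1]
          rw [Nat.le_div_iff_mul_le hy1] at hmy
          rw [mul_comm]; exact hmy
        have e : ∑ d ∈ Ioc y N, (if d * m ≤ N ∧ Odd m then g d else 0)
            = ∑ d ∈ Ioc y (N / m), g d := by
          have hsub : Ioc y (N / m) ⊆ Ioc y N := Ioc_subset_Ioc_right (Nat.div_le_self _ _)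
          symm
          refine sum_subset_zero_on_sdiff hsub ?_ ?_
          · intro d hd
            rw [mem_sdiff, mem_Ioc, mem_Ioc] at hd
            have h2 : ¬ d ≤ N / m := fun h => hd.2 ⟨hd.1.1, h⟩
            rw [Nat.le_div_iff_mul_le hm1] at h2
            rw [if_neg (fun h => h2 h.1)]
          · intro d hd
            rw [mem_Ioc, Nat.le_div_iff_mul_le hm1] at hd
            rw [if_pos ⟨hd.2, ho⟩]
        rw [e, Ioc_sum g y (N / m) h1]
        have h3 : ((N / m : ℕ) : ℝ) ≤ N := by exact_mod_cast Nat.div_le_self N m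
        have h4 := hS (N / m)
        have h5 := hS y
        have h6 := abs_sub (S g (N / m)) (S g y)
        nlinarith
      · rw [if_neg hmy]
        have e : ∑ d ∈ Ioc y N, (if d * m ≤ N ∧ Odd m then g d else 0) = 0 := by
          refine sum_eq_zero fun d hd => ?_
          rw [if_neg]
          rintro ⟨h2, _⟩
          rw [mem_Ioc] at hd
          rw [Nat.le_div_iff_mul_le hy1] at hmy
          apply hmy
          calc m * y ≤ m * d := Nat.mul_le_mul_left m hd.1.le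
            _ = d * m := mul_comm _ _
            _ ≤ N := h2
        rw [e, abs_zero]
    · have e : ∑ d ∈ Ioc y N, (if d * m ≤ N ∧ Odd m then g d else 0) = 0 :=
        sum_eq_zero fun d _ => by rw [if_neg (fun h => ho h.2)]
      rw [e, abs_zero]
      split_ifs
      · positivity
      · exact le_rfl
  refine (abs_sum_le_sum_abs _ _).trans ((sum_le_sum hin).trans ?_)
  rw [← sum_filter, sum_const, nsmul_eq_mul]
  have hcard : (((Icc 1 N).filter (fun m => m ≤ N / y)).card : ℝ) ≤ (N : ℝ) / y := by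
    have h1 : (Icc 1 N).filter (fun m => m ≤ N / y) ⊆ Icc 1 (N / y) := by
      intro m hm
      rw [mem_filter, mem_Icc] at hm
      exact mem_Icc.2 ⟨hm.1.1, hm.2⟩
    have h2 := card_le_card h1
    rw [Nat.card_Icc, Nat.add_sub_cancel] at h2
    have h3 : ((Icc 1 N).filter (fun m => m ≤ N / y)).card ≤ N / y := h2
    calc (((Icc 1 N).filter (fun m => m ≤ N / y)).card : ℝ) ≤ ((N / y : ℕ) : ℝ) := by
          exact_mod_cast h3
      _ ≤ (N : ℝ) / y := Nat.cast_div_le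
  calc (((Icc 1 N).filter (fun m => m ≤ N / y)).card : ℝ) * (4 * η * N)
      ≤ (N : ℝ) / y * (4 * η * N) := mul_le_mul_of_nonneg_right hcard (by positivity)
    _ = 4 * η * N ^ 2 / y := by ring

end main

/-- the odd part of the symbol -/
noncomputable def gg (D : ℤ) (n : ℕ) : ℝ := if Odd n then ((jacobiSym D n : ℤ) : ℝ) else 0

theorem gg_le (D : ℤ) (n : ℕ) : |gg D n| ≤ 1 := by
  unfold gg
  split_ifs
  · rcases jacobiSym.trichotomy D n with h | h | h <;> rw [h] <;> simp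
  · simp

theorem S_gg (D : ℤ) (x : ℕ) :
    ∑ n ∈ (Icc 1 x).filter (fun n => Odd n), ((jacobiSym D n : ℤ) : ℝ) = S (gg D) x := by
  unfold S gg
  rw [sum_filter]

theorem Lp_gg (D : ℤ) (x : ℕ) :
    ∑ d ∈ (Icc 1 x).filter (fun n => Odd n), ((jacobiSym D d : ℤ) : ℝ) / d = Lp (gg D) x := by
  unfold Lp gg
  rw [sum_filter]
  refine sum_congr rfl fun n _ => ?_
  split_ifs <;> simp

theorem A_eq (D : ℤ) (N : ℕ) :
    ∑ n ∈ (Icc 1 N).filter (fun n => Odd n), ∑ d ∈ n.divisors, ((jacobiSym D d : ℤ) : ℝ)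
      = P (gg D) N 0 N := by
  have h1 : ∀ n ∈ (Icc 1 N).filter (fun n => Odd n),
      ∑ d ∈ n.divisors, ((jacobiSym D d : ℤ) : ℝ)
        = ∑ d ∈ Icc 1 N, if d ∣ n then gg D d else 0 := by
    intro n hn
    rw [mem_filter, mem_Icc] at hn
    rw [← sum_filter]
    refine sum_congr ?_ ?_
    · ext d
      rw [Nat.mem_divisors, mem_filter, mem_Icc]
      constructor
      · rintro ⟨hd, hn0⟩
        exact ⟨⟨Nat.pos_of_dvd_of_pos hd hn.1.1, (Nat.le_of_dvd hn.1.1 hd).trans hn.1.2⟩, hd⟩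
      · rintro ⟨_, hd⟩
        exact ⟨hd, by omega⟩
    · intro d hd
      have hd2 := (mem_filter.1 hd).2
      have ho : Odd d := Odd.of_dvd_nat hn.2 hd2
      unfold gg
      rw [if_pos ho]
  rw [sum_congr rfl h1, sum_comm]
  have e0 : Ioc 0 N = Icc 1 N := by ext; simp [Nat.succ_le_iff]
  unfold P
  rw [e0]
  refine sum_congr rfl fun d hd => ?_
  have hd1 : 1 ≤ d := (mem_Icc.1 hd).1
  by_cases ho : Odd d
  · rw [← sum_filter, ← sum_filter, sum_const, sum_const]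
    congr 1
    symm
    refine card_bij (fun m _ => d * m) ?_ ?_ ?_
    · intro m hm
      rw [mem_filter, mem_Icc] at hm
      rw [mem_filter, mem_filter, mem_Icc]
      exact ⟨⟨⟨Nat.mul_pos hd1 hm.1.1, hm.2.1⟩, ho.mul hm.2.2⟩, dvd_mul_right d m⟩
    · intro m _ m' _ h
      exact Nat.eq_of_mul_eq_mul_left hd1 h
    · intro n hn
      rw [mem_filter, mem_filter, mem_Icc] at hn
      obtain ⟨⟨⟨hn1, hn2⟩, hn3⟩, ⟨m, rfl⟩⟩ := hn
      have hm1 : 1 ≤ m := by
        rcases Nat.eq_zero_or_pos m with h | h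
        · rw [h, mul_zero] at hn1; omega
        · exact h
      refine ⟨m, ?_, rfl⟩
      rw [mem_filter, mem_Icc]
      exact ⟨⟨hm1, (Nat.le_mul_of_pos_left m hd1).trans hn2⟩, hn2, (Nat.odd_mul.1 hn3).2⟩
  · have hz : gg D d = 0 := by unfold gg; rw [if_neg ho]
    rw [hz]
    simp

theorem P_split (g : ℕ → ℝ) (N y : ℕ) (hyN : y ≤ N) : P g N 0 N = P g N 0 y + P g N y N := by
  unfold P
  rw [← sum_Ioc_consecutive _ (Nat.zero_le y) hyN]

end Cnt

open Cnt in
theorem cnt : S_CNT := by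
  intro D η N0 L e N y Z hη hη1 hN0 hy1 hyN hNZ hNy he hS hL
  have hS' : ∀ x : ℕ, |S (gg D) x| ≤ η * (x + N0) := fun x => by rw [← S_gg]; exact hS x
  rw [Lp_gg] at hL
  rw [A_eq, P_split _ N y hyN]
  have h1 := low (gg D) (gg_le D) N y
  have h2 := high (gg D) η N0 hη N y hy1 hyN hNy hS'
  have h3 := tail (gg D) η N0 hη y Z (hyN.trans hNZ) hy1 hNy hS'
  have hyr : (1 : ℝ) ≤ y := by exact_mod_cast hy1
  have hZr : (1 : ℝ) ≤ Z := by exact_mod_cast (hy1.trans (hyN.trans hNZ))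
  have hlog : 0 ≤ Real.log (Z : ℝ) := Real.log_nonneg hZr
  have hN : (0 : ℝ) ≤ N := Nat.cast_nonneg _
  -- lower bound of |Lp y|
  have h4 : |L| - e - 6 * η * (1 + Real.log Z) ≤ |Lp (gg D) y| := by
    have a1 : L = Lp (gg D) y + (Lp (gg D) Z - Lp (gg D) y) - (Lp (gg D) Z - L) := by ring
    have a2 := abs_sub (Lp (gg D) y + (Lp (gg D) Z - Lp (gg D) y)) (Lp (gg D) Z - L)
    have a3 := abs_add_le (Lp (gg D) y) (Lp (gg D) Z - Lp (gg D) y)
    have a4 : |L| = |Lp (gg D) y + (Lp (gg D) Z - Lp (gg D) y) - (Lp (gg D) Z - L)| := by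
      rw [← a1]
    linarith
  have h5 : |(N : ℝ) / 2 * Lp (gg D) y| = (N : ℝ) / 2 * |Lp (gg D) y| := by
    rw [abs_mul, abs_of_nonneg (by positivity : (0 : ℝ) ≤ (N : ℝ) / 2)]
  have h6 : |(N : ℝ) / 2 * Lp (gg D) y| ≤ |P (gg D) N 0 y + P (gg D) N y N|
      + |P (gg D) N 0 y - (N : ℝ) / 2 * Lp (gg D) y| + |P (gg D) N y N| := by
    have b1 : (N : ℝ) / 2 * Lp (gg D) y = (P (gg D) N 0 y + P (gg D) N y N)
        - (P (gg D) N 0 y - (N : ℝ) / 2 * Lp (gg D) y) - P (gg D) N y N := by ring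
    have b2 := abs_sub ((P (gg D) N 0 y + P (gg D) N y N)
        - (P (gg D) N 0 y - (N : ℝ) / 2 * Lp (gg D) y)) (P (gg D) N y N)
    have b3 := abs_sub (P (gg D) N 0 y + P (gg D) N y N)
        (P (gg D) N 0 y - (N : ℝ) / 2 * Lp (gg D) y)
    rw [← b1] at b2
    linarith
  have h7 : (N : ℝ) / 2 * (|L| - e - 6 * η * (1 + Real.log Z)) ≤ (N : ℝ) / 2 * |Lp (gg D) y| :=
    mul_le_mul_of_nonneg_left h4 (by positivity)
  have h8 : (N : ℝ) / 2 * (|L| - e - 20 * η * (1 + Real.log Z))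
      ≤ (N : ℝ) / 2 * (|L| - e - 6 * η * (1 + Real.log Z)) := by
    apply mul_le_mul_of_nonneg_left _ (by positivity)
    nlinarith [mul_nonneg hη.le (by linarith : (0 : ℝ) ≤ 1 + Real.log Z)]
  have h9 : 4 * η * (N : ℝ) ^ 2 / y ≤ 20 * η * N ^ 2 / y := by
    apply div_le_div_of_nonneg_right _ (by linarith)
    nlinarith [mul_nonneg hη.le (sq_nonneg (N : ℝ))]
  linarith

end Pool.Agent.H568.GR
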