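import Mathlib

/-!
# Torsion in class groups of quadratic fields with a smooth discriminant: statements
-/

set_option autoImplicit false

namespace Pool.Agent.H568.GR

open Finset NumberField

/-- The squarefree numbers up to `N` all of whose prime factors `p` are odd with `(D/p) = 1`. -/
noncomputable def MM (D : ℤ) (N : ℕ) : Finset ℕ := by
  classical
  exact (Finset.Icc 1 N).filter (fun n => Squarefree n ∧
    ∀ p : ℕ, p.Prime → p ∣ n → p ≠ 2 ∧ jacobiSym D p = 1)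

/-- The number of ideal classes killed by `l`. -/
noncomputable def tor (K : Type) [Field K] [NumberField K] (l : ℕ) : ℕ :=
  Nat.card {c : ClassGroup (𝓞 K) // c ^ l = 1}

/-- the shift belonging to a vertex of the cube -/
def sh {k : ℕ} (Q : Fin k → ℕ) (h h' : Fin k → ℤ) (ω : Fin k → Bool) : ℤ :=
  ∑ i, (Q i : ℤ) * (if ω i then h i else h' i)

/-- the absolute value of the complete cube sum modulo `p`, divided by `p` -/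
noncomputable def cp {k : ℕ} (p : ℕ) (Q : Fin k → ℕ) (h h' : Fin k → ℤ) : ℝ :=
  |∑ x ∈ range p, ∏ ω : Fin k → Bool, ((jacobiSym ((x : ℤ) + sh Q h h' ω) p : ℤ) : ℝ)| / p

/-- ALG, imaginary fields: squarefree products of split primes and torsion. -/
def S_NEG : Prop := ∀ (K : Type) [Field K] [NumberField K], Module.finrank ℚ K = 2 →
  discr K < 0 → ∀ l N : ℕ, 1 ≤ l → 4 * (N ^ 2) ^ l < (discr K).natAbs →
    tor K l * (MM (discr K) N).card ≤ Nat.card (ClassGroup (𝓞 K))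

/-- ALG, real fields. -/
def S_POS : Prop := ∃ C : ℝ, 0 < C ∧ ∀ (K : Type) [Field K] [NumberField K],
  Module.finrank ℚ K = 2 → 0 < discr K → ∀ l N : ℕ, 1 ≤ l →
  4 * ((N : ℝ) ^ 2) ^ l * Real.exp (l + 1) < |(discr K : ℝ)| →
    (tor K l : ℝ) * (MM (discr K) N).card ≤ C * √|(discr K : ℝ)| * Real.log |(discr K : ℝ)|

/-- DEC: few squarefree products of split primes give few numbers of positive weight. -/
def S_DEC : Prop := ∀ (D : ℤ), D ≠ 0 → ∀ (N : ℕ) (B T : ℝ), 1 ≤ B →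
  (∀ n ∈ Icc 1 N, (n.divisors.card : ℝ) ≤ T) →
  ∑ n ∈ (Icc 1 N).filter (fun n => Odd n), ∑ d ∈ n.divisors, ((jacobiSym D d : ℤ) : ℝ) ≤
    T * D.natAbs.divisors.card * (B ^ 2 * (MM D N).card + 10 * N / B ^ (1 / 4 : ℝ))

/-- L: the value at 1. -/
def S_L : Prop := ∀ ε : ℝ, 0 < ε → ∃ c : ℝ, 0 < c ∧ ∀ D : ℤ, D ≠ 0 →
  (∃ n : ℕ, Odd n ∧ jacobiSym D n = -1) → ∃ L : ℝ, c * |(D : ℝ)| ^ (-ε) ≤ |L| ∧
    ∀ Z : ℕ, 1 ≤ Z → |∑ d ∈ (Icc 1 Z).filter (fun n => Odd n), ((jacobiSym D d : ℤ) : ℝ) / d - L| ≤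
      8 * |(D : ℝ)| / Z

/-- CNT: short character sums and the value at 1 give a lower bound for the sum of the weights. -/
def S_CNT : Prop := ∀ (D : ℤ) (η N0 L e : ℝ) (N y Z : ℕ), 0 < η → η ≤ 1 → 1 ≤ N0 →
  1 ≤ y → y ≤ N → N ≤ Z → N0 ≤ y → 0 ≤ e →
  (∀ x : ℕ, |∑ n ∈ (Icc 1 x).filter (fun n => Odd n), ((jacobiSym D n : ℤ) : ℝ)| ≤ η * (x + N0)) →
  |∑ d ∈ (Icc 1 Z).filter (fun n => Odd n), ((jacobiSym D d : ℤ) : ℝ) / d - L| ≤ e →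
  (N : ℝ) / 2 * (|L| - e - 20 * η * (1 + Real.log Z)) - 2 * y - 20 * η * N ^ 2 / y ≤
    |∑ n ∈ (Icc 1 N).filter (fun n => Odd n), ∑ d ∈ n.divisors, ((jacobiSym D d : ℤ) : ℝ)|

/-- REC: reciprocity reduces to characters modulo the odd part. -/
def S_REC : Prop := ∀ (D : ℤ) (a q : ℕ), Odd q → D.natAbs = 2 ^ a * q →
  (∀ (X : ℕ) (V : ℝ), 0 ≤ V → (∀ (A : ℤ) (N : ℕ), N ≤ X →
      |∑ m ∈ range N, ((jacobiSym (A + m) q : ℤ) : ℝ)| ≤ V) →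
    ∀ x : ℕ, x ≤ X → |∑ n ∈ (Icc 1 x).filter (fun n => Odd n), ((jacobiSym D n : ℤ) : ℝ)| ≤
      4 * V) ∧
  (¬ IsSquare q → ∃ n : ℕ, Odd n ∧ jacobiSym D n = -1)

/-- VDC: the iterated van der Corput inequality with periodic factors removed. -/
def S_VDC : Prop := ∀ k : ℕ, ∃ C : ℝ, 1 ≤ C ∧ ∀ (Q : Fin k → ℕ) (w : Fin k → ℤ → ℝ) (g : ℤ → ℝ)
  (A : ℤ) (N H : ℕ) (δ : ℝ), 1 ≤ N → 1 ≤ H → 0 ≤ δ → δ ≤ 1 → (∀ i n, |w i n| ≤ 1) →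
  (∀ n, |g n| ≤ 1) → (∀ i n, w i (n + Q i) = w i n) → (∀ i, (Q i : ℝ) * H ≤ δ * N) →
  (|∑ n ∈ range N, (∏ i, w i (A + n)) * g (A + n)| / N) ^ (2 ^ k) ≤
    C * (δ + (∑ h : Fin k → Fin H, ∑ h' : Fin k → Fin H,
      |∑ n ∈ range N, ∏ ω : Fin k → Bool,
        g (A + n + sh Q (fun i => ((h i : ℕ) : ℤ)) (fun i => ((h' i : ℕ) : ℤ)) ω)| / N) /
          (H : ℝ) ^ (2 * k))

/-- CRT: incomplete sums modulo a squarefree number and complete sums modulo its primes. -/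
def S_CRT : Prop := ∀ (k : ℕ) (Q : Fin k → ℕ) (h h' : Fin k → ℤ) (r : ℕ), Odd r →
  Squarefree r → ∀ (A : ℤ) (N : ℕ),
  |∑ n ∈ range N, ∏ ω : Fin k → Bool, ((jacobiSym (A + n + sh Q h h' ω) r : ℤ) : ℝ)| ≤
    N * ∏ p ∈ r.primeFactors, cp p Q h h' + r

/-- WEIL: the complete sum modulo a prime, if no partial sum of the differences vanishes. -/
def S_WEIL : Prop := ∀ (k : ℕ), 1 ≤ k → ∀ (Q : Fin k → ℕ) (h h' : Fin k → ℤ) (p : ℕ),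
  p.Prime → p ≠ 2 →
  (∀ s : Finset (Fin k), s.Nonempty → ¬ (p : ℤ) ∣ ∑ i ∈ s, (Q i : ℤ) * (h i - h' i)) →
  cp p Q h h' ≤ 2 ^ k / √(p : ℝ)

/-- AVP: the average over shifts in a short interval, one prime. -/
def S_AVP : Prop := ∀ (k : ℕ), 1 ≤ k → ∀ (Q : Fin k → ℕ) (p H : ℕ), p.Prime → p ≠ 2 → 1 ≤ H →
  (∀ i, ¬ p ∣ Q i) →
  (∑ h : Fin k → Fin H, ∑ h' : Fin k → Fin H,
    cp p Q (fun i => ((h i : ℕ) : ℤ)) (fun i => ((h' i : ℕ) : ℤ))) / (H : ℝ) ^ (2 * k) ≤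
    2 ^ (k + 2) * (1 / √(p : ℝ) + 1 / H)

/-- AVF: the average over all shifts modulo a squarefree number. -/
def S_AVF : Prop := ∀ (k : ℕ), 1 ≤ k → ∀ (Q : Fin k → ℕ) (r : ℕ), Odd r → Squarefree r →
  (∀ i, Nat.Coprime r (Q i)) →
  (∑ h : Fin k → Fin r, ∑ h' : Fin k → Fin r,
    ∏ p ∈ r.primeFactors, cp p Q (fun i => ((h i : ℕ) : ℤ)) (fun i => ((h' i : ℕ) : ℤ))) /
      (r : ℝ) ^ (2 * k) ≤ (2 ^ (k + 3) : ℝ) ^ r.primeFactors.card / √(r : ℝ)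

/-- FAC: factorisation of a number without large prime factors. -/
def S_FAC : Prop := ∀ (c : ℕ) (q : ℕ) (Y R : ℝ), 1 ≤ c → Odd q → Squarefree q → 1 ≤ R → R ^ 2 ≤ Y →
  (∀ p : ℕ, p.Prime → p ∣ q → (p : ℝ) ≤ Y) → (q : ℝ) ≤ Y ^ c → R < q →
  ∃ (r : ℕ) (Q : Fin (2 * c + 1) → ℕ), q = r * ∏ i, Q i ∧ (∀ i, (Q i : ℝ) ≤ Y) ∧
    ((R ≤ r ∧ (r : ℝ) ≤ R ^ 2) ∨ (r.Prime ∧ R < r))

end Pool.Agent.H568.GR
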