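import Mathlib
import Pool.Agent.H568.GR.Stm

/-! Incomplete sums modulo a squarefree number by complete sums modulo its primes. -/

set_option autoImplicit false

namespace Pool.Agent.H568.GR

open Finset

namespace Crt

/-- the product over the cube -/
noncomputable def ff {k : ℕ} (Q : Fin k → ℕ) (h h' : Fin k → ℤ) (r : ℕ) (x : ℤ) : ℝ :=
  ∏ ω : Fin k → Bool, ((jacobiSym (x + sh Q h h' ω) r : ℤ) : ℝ)

variable {k : ℕ} (Q : Fin k → ℕ) (h h' : Fin k → ℤ)

theorem ff_congr {r : ℕ} {x y : ℤ} (hxy : x % r = y % r) : ff Q h h' r x = ff Q h h' r y := by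
  unfold ff
  refine Finset.prod_congr rfl fun ω _ => ?_
  rw [jacobiSym.mod_left (x + sh Q h h' ω) r, jacobiSym.mod_left (y + sh Q h h' ω) r,
    Int.add_emod x, Int.add_emod y, hxy]

theorem abs_ff_le (r : ℕ) (x : ℤ) : |ff Q h h' r x| ≤ 1 := by
  unfold ff
  rw [Finset.abs_prod]
  refine Finset.prod_le_one (fun _ _ => abs_nonneg _) fun ω _ => ?_
  rcases jacobiSym.trichotomy (x + sh Q h h' ω) r with h1 | h1 | h1 <;> rw [h1] <;> simp

theorem ff_mul {a b : ℕ} (ha : a ≠ 0) (hb : b ≠ 0) (x : ℤ) :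
    ff Q h h' (a * b) x = ff Q h h' a x * ff Q h h' b x := by
  unfold ff
  rw [← Finset.prod_mul_distrib]
  refine Finset.prod_congr rfl fun ω _ => ?_
  have : NeZero a := ⟨ha⟩
  have : NeZero b := ⟨hb⟩
  rw [jacobiSym.mul_right]
  push_cast
  rfl

/-- the complete sum -/
noncomputable def SS (r : ℕ) : ℝ := ∑ x ∈ range r, ff Q h h' r x

theorem shift (r : ℕ) (A : ℤ) : ∑ n ∈ range r, ff Q h h' r (A + n) = SS Q h h' r := by
  have step : ∀ A : ℤ, ∑ n ∈ range r, ff Q h h' r (A + 1 + n) =
      ∑ n ∈ range r, ff Q h h' r (A + n) := by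
    intro A
    have h1 := Finset.sum_range_succ (fun n : ℕ => ff Q h h' r (A + n)) r
    have h2 := Finset.sum_range_succ' (fun n : ℕ => ff Q h h' r (A + n)) r
    have h3 : ff Q h h' r (A + (r : ℕ)) = ff Q h h' r (A + ((0 : ℕ) : ℤ)) :=
      ff_congr Q h h' (by simp)
    have h4 : ∑ n ∈ range r, ff Q h h' r (A + 1 + n) =
        ∑ n ∈ range r, ff Q h h' r (A + ((n + 1 : ℕ) : ℤ)) :=
      Finset.sum_congr rfl fun n _ => by
        congr 1
        push_cast
        ring
    rw [h4]
    linarith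
  unfold SS
  induction A using Int.induction_on with
  | zero => exact Finset.sum_congr rfl fun n _ => by rw [zero_add]
  | succ i ih => rw [step, ih]
  | pred i ih =>
    rw [← ih, ← step (-(i : ℤ) - 1)]
    exact Finset.sum_congr rfl fun n _ => by
      congr 1
      ring

theorem periods (r : ℕ) (A : ℤ) (m : ℕ) :
    ∑ n ∈ range (r * m), ff Q h h' r (A + n) = m * SS Q h h' r := by
  induction m with
  | zero => simp
  | succ m ih =>
    rw [Nat.mul_succ, Finset.sum_range_add, ih]
    have h1 : ∑ x ∈ range r, ff Q h h' r (A + ((r * m + x : ℕ) : ℤ)) =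
        ∑ x ∈ range r, ff Q h h' r (A + r * m + x) :=
      Finset.sum_congr rfl fun n _ => by
        congr 1
        push_cast
        ring
    rw [h1, shift]
    push_cast
    ring

theorem crt_sum {a b : ℕ} (hab : Nat.Coprime a b) (ha : a ≠ 0) (hb : b ≠ 0) (F G : ℕ → ℝ)
    (hF : ∀ x, F (x % a) = F x) (hG : ∀ x, G (x % b) = G x) :
    ∑ x ∈ range (a * b), F x * G x = (∑ x ∈ range a, F x) * ∑ x ∈ range b, G x := by
  rw [Finset.sum_mul_sum, ← Finset.sum_product']
  refine Finset.sum_bij (fun x _ => (x % a, x % b)) ?_ ?_ ?_ ?_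
  · intro x _
    rw [Finset.mem_product, Finset.mem_range, Finset.mem_range]
    exact ⟨Nat.mod_lt _ (Nat.pos_of_ne_zero ha), Nat.mod_lt _ (Nat.pos_of_ne_zero hb)⟩
  · intro x hx y hy hxy
    rw [Finset.mem_range] at hx hy
    have h1 : x ≡ y [MOD a] := (Prod.ext_iff.1 hxy).1
    have h2 : x ≡ y [MOD b] := (Prod.ext_iff.1 hxy).2
    have h3 : x ≡ y [MOD a * b] := (Nat.modEq_and_modEq_iff_modEq_mul hab).1 ⟨h1, h2⟩
    exact Nat.ModEq.eq_of_lt_of_lt h3 hx hy
  · rintro ⟨u, v⟩ huv
    rw [Finset.mem_product, Finset.mem_range, Finset.mem_range] at huv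
    refine ⟨Nat.chineseRemainder hab u v, ?_, ?_⟩
    · rw [Finset.mem_range]
      exact Nat.chineseRemainder_lt_mul hab u v ha hb
    · have h1 := (Nat.chineseRemainder hab u v).2
      refine Prod.ext ?_ ?_
      · show (Nat.chineseRemainder hab u v : ℕ) % a = u
        rw [show (Nat.chineseRemainder hab u v : ℕ) % a = u % a from h1.1]
        exact Nat.mod_eq_of_lt huv.1
      · show (Nat.chineseRemainder hab u v : ℕ) % b = v
        rw [show (Nat.chineseRemainder hab u v : ℕ) % b = v % b from h1.2]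
        exact Nat.mod_eq_of_lt huv.2
  · intro x _
    show F x * G x = F (x % a) * G (x % b)
    rw [hF, hG]

theorem SS_mul {a b : ℕ} (hab : Nat.Coprime a b) (ha : a ≠ 0) (hb : b ≠ 0) :
    SS Q h h' (a * b) = SS Q h h' a * SS Q h h' b := by
  unfold SS
  rw [← crt_sum hab ha hb (fun x => ff Q h h' a x) (fun x => ff Q h h' b x)
    (fun x => ff_congr Q h h' (by push_cast; exact Int.emod_emod_of_dvd _ dvd_rfl))
    (fun x => ff_congr Q h h' (by push_cast; exact Int.emod_emod_of_dvd _ dvd_rfl))]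
  exact Finset.sum_congr rfl fun x _ => ff_mul Q h h' ha hb x

theorem abs_SS_prime {p : ℕ} (hp : p ≠ 0) : |SS Q h h' p| = p * cp p Q h h' := by
  have h1 : (p : ℝ) ≠ 0 := Nat.cast_ne_zero.2 hp
  unfold cp SS ff
  field_simp

theorem abs_SS (r : ℕ) (hr : Squarefree r) :
    |SS Q h h' r| = r * ∏ p ∈ r.primeFactors, cp p Q h h' := by
  induction r using Nat.strong_induction_on with
  | _ r ih =>
    rcases eq_or_ne r 1 with rfl | h1
    · rw [Nat.primeFactors_one, Finset.prod_empty]
      unfold SS ff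
      simp
    · have hp := Nat.minFac_prime h1
      obtain ⟨b, hb⟩ := Nat.minFac_dvd r
      have hr0 : r ≠ 0 := hr.ne_zero
      have hb0 : b ≠ 0 := by
        rintro rfl
        rw [mul_zero] at hb
        exact hr0 hb
      have hsq := hr
      rw [hb, Nat.squarefree_mul_iff] at hsq
      obtain ⟨hcop, -, hb2⟩ := hsq
      have hlt : b < r := by
        rw [hb]
        nlinarith [hp.two_le, Nat.pos_of_ne_zero hb0]
      have h2 := ih b hlt hb2
      have hrr : SS Q h h' r = SS Q h h' r.minFac * SS Q h h' b := by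
        conv_lhs => rw [hb]
        exact SS_mul Q h h' hcop hp.ne_zero hb0
      have hpf : r.primeFactors = {r.minFac} ∪ b.primeFactors := by
        conv_lhs => rw [hb]
        rw [hcop.primeFactors_mul, hp.primeFactors]
      have hdis : Disjoint ({r.minFac} : Finset ℕ) b.primeFactors := by
        rw [← hp.primeFactors]
        exact hcop.disjoint_primeFactors
      rw [hrr, abs_mul, h2, abs_SS_prime Q h h' hp.ne_zero, hpf,
        Finset.prod_union hdis, Finset.prod_singleton]
      have h3 : (r : ℝ) = r.minFac * b := by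
        conv_lhs => rw [hb]
        push_cast
        rfl
      rw [h3]
      ring

end Crt

open Crt in
theorem crt : S_CRT := by
  intro k Q h h' r _ hr A N
  have hr0 : 0 < r := Nat.pos_of_ne_zero hr.ne_zero
  have hrR : (0 : ℝ) < r := by exact_mod_cast hr0
  have h1 : ∑ n ∈ range N, ∏ ω : Fin k → Bool, ((jacobiSym (A + n + sh Q h h' ω) r : ℤ) : ℝ) =
      ∑ n ∈ range (r * (N / r) + N % r), ff Q h h' r (A + n) := by
    rw [Nat.div_add_mod]
    rfl
  rw [h1, Finset.sum_range_add, periods]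
  have h2 : |∑ x ∈ range (N % r), ff Q h h' r (A + ((r * (N / r) + x : ℕ) : ℤ))| ≤ r := by
    refine (Finset.abs_sum_le_sum_abs _ _).trans ?_
    refine (Finset.sum_le_sum fun x _ => abs_ff_le Q h h' r _).trans ?_
    rw [Finset.sum_const, Finset.card_range, nsmul_eq_mul, mul_one]
    exact_mod_cast (Nat.mod_lt N hr0).le
  have h3 : |((N / r : ℕ) : ℝ) * SS Q h h' r| ≤ N * ∏ p ∈ r.primeFactors, cp p Q h h' := by
    rw [abs_mul, abs_SS Q h h' r hr, Nat.abs_cast]
    have h4 : ((N / r : ℕ) : ℝ) * r ≤ N := by exact_mod_cast Nat.div_mul_le_self N r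
    have h5 : 0 ≤ ∏ p ∈ r.primeFactors, cp p Q h h' :=
      Finset.prod_nonneg fun p _ => by
        unfold cp
        positivity
    calc ((N / r : ℕ) : ℝ) * (r * ∏ p ∈ r.primeFactors, cp p Q h h')
        = (((N / r : ℕ) : ℝ) * r) * ∏ p ∈ r.primeFactors, cp p Q h h' := by ring
      _ ≤ N * ∏ p ∈ r.primeFactors, cp p Q h h' := mul_le_mul_of_nonneg_right h4 h5
  exact (abs_add_le _ _).trans (add_le_add h3 h2)

end Pool.Agent.H568.GR
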