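import Pool.Agent.H568.GR.Stm

set_option autoImplicit false

namespace Pool.Agent.H568.GR

open Finset

namespace Dec

/-- the sum over the divisors vanishes if some prime factor of exponent one is inert -/
theorem sum_eq_zero (D : ℤ) (n p : ℕ) (hn : n ≠ 0) (hp : p.Prime) (hpn : p ∣ n)
    (hp2 : ¬ p ^ 2 ∣ n) (hJ : jacobiSym D p = -1) :
    ∑ d ∈ n.divisors, ((jacobiSym D d : ℤ) : ℝ) = 0 := by
  have hp0 : p ≠ 0 := hp.ne_zero
  have hpp : 0 < p := hp.pos
  refine Finset.sum_involution (fun d _ => if p ∣ d then d / p else d * p) ?_ ?_ ?_ ?_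
  · intro d hd
    have hd0 : d ≠ 0 := (Nat.pos_of_mem_divisors hd).ne'
    by_cases h : p ∣ d
    · rw [if_pos h]
      obtain ⟨m, rfl⟩ := h
      have hm0 : m ≠ 0 := by
        rintro rfl
        exact hd0 (mul_zero p)
      rw [Nat.mul_div_cancel_left m hpp, jacobiSym.mul_right' D hp0 hm0, hJ]
      push_cast
      ring
    · rw [if_neg h, jacobiSym.mul_right' D hd0 hp0, hJ]
      push_cast
      ring
  · intro d hd _ hcon
    have hd0 : 0 < d := Nat.pos_of_mem_divisors hd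
    by_cases h : p ∣ d
    · rw [if_pos h] at hcon
      have := Nat.div_lt_self hd0 hp.one_lt
      omega
    · rw [if_neg h] at hcon
      have : d * 1 < d * p := Nat.mul_lt_mul_of_pos_left hp.one_lt hd0
      omega
  · intro d hd
    rw [Nat.mem_divisors] at hd
    by_cases h : p ∣ d
    · rw [if_pos h, Nat.mem_divisors]
      exact ⟨(Nat.div_dvd_of_dvd h).trans hd.1, hn⟩
    · rw [if_neg h, Nat.mem_divisors]
      refine ⟨?_, hn⟩
      exact Nat.Coprime.mul_dvd_of_dvd_of_dvd (Nat.Coprime.symm ((hp.coprime_iff_not_dvd).2 h))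
        hd.1 hpn
  · intro d hd
    have hd0 : 0 < d := Nat.pos_of_mem_divisors hd
    rw [Nat.mem_divisors] at hd
    by_cases h : p ∣ d
    · obtain ⟨m, rfl⟩ := h
      have hm : ¬ p ∣ m := by
        rintro ⟨l, rfl⟩
        apply hp2
        refine dvd_trans ⟨l, ?_⟩ hd.1
        ring
      simp only [dvd_mul_right, if_true, Nat.mul_div_cancel_left m hpp, if_neg hm]
      ring
    · simp only [if_neg h, dvd_mul_left, if_true, Nat.mul_div_cancel d hpp]

/-- the decomposition of a number without inert prime factors of exponent one -/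
theorem decomp (D : ℤ) (n : ℕ) : Odd n →
    (∀ p : ℕ, p.Prime → p ∣ n → ¬ p ^ 2 ∣ n → jacobiSym D p ≠ -1) →
    ∃ a b u v : ℕ, n = a * (b * (u ^ 2 * v ^ 3)) ∧ Squarefree a ∧
      (∀ p : ℕ, p.Prime → p ∣ a → p ≠ 2 ∧ jacobiSym D p = 1) ∧ b ∣ D.natAbs := by
  induction n using Nat.recOnPosPrimePosCoprime with
  | zero => intro h; exact absurd h (by decide)
  | one =>
    intro _ _
    refine ⟨1, 1, 1, 1, by norm_num, squarefree_one, ?_, one_dvd _⟩
    intro p hp hp1
    exact absurd (Nat.dvd_one.1 hp1) hp.ne_one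
  | prime_pow p k hp hk =>
    intro hodd hG
    rcases Nat.lt_or_ge k 2 with h | h
    · have hk1 : k = 1 := by omega
      subst hk1
      rw [pow_one] at hodd hG ⊢
      have hp2 : p ≠ 2 := by
        rintro rfl
        exact absurd hodd (by decide)
      have hne : jacobiSym D p ≠ -1 := by
        refine hG p hp dvd_rfl fun hcon => ?_
        have := Nat.le_of_dvd hp.pos hcon
        have h3 : p * 1 < p * p := Nat.mul_lt_mul_of_pos_left hp.one_lt hp.pos
        nlinarith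
      rcases jacobiSym.trichotomy D p with h0 | h1 | h1
      · refine ⟨1, p, 1, 1, by ring, squarefree_one, ?_, ?_⟩
        · intro q hq hq1
          exact absurd (Nat.dvd_one.1 hq1) hq.ne_one
        · have : NeZero p := ⟨hp.ne_zero⟩
          rw [jacobiSym.eq_zero_iff_not_coprime] at h0
          have h4 : D.natAbs.gcd p ≠ 1 := by
            intro hcon
            apply h0
            rw [Int.gcd_def, Int.natAbs_natCast]
            exact hcon
          by_contra hcon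
          apply h4
          exact Nat.Coprime.symm ((hp.coprime_iff_not_dvd).2 hcon)
      · refine ⟨p, 1, 1, 1, by ring, hp.squarefree, ?_, one_dvd _⟩
        intro q hq hqp
        rw [(Nat.prime_dvd_prime_iff_eq hq hp).1 hqp]
        exact ⟨hp2, h1⟩
      · exact absurd h1 hne
    · rcases Nat.even_or_odd' k with ⟨c, hc | hc⟩
      · refine ⟨1, 1, p ^ c, 1, ?_, squarefree_one, ?_, one_dvd _⟩
        · rw [hc]; ring
        · intro q hq hq1
          exact absurd (Nat.dvd_one.1 hq1) hq.ne_one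
      · refine ⟨1, 1, p ^ (c - 1), p, ?_, squarefree_one, ?_, one_dvd _⟩
        · obtain ⟨e, rfl⟩ : ∃ e, c = e + 1 := ⟨c - 1, by omega⟩
          rw [hc, Nat.add_sub_cancel]
          ring
        · intro q hq hq1
          exact absurd (Nat.dvd_one.1 hq1) hq.ne_one
  | coprime n₁ n₂ hn₁ hn₂ hcop ih₁ ih₂ =>
    intro hodd hG
    rw [Nat.odd_mul] at hodd
    obtain ⟨a₁, b₁, u₁, v₁, e₁, s₁, j₁, d₁⟩ := ih₁ hodd.1 (by
      intro p hp hpn hp2
      refine hG p hp (hpn.mul_right _) fun hcon => hp2 ?_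
      have hc : Nat.Coprime (p ^ 2) n₂ := (Nat.Coprime.coprime_dvd_left hpn hcop).pow_left 2
      exact hc.dvd_of_dvd_mul_right hcon)
    obtain ⟨a₂, b₂, u₂, v₂, e₂, s₂, j₂, d₂⟩ := ih₂ hodd.2 (by
      intro p hp hpn hp2
      refine hG p hp (hpn.mul_left _) fun hcon => hp2 ?_
      have hc : Nat.Coprime (p ^ 2) n₁ :=
        (Nat.Coprime.coprime_dvd_left hpn hcop.symm).pow_left 2
      exact hc.dvd_of_dvd_mul_left hcon)
    have ha₁ : a₁ ∣ n₁ := ⟨_, e₁⟩
    have ha₂ : a₂ ∣ n₂ := ⟨_, e₂⟩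
    have hb₁ : b₁ ∣ n₁ := ⟨a₁ * (u₁ ^ 2 * v₁ ^ 3), by rw [e₁]; ring⟩
    have hb₂ : b₂ ∣ n₂ := ⟨a₂ * (u₂ ^ 2 * v₂ ^ 3), by rw [e₂]; ring⟩
    refine ⟨a₁ * a₂, b₁ * b₂, u₁ * u₂, v₁ * v₂, ?_, ?_, ?_, ?_⟩
    · conv_lhs => rw [e₁, e₂]
      ring
    · exact (Nat.squarefree_mul (Nat.Coprime.coprime_dvd_left ha₁
        (Nat.Coprime.coprime_dvd_right ha₂ hcop))).2 ⟨s₁, s₂⟩
    · intro p hp hpa
      rcases (hp.dvd_mul).1 hpa with h | h
      · exact j₁ p hp h
      · exact j₂ p hp h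
    · exact Nat.Coprime.mul_dvd_of_dvd_of_dvd (Nat.Coprime.coprime_dvd_left hb₁
        (Nat.Coprime.coprime_dvd_right hb₂ hcop)) d₁ d₂

/-- `1 / (u √u)` -/
noncomputable def psi (u : ℕ) : ℝ := 1 / ((u : ℝ) * √(u : ℝ))

theorem psi_nonneg (u : ℕ) : 0 ≤ psi u := by
  unfold psi
  positivity

theorem sum_psi (N : ℕ) : ∑ u ∈ Icc 1 N, psi u ≤ 3 := by
  have key : ∀ N : ℕ, 1 ≤ N → ∑ u ∈ Icc 1 N, psi u ≤ 3 - 2 / √(N : ℝ) := by
    intro N hN
    induction N, hN using Nat.le_induction with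
    | base => simp [psi]; norm_num
    | succ N hN ih =>
      rw [Finset.sum_Icc_succ_top (by omega)]
      have hNpos : (0 : ℝ) < N := by exact_mod_cast hN
      set s := √(N : ℝ) with hs
      set t := √((N + 1 : ℕ) : ℝ) with ht
      have hs2 : s ^ 2 = N := Real.sq_sqrt hNpos.le
      have ht2 : t ^ 2 = N + 1 := by
        rw [ht, Real.sq_sqrt (by positivity)]; push_cast; ring
      have hspos : 0 < s := Real.sqrt_pos.2 hNpos
      have htpos : 0 < t := Real.sqrt_pos.2 (by positivity)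
      have hst : s ≤ t := Real.sqrt_le_sqrt (by push_cast; linarith)
      have hpsi : psi (N + 1) = 1 / t ^ 3 := by
        unfold psi
        rw [← ht]
        congr 1
        push_cast
        rw [← ht2]
        ring
      rw [hpsi]
      have h1 : 1 / t ^ 3 ≤ 2 / s - 2 / t := by
        have h2 : 2 / s - 2 / t = 2 / (s * t * (t + s)) := by
          have h3 : t - s = 1 / (t + s) := by
            field_simp
            nlinarith
          have h4 : 2 / s - 2 / t = 2 * (t - s) / (s * t) := by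
            field_simp
          rw [h4, h3]
          field_simp
        rw [h2, div_le_div_iff₀ (by positivity) (by positivity)]
        have h5 : s * (t + s) ≤ 2 * t ^ 2 := by nlinarith
        calc 1 * (s * t * (t + s)) = t * (s * (t + s)) := by ring
          _ ≤ t * (2 * t ^ 2) := mul_le_mul_of_nonneg_left h5 htpos.le
          _ = 2 * t ^ 3 := by ring
      linarith
  rcases Nat.eq_zero_or_pos N with h | h
  · subst h
    simp
  · have := key N h
    have h2 : 0 ≤ 2 / √(N : ℝ) := by positivity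
    linarith

/-- the numbers `a c ≤ N` with `a` in `M` -/
theorem card_le_div (M : Finset ℕ) (hM : ∀ a ∈ M, 1 ≤ a) (c N : ℕ) (hc : 1 ≤ c) :
    (((M.filter fun a => a * c ≤ N).image fun a => a * c).card : ℝ) ≤ N / c := by
  have h1 : (M.filter fun a => a * c ≤ N) ⊆ Icc 1 (N / c) := by
    intro a ha
    rw [mem_filter] at ha
    rw [mem_Icc]
    exact ⟨hM a ha.1, (Nat.le_div_iff_mul_le (by omega)).2 ha.2⟩
  have h2 : ((M.filter fun a => a * c ≤ N).image fun a => a * c).card ≤ N / c := by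
    refine card_image_le.trans ((card_le_card h1).trans ?_)
    rw [Nat.card_Icc, Nat.add_sub_cancel]
  calc (((M.filter fun a => a * c ≤ N).image fun a => a * c).card : ℝ) ≤ ((N / c : ℕ) : ℝ) := by
        exact_mod_cast h2
    _ ≤ N / c := Nat.cast_div_le

end Dec

open Dec in
theorem dec : S_DEC := by
  classical
  intro D hD N B T hB hT
  have hD' : D.natAbs ≠ 0 := Int.natAbs_ne_zero.2 hD
  rcases Nat.eq_zero_or_pos N with hN | hN
  · subst hN
    have hM : MM D 0 = ∅ := by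
      unfold MM
      simp
    rw [hM]
    simp
  have hT1 : 1 ≤ T := by
    have := hT 1 (mem_Icc.2 ⟨le_rfl, hN⟩)
    simpa using this
  set M := MM D N with hMdef
  have hMmem : ∀ a, a ∈ M ↔ (1 ≤ a ∧ a ≤ N) ∧ Squarefree a ∧
      ∀ p : ℕ, p.Prime → p ∣ a → p ≠ 2 ∧ jacobiSym D p = 1 := by
    intro a
    rw [hMdef]
    unfold MM
    rw [mem_filter, mem_Icc]
  set G := (Icc 1 N).filter (fun n => Odd n ∧
    ∀ p : ℕ, p.Prime → p ∣ n → ¬ p ^ 2 ∣ n → jacobiSym D p ≠ -1) with hG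
  -- Step A
  have hA : ∑ n ∈ (Icc 1 N).filter (fun n => Odd n), ∑ d ∈ n.divisors, ((jacobiSym D d : ℤ) : ℝ) ≤
      T * G.card := by
    have h1 : ∀ n ∈ (Icc 1 N).filter (fun n => Odd n),
        ∑ d ∈ n.divisors, ((jacobiSym D d : ℤ) : ℝ) ≤ if n ∈ G then T else 0 := by
      intro n hn
      rw [mem_filter, mem_Icc] at hn
      by_cases hnG : n ∈ G
      · rw [if_pos hnG]
        refine le_trans ?_ (hT n (mem_Icc.2 hn.1))
        calc ∑ d ∈ n.divisors, ((jacobiSym D d : ℤ) : ℝ) ≤ ∑ _d ∈ n.divisors, (1 : ℝ) := by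
              refine sum_le_sum fun d _ => ?_
              rcases jacobiSym.trichotomy D d with h | h | h <;> rw [h] <;> norm_num
          _ = n.divisors.card := by simp
      · rw [if_neg hnG]
        have h2 : ∃ p : ℕ, p.Prime ∧ p ∣ n ∧ ¬ p ^ 2 ∣ n ∧ jacobiSym D p = -1 := by
          by_contra hcon
          push Not at hcon
          apply hnG
          rw [hG, mem_filter, mem_Icc]
          exact ⟨hn.1, hn.2, hcon⟩
        obtain ⟨p, hp, hpn, hp2, hJ⟩ := h2
        exact (sum_eq_zero D n p (by omega) hp hpn hp2 hJ).le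
    refine (sum_le_sum h1).trans ?_
    rw [← sum_filter, sum_const, nsmul_eq_mul, mul_comm]
    refine mul_le_mul_of_nonneg_left ?_ (by linarith)
    exact_mod_cast card_le_card fun n hn => (mem_filter.1 hn).2
  -- Step B
  set I := D.natAbs.divisors ×ˢ (Icc 1 N ×ˢ Icc 1 N) with hI
  set S : ℕ × (ℕ × ℕ) → Finset ℕ := fun q =>
    (M.filter fun a => a * (q.1 * (q.2.1 ^ 2 * q.2.2 ^ 3)) ≤ N).image
      fun a => a * (q.1 * (q.2.1 ^ 2 * q.2.2 ^ 3)) with hS
  have hGS : G ⊆ I.biUnion S := by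
    intro n hn
    rw [hG, mem_filter, mem_Icc] at hn
    obtain ⟨⟨hn1, hnN⟩, hodd, hpr⟩ := hn
    obtain ⟨a, b, u, v, e, hsq, hj, hb⟩ := decomp D n hodd hpr
    have hn0 : n ≠ 0 := by omega
    have ha0 : a ≠ 0 := by rintro rfl; exact hn0 (by rw [e]; ring)
    have hb0 : b ≠ 0 := by rintro rfl; exact hn0 (by rw [e]; ring)
    have hu0 : u ≠ 0 := by rintro rfl; exact hn0 (by rw [e]; ring)
    have hv0 : v ≠ 0 := by rintro rfl; exact hn0 (by rw [e]; ring)
    have hle : ∀ x : ℕ, x ∣ n → x ≤ N := fun x hx => (Nat.le_of_dvd hn1 hx).trans hnN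
    rw [mem_biUnion]
    refine ⟨(b, (u, v)), ?_, ?_⟩
    · rw [hI, mem_product, mem_product, mem_Icc, mem_Icc, Nat.mem_divisors]
      refine ⟨⟨hb, hD'⟩, ⟨Nat.one_le_iff_ne_zero.2 hu0, hle u ?_⟩,
        ⟨Nat.one_le_iff_ne_zero.2 hv0, hle v ?_⟩⟩
      · exact ⟨a * b * u * v ^ 3, by rw [e]; ring⟩
      · exact ⟨a * b * u ^ 2 * v ^ 2, by rw [e]; ring⟩
    · rw [hS, mem_image]
      refine ⟨a, ?_, e.symm⟩
      rw [mem_filter, hMmem]
      exact ⟨⟨⟨Nat.one_le_iff_ne_zero.2 ha0, hle a ⟨_, e⟩⟩, hsq, hj⟩, e ▸ hnN⟩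
  set β : ℝ := B ^ (1 / 4 : ℝ) with hβ
  have hβpos : 0 < β := Real.rpow_pos_of_pos (by linarith) _
  have hβ4 : β ^ 4 = B := by
    rw [hβ, ← Real.rpow_natCast, ← Real.rpow_mul (by linarith)]
    norm_num
  -- Step C
  set f : ℕ × ℕ → ℝ := fun w => (if ((w.1 ^ 2 * w.2 ^ 3 : ℕ) : ℝ) ≤ B then (M.card : ℝ) else 0) +
    N / β * (psi w.1 * psi w.2) with hf
  have hC : ∀ q ∈ I, ((S q).card : ℝ) ≤ f q.2 := by
    rintro ⟨b, u, v⟩ hq
    simp only [hf]
    rw [hI, mem_product, mem_product, mem_Icc, mem_Icc, Nat.mem_divisors] at hq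
    obtain ⟨⟨hb, -⟩, ⟨hu, -⟩, ⟨hv, -⟩⟩ := hq
    simp only at hb hu hv ⊢
    have hb1 : 1 ≤ b := Nat.one_le_iff_ne_zero.2 fun h0 => hD' (by rw [h0] at hb; exact zero_dvd_iff.1 hb)
    have hw1 : 1 ≤ u ^ 2 * v ^ 3 := Nat.one_le_iff_ne_zero.2 (by positivity)
    split_ifs with h
    · have h1 : ((S (b, (u, v))).card : ℝ) ≤ M.card := by
        exact_mod_cast card_image_le.trans (card_le_card (filter_subset _ _))
      have h2 : 0 ≤ N / β * (psi u * psi v) := by
        have := psi_nonneg u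
        have := psi_nonneg v
        positivity
      linarith
    · push Not at h
      rw [zero_add]
      have h1 := card_le_div M (fun a ha => ((hMmem a).1 ha).1.1) (b * (u ^ 2 * v ^ 3)) N
        (Nat.one_le_iff_ne_zero.2 (by positivity))
      refine h1.trans ?_
      have hur : (1 : ℝ) ≤ u := by exact_mod_cast hu
      have hvr : (1 : ℝ) ≤ v := by exact_mod_cast hv
      have hbr : (1 : ℝ) ≤ b := by exact_mod_cast hb1
      have hsu : √(u : ℝ) ^ 2 = u := Real.sq_sqrt (by linarith)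
      have hsv : √(v : ℝ) ^ 2 = v := Real.sq_sqrt (by linarith)
      have hsup : 0 < √(u : ℝ) := Real.sqrt_pos.2 (by linarith)
      have hsvp : 0 < √(v : ℝ) := Real.sqrt_pos.2 (by linarith)
      have hkey : β * ((u * √(u : ℝ)) * (v * √(v : ℝ))) ≤ b * ((u : ℝ) ^ 2 * v ^ 3) := by
        have h3 : β * ((u * √(u : ℝ)) * (v * √(v : ℝ))) ≤ (u : ℝ) ^ 2 * v ^ 3 := by
          refine le_of_pow_le_pow_left₀ (n := 4) (by norm_num) (by positivity) ?_
          have h4 : (β * ((u * √(u : ℝ)) * (v * √(v : ℝ)))) ^ 4 = B * ((u : ℝ) ^ 6 * v ^ 6) := by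
            calc (β * ((u * √(u : ℝ)) * (v * √(v : ℝ)))) ^ 4
                = β ^ 4 * ((u : ℝ) ^ 4 * (√(u : ℝ) ^ 2) ^ 2 * ((v : ℝ) ^ 4 * (√(v : ℝ) ^ 2) ^ 2)) := by
                  ring
              _ = B * ((u : ℝ) ^ 6 * v ^ 6) := by rw [hβ4, hsu, hsv]; ring
          rw [h4]
          have h5 : B ≤ (u : ℝ) ^ 2 * v ^ 3 := by
            have := h.le
            push_cast at this
            exact this
          have h6 : (u : ℝ) ^ 6 * v ^ 6 ≤ (u : ℝ) ^ 6 * v ^ 9 :=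
            mul_le_mul_of_nonneg_left (pow_le_pow_right₀ hvr (by norm_num)) (by positivity)
          calc B * ((u : ℝ) ^ 6 * v ^ 6) ≤ ((u : ℝ) ^ 2 * v ^ 3) * ((u : ℝ) ^ 6 * v ^ 9) :=
                mul_le_mul h5 h6 (by positivity) (by positivity)
            _ = ((u : ℝ) ^ 2 * v ^ 3) ^ 4 := by ring
        calc β * ((u * √(u : ℝ)) * (v * √(v : ℝ))) ≤ 1 * ((u : ℝ) ^ 2 * v ^ 3) := by
              rw [one_mul]; exact h3
          _ ≤ b * ((u : ℝ) ^ 2 * v ^ 3) := mul_le_mul_of_nonneg_right hbr (by positivity)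
      have h7 : (N : ℝ) / β * (psi u * psi v) =
          N / (β * ((u * √(u : ℝ)) * (v * √(v : ℝ)))) := by
        unfold psi
        field_simp
      rw [h7]
      push_cast
      exact div_le_div_of_nonneg_left (Nat.cast_nonneg N) (by positivity) hkey
  -- Step D
  have hD1 : (G.card : ℝ) ≤ D.natAbs.divisors.card * (B ^ 2 * M.card + 10 * N / β) := by
    have h1 : (G.card : ℝ) ≤ ∑ q ∈ I, ((S q).card : ℝ) := by
      have : G.card ≤ ∑ q ∈ I, (S q).card := (card_le_card hGS).trans card_biUnion_le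
      exact_mod_cast this
    refine h1.trans ((sum_le_sum hC).trans ?_)
    rw [hI, sum_product]
    simp only
    rw [sum_const, nsmul_eq_mul]
    refine mul_le_mul_of_nonneg_left ?_ (Nat.cast_nonneg _)
    rw [hf, sum_add_distrib, ← mul_sum]
    refine add_le_add ?_ ?_
    · rw [← sum_filter, sum_const, nsmul_eq_mul]
      refine mul_le_mul_of_nonneg_right ?_ (Nat.cast_nonneg _)
      have h2 : (Icc 1 N ×ˢ Icc 1 N).filter (fun q : ℕ × ℕ => ((q.1 ^ 2 * q.2 ^ 3 : ℕ) : ℝ) ≤ B) ⊆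
          Icc 1 ⌊B⌋₊ ×ˢ Icc 1 ⌊B⌋₊ := by
        rintro ⟨u, v⟩ hq
        rw [mem_filter, mem_product, mem_Icc, mem_Icc] at hq
        obtain ⟨⟨⟨hu, -⟩, ⟨hv, -⟩⟩, hq⟩ := hq
        simp only at hu hv hq
        have hq' : u ^ 2 * v ^ 3 ≤ ⌊B⌋₊ := Nat.le_floor hq
        rw [mem_product, mem_Icc, mem_Icc]
        have h3 : 1 ≤ v ^ 3 := Nat.one_le_iff_ne_zero.2 (by positivity)
        have h4 : 1 ≤ u ^ 2 := Nat.one_le_iff_ne_zero.2 (by positivity)
        have h5 : u ≤ u ^ 2 := by nlinarith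
        have h6 : v ≤ v ^ 3 := by nlinarith [Nat.one_le_iff_ne_zero.2 (show v ^ 2 ≠ 0 by positivity)]
        exact ⟨⟨hu, by nlinarith⟩, ⟨hv, by nlinarith⟩⟩
      have h7 := card_le_card h2
      rw [card_product, Nat.card_Icc, Nat.add_sub_cancel] at h7
      have h8 : (⌊B⌋₊ : ℝ) ≤ B := Nat.floor_le (by linarith)
      calc (((Icc 1 N ×ˢ Icc 1 N).filter
            (fun q : ℕ × ℕ => ((q.1 ^ 2 * q.2 ^ 3 : ℕ) : ℝ) ≤ B)).card : ℝ)
          ≤ (⌊B⌋₊ : ℝ) * ⌊B⌋₊ := by exact_mod_cast h7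
        _ ≤ B * B := mul_le_mul h8 h8 (Nat.cast_nonneg _) (by linarith)
        _ = B ^ 2 := by ring
    · rw [sum_product, ← sum_mul_sum]
      have h9 := sum_psi N
      have h10 : 0 ≤ ∑ u ∈ Icc 1 N, psi u := sum_nonneg fun u _ => psi_nonneg u
      have h11 : (∑ u ∈ Icc 1 N, psi u) * (∑ u ∈ Icc 1 N, psi u) ≤ 10 := by nlinarith
      calc (N : ℝ) / β * ((∑ u ∈ Icc 1 N, psi u) * (∑ u ∈ Icc 1 N, psi u)) ≤ N / β * 10 :=
            mul_le_mul_of_nonneg_left h11 (by positivity)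
        _ = 10 * N / β := by ring
  calc ∑ n ∈ (Icc 1 N).filter (fun n => Odd n), ∑ d ∈ n.divisors, ((jacobiSym D d : ℤ) : ℝ)
      ≤ T * G.card := hA
    _ ≤ T * (D.natAbs.divisors.card * (B ^ 2 * M.card + 10 * N / β)) :=
        mul_le_mul_of_nonneg_left hD1 (by linarith)
    _ = T * D.natAbs.divisors.card * (B ^ 2 * M.card + 10 * N / β) := by ring

end Pool.Agent.H568.GR
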