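import Pool.Agent.H568.GR.Stm2

/-!
# Project GR, part GR-FIN: the final theorem from the pieces
-/

set_option autoImplicit false

namespace Pool.Agent.H568.GR

open Finset NumberField

namespace FinAux

lemma tor_le (K : Type) [Field K] [NumberField K] (l : ℕ) :
    tor K l ≤ Nat.card (ClassGroup (𝓞 K)) := by
  unfold tor
  exact Finite.card_subtype_le _

lemma one_le_discr (K : Type) [Field K] [NumberField K] : 1 ≤ |(discr K : ℝ)| := by
  have h : 1 ≤ |discr K| := Int.one_le_abs (discr_ne_zero K)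
  exact_mod_cast h

/-- the size of `N` -/
lemma size_N {l : ℕ} (hl : 1 ≤ l) {θ ε1 P : ℝ} (hθ : θ = 1 / (2 * l))
    (hP : 1 ≤ P) (hbig : 4 * Real.exp (l + 1) < P ^ ((l : ℝ) * ε1 / 2)) :
    4 * (((⌊P ^ (θ - ε1 / 4)⌋₊ : ℕ) : ℝ) ^ 2) ^ l * Real.exp (l + 1) < P := by
  have hP0 : 0 < P := by linarith
  have hlR : (1 : ℝ) ≤ l := by exact_mod_cast hl
  have h1 : ((⌊P ^ (θ - ε1 / 4)⌋₊ : ℕ) : ℝ) ≤ P ^ (θ - ε1 / 4) :=
    Nat.floor_le (Real.rpow_nonneg hP0.le _)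
  have h2 : (((⌊P ^ (θ - ε1 / 4)⌋₊ : ℕ) : ℝ) ^ 2) ^ l ≤ ((P ^ (θ - ε1 / 4)) ^ 2) ^ l := by
    gcongr
  have h3 : ((P ^ (θ - ε1 / 4)) ^ 2) ^ l = P ^ (1 - (l : ℝ) * ε1 / 2) := by
    rw [← pow_mul, ← Real.rpow_natCast, ← Real.rpow_mul hP0.le]
    congr 1
    rw [hθ]
    push_cast
    field_simp
    ring
  rw [h3] at h2
  have h4 : P ^ (1 - (l : ℝ) * ε1 / 2) * P ^ ((l : ℝ) * ε1 / 2) = P := by
    rw [← Real.rpow_add hP0]
    rw [show (1 - (l : ℝ) * ε1 / 2) + (l : ℝ) * ε1 / 2 = 1 by ring, Real.rpow_one]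
  have h5 : 0 < P ^ (1 - (l : ℝ) * ε1 / 2) := Real.rpow_pos_of_pos hP0 _
  calc 4 * (((⌊P ^ (θ - ε1 / 4)⌋₊ : ℕ) : ℝ) ^ 2) ^ l * Real.exp (l + 1)
      ≤ 4 * P ^ (1 - (l : ℝ) * ε1 / 2) * Real.exp (l + 1) := by gcongr
    _ = P ^ (1 - (l : ℝ) * ε1 / 2) * (4 * Real.exp (l + 1)) := by ring
    _ < P ^ (1 - (l : ℝ) * ε1 / 2) * P ^ ((l : ℝ) * ε1 / 2) :=
        mul_lt_mul_of_pos_left hbig h5
    _ = P := h4

/-- the exponents -/
lemma expo {θ ε ε1 P C M t : ℝ} (hε1 : 0 < ε1) (hε : ε1 ≤ ε) (hP : 1 ≤ P) (hC : 0 ≤ C)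
    (ht : 0 ≤ t) (hM : P ^ (θ - ε1 / 2) ≤ M) (h : t * M ≤ C * √P * Real.log P) :
    t ≤ C * (2 / ε1) * P ^ (1 / 2 - θ + ε) := by
  have hP0 : 0 < P := by linarith
  have h1 : 0 < P ^ (θ - ε1 / 2) := Real.rpow_pos_of_pos hP0 _
  have h2 : t * P ^ (θ - ε1 / 2) ≤ C * √P * Real.log P :=
    (mul_le_mul_of_nonneg_left hM ht).trans h
  have h3 : Real.log P ≤ P ^ (ε1 / 2) / (ε1 / 2) := Real.log_le_rpow_div hP0.le (by linarith)
  have h4 : t * P ^ (θ - ε1 / 2) ≤ C * P ^ (1 / 2 : ℝ) * (P ^ (ε1 / 2) / (ε1 / 2)) := by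
    refine h2.trans ?_
    rw [Real.sqrt_eq_rpow]
    gcongr
  have h5 : C * P ^ (1 / 2 : ℝ) * (P ^ (ε1 / 2) / (ε1 / 2)) =
      (C * (2 / ε1) * P ^ (1 / 2 - θ + ε1)) * P ^ (θ - ε1 / 2) := by
    have e1 : P ^ (1 / 2 - θ + ε1) * P ^ (θ - ε1 / 2) = P ^ (1 / 2 : ℝ) * P ^ (ε1 / 2) := by
      rw [← Real.rpow_add hP0, ← Real.rpow_add hP0]
      congr 1
      ring
    calc C * P ^ (1 / 2 : ℝ) * (P ^ (ε1 / 2) / (ε1 / 2))
        = C * (2 / ε1) * (P ^ (1 / 2 : ℝ) * P ^ (ε1 / 2)) := by field_simp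
      _ = C * (2 / ε1) * (P ^ (1 / 2 - θ + ε1) * P ^ (θ - ε1 / 2)) := by rw [e1]
      _ = _ := by ring
  rw [h5] at h4
  have h6 : t ≤ C * (2 / ε1) * P ^ (1 / 2 - θ + ε1) := le_of_mul_le_mul_right h4 h1
  refine h6.trans ?_
  refine mul_le_mul_of_nonneg_left ?_ (by positivity)
  exact Real.rpow_le_rpow_of_exponent_le hP (by linarith)

end FinAux

open FinAux in
theorem fin : S_NEG → S_POS → S_MNB → S_CNB → S_FUND → S_FIN := by
  intro hNEG hPOS hMNB hCNB hFUND l ε hl hε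
  obtain ⟨C1, hC1, hPOS⟩ := hPOS
  obtain ⟨C2, hC2, hCNB⟩ := hCNB
  have hlR : (1 : ℝ) ≤ l := by exact_mod_cast hl
  obtain ⟨θ, hθ⟩ : ∃ θ : ℝ, θ = 1 / (2 * l) := ⟨_, rfl⟩
  have hθ0 : 0 < θ := by rw [hθ]; positivity
  have hθ1 : θ ≤ 1 / 2 := by
    rw [hθ]
    apply one_div_le_one_div_of_le (by norm_num)
    linarith
  obtain ⟨ε1, hε1d⟩ : ∃ ε1 : ℝ, ε1 = min ε (θ / 8) := ⟨_, rfl⟩
  have hε1 : 0 < ε1 := by rw [hε1d]; exact lt_min hε (by linarith)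
  have hε1ε : ε1 ≤ ε := by rw [hε1d]; exact min_le_left _ _
  have hε1θ : ε1 ≤ θ / 8 := by rw [hε1d]; exact min_le_right _ _
  obtain ⟨P0, hMNB⟩ := hMNB θ ε1 hε1 hε1θ hθ1
  obtain ⟨P1, hP1⟩ : ∃ P1 : ℝ, P1 = (4 * Real.exp (l + 1)) ^ (2 / ((l : ℝ) * ε1)) := ⟨_, rfl⟩
  obtain ⟨P2, hP2⟩ : ∃ P2 : ℝ, P2 = max (max P0 P1) 1 := ⟨_, rfl⟩
  have hP2a : P0 ≤ P2 := by rw [hP2]; exact (le_max_left _ _).trans (le_max_left _ _)
  have hP2b : P1 ≤ P2 := by rw [hP2]; exact (le_max_right _ _).trans (le_max_left _ _)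
  have hP2c : 1 ≤ P2 := by rw [hP2]; exact le_max_right _ _
  have hlog2 : 0 ≤ Real.log P2 := Real.log_nonneg hP2c
  refine ⟨max C1 C2 * (2 / ε1) + C2 * √P2 * Real.log P2, ?_⟩
  intro K _ _ hK hsm
  rw [← hθ] at hsm
  rw [← hθ]
  change (tor K l : ℝ) ≤ _
  have hP := one_le_discr K
  have hCmax : 0 ≤ max C1 C2 := hC1.le.trans (le_max_left _ _)
  have hpow1 : 1 ≤ |(discr K : ℝ)| ^ (1 / 2 - θ + ε) :=
    Real.one_le_rpow hP (by linarith)
  have hcn := hCNB K hK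
  have htor : (tor K l : ℝ) ≤ Nat.card (ClassGroup (𝓞 K)) := by exact_mod_cast tor_le K l
  by_cases hbig : |(discr K : ℝ)| ≤ P2
  · -- small discriminants
    have h1 : (tor K l : ℝ) ≤ C2 * √P2 * Real.log P2 := by
      refine htor.trans (hcn.trans ?_)
      have h2 : √|(discr K : ℝ)| ≤ √P2 := Real.sqrt_le_sqrt hbig
      have h3 : Real.log |(discr K : ℝ)| ≤ Real.log P2 :=
        Real.log_le_log (by linarith) hbig
      have h4 : 0 ≤ Real.log |(discr K : ℝ)| := Real.log_nonneg hP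
      gcongr
    have h5 : 0 ≤ C2 * √P2 * Real.log P2 := by positivity
    have h6 : 0 ≤ max C1 C2 * (2 / ε1) := by positivity
    calc (tor K l : ℝ) ≤ C2 * √P2 * Real.log P2 := h1
      _ ≤ max C1 C2 * (2 / ε1) + C2 * √P2 * Real.log P2 := by linarith
      _ = (max C1 C2 * (2 / ε1) + C2 * √P2 * Real.log P2) * 1 := by ring
      _ ≤ _ := mul_le_mul_of_nonneg_left hpow1 (by linarith)
  · push Not at hbig
    obtain ⟨a, q, ha, hqo, hqs, hq⟩ := hFUND K hK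
    have hM := hMNB (discr K) a q (hP2a.trans hbig.le) ha hqo hqs hq (by
      intro p hp hpq
      have h1 : (p : ℤ) ∣ discr K := by
        rw [Int.natCast_dvd, hq]
        exact Dvd.dvd.mul_left hpq _
      refine (hsm p hp h1).trans ?_
      exact Real.rpow_le_rpow_of_exponent_le hP (by linarith))
    have hbase : (1 : ℝ) ≤ 4 * Real.exp (l + 1) := by
      have := Real.add_one_le_exp ((l : ℝ) + 1)
      linarith
    have hle : 0 < (l : ℝ) * ε1 / 2 := by positivity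
    have hexp : 4 * Real.exp (l + 1) < |(discr K : ℝ)| ^ ((l : ℝ) * ε1 / 2) := by
      have h1 : P1 < |(discr K : ℝ)| := hP2b.trans_lt hbig
      have h2 : P1 ^ ((l : ℝ) * ε1 / 2) < |(discr K : ℝ)| ^ ((l : ℝ) * ε1 / 2) :=
        Real.rpow_lt_rpow (by rw [hP1]; positivity) h1 hle
      have h3 : P1 ^ ((l : ℝ) * ε1 / 2) = 4 * Real.exp (l + 1) := by
        rw [hP1, ← Real.rpow_mul (by positivity)]
        rw [show 2 / ((l : ℝ) * ε1) * ((l : ℝ) * ε1 / 2) = 1 by field_simp, Real.rpow_one]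
      rwa [h3] at h2
    have hN := size_N hl hθ hP hexp
    have hkey : (tor K l : ℝ) * (MM (discr K) ⌊|(discr K : ℝ)| ^ (θ - ε1 / 4)⌋₊).card ≤
        max C1 C2 * √|(discr K : ℝ)| * Real.log |(discr K : ℝ)| := by
      have hnn : 0 ≤ √|(discr K : ℝ)| * Real.log |(discr K : ℝ)| :=
        mul_nonneg (Real.sqrt_nonneg _) (Real.log_nonneg hP)
      rcases lt_or_gt_of_ne (discr_ne_zero K) with hneg | hpos
      · have h1 : 4 * (⌊|(discr K : ℝ)| ^ (θ - ε1 / 4)⌋₊ ^ 2) ^ l < (discr K).natAbs := by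
          have h2 : 4 * (((⌊|(discr K : ℝ)| ^ (θ - ε1 / 4)⌋₊ : ℕ) : ℝ) ^ 2) ^ l <
              |(discr K : ℝ)| := by
            refine lt_of_le_of_lt ?_ hN
            refine le_mul_of_one_le_right (by positivity) ?_
            exact Real.one_le_exp (by positivity)
          have h3 : |(discr K : ℝ)| = (((discr K).natAbs : ℕ) : ℝ) := by
            rw [Nat.cast_natAbs, Int.cast_abs]
          generalize ⌊|(discr K : ℝ)| ^ (θ - ε1 / 4)⌋₊ = N at h2 ⊢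
          rw [h3] at h2
          exact_mod_cast h2
        have h4 := hNEG K hK hneg l _ hl h1
        have h5 : (tor K l : ℝ) * (MM (discr K) ⌊|(discr K : ℝ)| ^ (θ - ε1 / 4)⌋₊).card ≤
            Nat.card (ClassGroup (𝓞 K)) := by exact_mod_cast h4
        refine h5.trans (hcn.trans ?_)
        rw [mul_assoc, mul_assoc]
        exact mul_le_mul_of_nonneg_right (le_max_right _ _) hnn
      · have h1 := hPOS K hK hpos l _ hl hN
        refine h1.trans ?_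
        rw [mul_assoc, mul_assoc]
        exact mul_le_mul_of_nonneg_right (le_max_left _ _) hnn
    have hfinal := expo (t := (tor K l : ℝ)) hε1 hε1ε hP hCmax (by positivity) hM hkey
    refine hfinal.trans ?_
    refine mul_le_mul_of_nonneg_right ?_ (by positivity)
    have h5 : 0 ≤ C2 * √P2 * Real.log P2 := by positivity
    linarith

end Pool.Agent.H568.GR

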