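import Pool.Agent.H568.GR.Stm2
import Pool.Agent.TH847.LS.Quad

/-!
# FUND: the shape of the discriminant of a quadratic field
-/

set_option autoImplicit false

namespace Pool.Agent.H568.GR

open Finset NumberField

namespace Fund

theorem sq_cases {m a : ℕ} (ha : Squarefree a) (h : m ^ 2 ∣ 4 * a) : m = 1 ∨ m = 2 := by
  rcases Nat.even_or_odd' m with ⟨c, hc | hc⟩
  · right
    subst hc
    have h1 : c ^ 2 ∣ a := by
      have h2 : 4 * c ^ 2 ∣ 4 * a := by
        have e : (2 * c) ^ 2 = 4 * c ^ 2 := by ring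
        rwa [e] at h
      exact (Nat.mul_dvd_mul_iff_left (by norm_num)).1 h2
    have h2 := ha c (by rwa [← sq])
    rw [Nat.isUnit_iff] at h2
    rw [h2]
  · left
    have hcop : Nat.Coprime (m ^ 2) 4 := by
      have h1 : Nat.Coprime m 2 := by
        rw [Nat.coprime_two_right, Nat.odd_iff]
        omega
      have h2 := Nat.Coprime.pow 2 2 h1
      simpa using h2
    have h1 : m ^ 2 ∣ a := hcop.dvd_of_dvd_mul_left h
    have h2 := ha m (by rwa [← sq])
    rwa [Nat.isUnit_iff] at h2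

theorem shape {a : ℕ} (ha : Squarefree a) : ∃ e q : ℕ, e ≤ 1 ∧ Odd q ∧ Squarefree q ∧
    a = 2 ^ e * q := by
  rcases Nat.even_or_odd' a with ⟨c, hc | hc⟩
  · refine ⟨1, c, le_rfl, ?_, ?_, by rw [hc]; ring⟩
    · by_contra hodd
      rw [Nat.not_odd_iff_even] at hodd
      obtain ⟨d, hd⟩ := hodd
      have h1 := ha 2 ⟨d, by omega⟩
      rw [Nat.isUnit_iff] at h1
      omega
    · exact ha.squarefree_of_dvd ⟨2, by rw [hc]; ring⟩
  · exact ⟨0, a, by norm_num, by rw [Nat.odd_iff]; omega, ha, by ring⟩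

end Fund

theorem fund : S_FUND := by
  intro K _ _ h2
  obtain ⟨x, t, m, hm, hx, ht, hts⟩ := Pool.Agent.TH847.LS.exists_sqrt (K := K) h2
  obtain ⟨a, b, hab, ha⟩ := Nat.sq_mul_squarefree t.natAbs
  have ht0 : t ≠ 0 := by
    rintro rfl
    exact hts ⟨0, by simp⟩
  have hb0 : b ≠ 0 := by
    rintro rfl
    apply ht0
    rw [← Int.natAbs_eq_zero, ← hab]
    simp
  -- the squarefree integer
  obtain ⟨d, hd, htd⟩ : ∃ d : ℤ, d.natAbs = a ∧ t = (b : ℤ) ^ 2 * d := by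
    rcases Int.natAbs_eq t with h | h
    · exact ⟨a, by simp, by rw [h, ← hab]; push_cast; ring⟩
    · exact ⟨-a, by simp, by rw [h, ← hab]; push_cast; ring⟩
  have hdns : ¬ IsSquare d := by
    rintro ⟨s, hs⟩
    exact hts ⟨b * s, by rw [htd, hs]; ring⟩
  have hbK : ((b : ℕ) : K) ≠ 0 := Nat.cast_ne_zero.2 hb0
  set y : K := x / b with hy
  have hy2 : y ^ 2 = (d : K) := by
    rw [hy, div_pow, hx, ← ht, htd]
    push_cast
    field_simp
  have hyi : IsIntegral ℤ y := by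
    apply IsIntegral.of_pow (n := 2) (by norm_num)
    rw [hy2]
    exact isIntegral_algebraMap (x := d)
  set β : 𝓞 K := ⟨y, hyi⟩ with hβ
  have hβ2 : β ^ 2 = (d : 𝓞 K) := by
    apply RingOfIntegers.ext
    show algebraMap (𝓞 K) K (β ^ 2) = algebraMap (𝓞 K) K ((d : ℤ) : 𝓞 K)
    rw [map_pow, map_intCast]
    exact hy2
  have hnot : ∀ n : ℤ, β ≠ (n : 𝓞 K) := by
    intro n hn
    rw [hn] at hβ2
    have : n ^ 2 = d := by
      have h3 : ((n ^ 2 : ℤ) : 𝓞 K) = ((d : ℤ) : 𝓞 K) := by push_cast; exact hβ2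
      exact_mod_cast h3
    exact hdns ⟨n, by rw [← this]; ring⟩
  obtain ⟨u, m', hm', e1, e2⟩ := Pool.Agent.TH847.LS.quad_eq h2 β hnot
  rw [e2] at e1
  have hu : u = 0 := by
    by_contra hu
    have h3 : ((4 * u : ℤ) : 𝓞 K) * β = ((4 * d + u ^ 2 - m' ^ 2 * discr K : ℤ) : 𝓞 K) := by
      push_cast at e1 ⊢
      linear_combination -e1 + 4 * hβ2
    have h4 := congrArg (fun z => z ^ 2) h3
    simp only [mul_pow, hβ2] at h4
    have h5 : (4 * u) ^ 2 * d = (4 * d + u ^ 2 - m' ^ 2 * discr K) ^ 2 := by exact_mod_cast h4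
    have h6 : (4 * u) ^ 2 ∣ (4 * d + u ^ 2 - m' ^ 2 * discr K) ^ 2 := ⟨d, h5.symm⟩
    have h7 : (4 * u) ∣ (4 * d + u ^ 2 - m' ^ 2 * discr K) :=
      (Int.pow_dvd_pow_iff (by norm_num)).1 h6
    obtain ⟨w, hw⟩ := h7
    have h8 : (4 * u) ^ 2 ≠ 0 := by positivity
    have h9 : d = w ^ 2 := by
      apply mul_left_cancel₀ h8
      rw [h5, hw]
      ring
    exact hdns ⟨w, by rw [h9]; ring⟩
  rw [hu] at e1
  have h3 : ((4 * d : ℤ) : 𝓞 K) = ((m' ^ 2 * discr K : ℤ) : 𝓞 K) := by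
    push_cast at e1 ⊢
    linear_combination e1 - 4 * hβ2
  have h4 : 4 * d = m' ^ 2 * discr K := by exact_mod_cast h3
  have h5 : 4 * a = m'.natAbs ^ 2 * (discr K).natAbs := by
    have := congrArg Int.natAbs h4
    rw [Int.natAbs_mul, Int.natAbs_mul, Int.natAbs_pow, hd] at this
    exact this
  obtain ⟨e, q, he, hq, hqs, haq⟩ := Fund.shape ha
  rcases Fund.sq_cases ha ⟨_, h5⟩ with h6 | h6
  · rw [h6] at h5
    refine ⟨e + 2, q, by omega, hq, hqs, ?_⟩
    rw [pow_add]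
    rw [haq] at h5
    linarith
  · rw [h6] at h5
    refine ⟨e, q, by omega, hq, hqs, ?_⟩
    rw [← haq]
    omega

end Pool.Agent.H568.GR
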