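import Pool.Agent.H568.TQ.Neg
import Pool.Agent.H568.GR.Stm

/-!
# Squarefree products of split primes and torsion in class groups of imaginary quadratic fields
-/

set_option autoImplicit false

namespace Pool.Agent.H568.GR

open Finset NumberField
open scoped nonZeroDivisors

namespace Neg

/-- the condition on the primes -/
def Gd (D : ℤ) (p : ℕ) : Prop := p.Prime ∧ p ≠ 2 ∧ jacobiSym D p = 1

theorem mem_MM {D : ℤ} {N n : ℕ} (h : n ∈ MM D N) :
    1 ≤ n ∧ n ≤ N ∧ Squarefree n ∧ ∀ p ∈ n.primeFactors, Gd D p := by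
  classical
  unfold MM at h
  obtain ⟨h0, h3, h4⟩ := Finset.mem_filter.1 h
  obtain ⟨h1, h2⟩ := Finset.mem_Icc.1 h0
  refine ⟨h1, h2, h3, fun p hp => ?_⟩
  have hpp := Nat.prime_of_mem_primeFactors hp
  exact ⟨hpp, h4 p hpp (Nat.dvd_of_mem_primeFactors hp)⟩

end Neg

open Pool.Agent.H568.GR.Neg

/-- Squarefree products of split primes and torsion, imaginary fields. -/
theorem neg : S_NEG := by
  intro K _ _ h2 hd l N hl hlt
  classical
  have hex : ∀ p : ℕ, ∃ P J : Ideal (𝓞 K), Gd (discr K) p → (P ≠ J ∧ P.IsPrime ∧ J.IsPrime ∧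
      Ideal.absNorm P = p ∧ Ideal.absNorm J = p ∧ P * J = Ideal.span {((p : ℕ) : 𝓞 K)}) := by
    intro p
    by_cases hp : Gd (discr K) p
    · obtain ⟨h1, h3, h5⟩ := hp
      obtain ⟨P, hP⟩ := TS.split_exists h2 h1 h3 h5
      obtain ⟨J, a, b, c, d⟩ := Pool.Agent.TH847.LS.cofactor h2 h1 hP
      refine ⟨P, J, fun _ => ⟨?_, ?_, ?_, hP, b, a⟩⟩
      · rintro rfl
        refine TQ.split_ne h2 h1 h3 ?_ hP a
        intro hdv
        have : NeZero p := ⟨h1.ne_zero⟩
        have h6 : jacobiSym (discr K) p = 0 := by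
          rw [jacobiSym.eq_zero_iff_not_coprime]
          intro hc
          have h7 : (p : ℤ) ∣ (Int.gcd (discr K) p : ℤ) := Int.dvd_coe_gcd hdv dvd_rfl
          rw [hc] at h7
          have h8 : p ∣ 1 := by exact_mod_cast h7
          exact h1.one_lt.ne' (Nat.dvd_one.1 h8)
        rw [h6] at h5
        norm_num at h5
      · apply Ideal.isPrime_of_irreducible_absNorm
        rw [hP]
        exact h1
      · apply Ideal.isPrime_of_irreducible_absNorm
        rw [b]
        exact h1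
    · exact ⟨⊥, ⊥, fun h => absurd h hp⟩
  choose P J hPJ using hex
  have hP0 : ∀ p, Gd (discr K) p → P p ≠ ⊥ := by
    intro p hp h0
    have h3 := (hPJ p hp).2.2.2.1
    rw [h0, Ideal.absNorm_bot] at h3
    exact hp.1.ne_zero h3.symm
  have hJ0 : ∀ p, Gd (discr K) p → J p ≠ ⊥ := by
    intro p hp h0
    have h3 := (hPJ p hp).2.2.2.2.1
    rw [h0, Ideal.absNorm_bot] at h3
    exact hp.1.ne_zero h3.symm
  have hprod : ∀ s : {n // n ∈ MM (discr K) N}, ∃ Q : (Ideal (𝓞 K))⁰,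
      (Q : Ideal (𝓞 K)) = ∏ p ∈ s.1.primeFactors, P p := by
    intro s
    refine ⟨⟨∏ p ∈ s.1.primeFactors, P p, mem_nonZeroDivisors_of_ne_zero ?_⟩, rfl⟩
    rw [Finset.prod_ne_zero_iff]
    intro p hp
    exact hP0 p ((mem_MM s.2).2.2.2 p hp)
  have hprod' : ∀ s : {n // n ∈ MM (discr K) N}, ∃ Q : (Ideal (𝓞 K))⁰,
      (Q : Ideal (𝓞 K)) = ∏ p ∈ s.1.primeFactors, J p := by
    intro s
    refine ⟨⟨∏ p ∈ s.1.primeFactors, J p, mem_nonZeroDivisors_of_ne_zero ?_⟩, rfl⟩
    rw [Finset.prod_ne_zero_iff]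
    intro p hp
    exact hJ0 p ((mem_MM s.2).2.2.2 p hp)
  choose Q hQ using hprod
  choose R hR using hprod'
  have hQR : ∀ s, ClassGroup.mk0 (Q s) * ClassGroup.mk0 (R s) = 1 := by
    intro s
    rw [← map_mul, ClassGroup.mk0_eq_one_iff]
    refine ⟨⟨((∏ p ∈ s.1.primeFactors, p : ℕ) : 𝓞 K), ?_⟩⟩
    show (Q s : Ideal (𝓞 K)) * (R s : Ideal (𝓞 K)) =
      Ideal.span {((∏ p ∈ s.1.primeFactors, p : ℕ) : 𝓞 K)}
    rw [hQ, hR, ← Finset.prod_mul_distrib, Nat.cast_prod, ← Ideal.prod_span_singleton]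
    exact Finset.prod_congr rfl fun p hp =>
      (hPJ p ((mem_MM s.2).2.2.2 p hp)).2.2.2.2.2
  -- no collisions
  have hcol : ∀ s t : {n // n ∈ MM (discr K) N},
      ClassGroup.mk0 (Q s) ^ l = ClassGroup.mk0 (Q t) ^ l → s = t := by
    intro s t h3
    obtain ⟨hs1, hsN, hsq, hsS⟩ := mem_MM s.2
    obtain ⟨ht1, htN, htq, htS⟩ := mem_MM t.2
    have h4 : ClassGroup.mk0 (Q t ^ l * R s ^ l) = 1 := by
      rw [map_mul, map_pow, map_pow, ← h3, ← mul_pow, hQR, one_pow]
    rw [ClassGroup.mk0_eq_one_iff] at h4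
    obtain ⟨α, hα⟩ := h4.principal
    have hα' : (∏ p ∈ t.1.primeFactors, P p) ^ l * (∏ p ∈ s.1.primeFactors, J p) ^ l =
        Ideal.span {α} := by
      have : (Q t : Ideal (𝓞 K)) ^ l * (R s : Ideal (𝓞 K)) ^ l = Ideal.span {α} := hα
      rwa [hQ, hR] at this
    have hn1 : Ideal.absNorm (∏ p ∈ t.1.primeFactors, P p) = t.1 := by
      rw [map_prod]
      refine (Finset.prod_congr rfl fun p hp => (hPJ p (htS p hp)).2.2.2.1).trans ?_
      exact Nat.prod_primeFactors_of_squarefree htq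
    have hn2 : Ideal.absNorm (∏ p ∈ s.1.primeFactors, J p) = s.1 := by
      rw [map_prod]
      refine (Finset.prod_congr rfl fun p hp => (hPJ p (hsS p hp)).2.2.2.2.1).trans ?_
      exact Nat.prod_primeFactors_of_squarefree hsq
    have h5 : (Algebra.norm ℤ α).natAbs = t.1 ^ l * s.1 ^ l := by
      rw [← Ideal.absNorm_span_singleton, ← hα', map_mul, map_pow, map_pow, hn1, hn2]
    have h6 : (Algebra.norm ℤ α).natAbs ≤ (N ^ 2) ^ l := by
      rw [h5, ← mul_pow, sq]
      exact Nat.pow_le_pow_left (Nat.mul_le_mul htN hsN) l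
    have h7 : 4 * |Algebra.norm ℤ α| < |discr K| := by
      rw [Int.abs_eq_natAbs, Int.abs_eq_natAbs]
      have : 4 * (Algebra.norm ℤ α).natAbs < (discr K).natAbs := by omega
      exact_mod_cast this
    obtain ⟨z, hz⟩ := Pool.Agent.TH847.LS.int_of_small h2 hd h7
    rw [hz] at hα'
    have h8 := Pool.Agent.W171.LT.ltc K P J s.1.primeFactors t.1.primeFactors (fun p hp => by
      have hpS : Gd (discr K) p := by
        rcases Finset.mem_union.1 hp with h | h
        · exact hsS p h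
        · exact htS p h
      exact ⟨hpS.1, hPJ p hpS⟩) l hl z hα'
    apply Subtype.ext
    rw [← Nat.prod_primeFactors_of_squarefree hsq, ← Nat.prod_primeFactors_of_squarefree htq, h8]
  -- counting
  have hinj : Function.Injective
      (fun x : {c : ClassGroup (𝓞 K) // c ^ l = 1} × {n // n ∈ MM (discr K) N} =>
      x.1.1 * ClassGroup.mk0 (Q x.2)) := by
    rintro ⟨c, s⟩ ⟨c', t⟩ h
    have h' : c.1 * ClassGroup.mk0 (Q s) = c'.1 * ClassGroup.mk0 (Q t) := h
    have h3 := congrArg (fun x => x ^ l) h'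
    simp only [mul_pow, c.2, c'.2, one_mul] at h3
    have h4 := hcol s t h3
    rw [h4] at h'
    exact Prod.ext (Subtype.ext (mul_right_cancel h')) h4
  have h9 := Nat.card_le_card_of_injective _ hinj
  rw [Nat.card_prod, Nat.card_eq_fintype_card (α := {n // n ∈ MM (discr K) N}),
    Fintype.card_coe] at h9
  exact h9

end Pool.Agent.H568.GR
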