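import Pool.Agent.H568.GR.Stm
import Pool.Agent.W627.LT.Base
import Pool.Agent.W904.LT.LTX
import Pool.Agent.W171.LT.LTC
import Pool.Agent.W233.LT.LTL
import Pool.Agent.W428.LT.LTF
import Pool.Agent.W287.LT.LTK

/-!
# Project GR, piece GR-POS (helper360): real quadratic fields, squarefree products of split primes
and torsion. Adapted from `Pool/Agent/W627/LT/M1.lean`, `M.lean`.
-/

set_option autoImplicit false

namespace Pool.Agent.H568.GR.Pos

open Finset Filter NumberField Pool.Agent.H38R2.CG Pool.Agent.W627.LT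
open scoped Classical nonZeroDivisors

theorem collide (hC : S_C) (K : Type) [Field K] [NumberField K] (D : ℕ) (hD : 1 < D)
    (e : Emb K D) (P P' : ℕ → Ideal (𝓞 K)) (N l : ℕ) (hl : 1 ≤ l) (s t : Finset ℕ)
    (hst : ∀ p ∈ s ∪ t, p.Prime ∧ P p ≠ P' p ∧ (P p).IsPrime ∧ (P' p).IsPrime ∧
      Ideal.absNorm (P p) = p ∧ Ideal.absNorm (P' p) = p ∧
      P p * P' p = Ideal.span {(p : 𝓞 K)})
    (hs : ∏ p ∈ s, p ≤ N) (ht : ∏ p ∈ t, p ≤ N)
    (hlt : 4 * ((N : ℝ) ^ 2) ^ l * Real.exp (l + 1) < D)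
    (A B : Ideal (𝓞 K)) (γ δ : 𝓞 K) (hγ : A ^ l = Ideal.span {γ})
    (hδ : B ^ l = Ideal.span {δ}) (hγ0 : γ ≠ 0) (hδ0 : δ ≠ 0)
    (hγl : abs (Real.log (abs (e.σ (γ : K) / e.τ (γ : K)))) ≤ 1 / 2)
    (hδl : abs (Real.log (abs (e.σ (δ : K) / e.τ (δ : K)))) ≤ 1 / 2) (x : K)
    (hx : x ∈ XAB e (A * ∏ p ∈ s, P p) (B * ∏ p ∈ t, P p))
    (hxl : |Real.log (e.σ x / e.τ x)| < 1) : s = t := by
  obtain ⟨hx1, hx2, hx3⟩ := hx
  set a := ∏ p ∈ s, P p with ha
  set a' := ∏ p ∈ s, P' p with ha'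
  set b := ∏ p ∈ t, P p with hb
  set n := ∏ p ∈ s, p with hn
  set m := ∏ p ∈ t, p with hm
  have hnpos : 0 < n := Finset.prod_pos fun p hp => (hst p (mem_union_left _ hp)).1.pos
  have haa : a * a' = Ideal.span {(n : 𝓞 K)} := by
    rw [ha, ha', ← Finset.prod_mul_distrib, hn, Nat.cast_prod, ← Ideal.prod_span_singleton]
    exact Finset.prod_congr rfl fun p hp => (hst p (mem_union_left _ hp)).2.2.2.2.2.2
  have hσδ : e.σ (δ : K) ≠ 0 := by
    rw [Ne, map_eq_zero]; exact_mod_cast hδ0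
  have hτδ : e.τ (δ : K) ≠ 0 := by
    rw [Ne, map_eq_zero]; exact_mod_cast hδ0
  have hσγ : e.σ (γ : K) ≠ 0 := by
    rw [Ne, map_eq_zero]; exact_mod_cast hγ0
  have hτγ : e.τ (γ : K) ≠ 0 := by
    rw [Ne, map_eq_zero]; exact_mod_cast hγ0
  have hδK : (δ : K) ≠ 0 := by exact_mod_cast hδ0
  -- the l-th power of the relation
  have h1 : FractionalIdeal.spanSingleton (nonZeroDivisors (𝓞 K)) (x ^ l * (γ : K) * (n : K) ^ l) =
      FractionalIdeal.spanSingleton (nonZeroDivisors (𝓞 K)) (δ : K) *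
        ((b ^ l * a' ^ l : Ideal (𝓞 K)) : FractionalIdeal (nonZeroDivisors (𝓞 K)) K) := by
    have e1 : ((A * a : Ideal (𝓞 K)) : FractionalIdeal (nonZeroDivisors (𝓞 K)) K) ^ l *
        ((a' ^ l : Ideal (𝓞 K)) : FractionalIdeal (nonZeroDivisors (𝓞 K)) K) =
        FractionalIdeal.spanSingleton (nonZeroDivisors (𝓞 K)) ((γ : K) * (n : K) ^ l) := by
      rw [← FractionalIdeal.coeIdeal_pow, ← FractionalIdeal.coeIdeal_mul, mul_pow, mul_assoc,
        ← mul_pow, haa, hγ, Ideal.span_singleton_pow, Ideal.span_singleton_mul_span_singleton,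
        FractionalIdeal.coeIdeal_span_singleton]
      congr 1
    have e2 := congrArg (fun I => I ^ l *
      ((a' ^ l : Ideal (𝓞 K)) : FractionalIdeal (nonZeroDivisors (𝓞 K)) K)) hx3
    rw [mul_pow, mul_assoc, e1, FractionalIdeal.spanSingleton_pow,
      FractionalIdeal.spanSingleton_mul_spanSingleton] at e2
    rw [mul_assoc, e2, ← FractionalIdeal.coeIdeal_pow, ← FractionalIdeal.coeIdeal_mul, mul_pow,
      hδ, mul_assoc, FractionalIdeal.coeIdeal_mul, FractionalIdeal.coeIdeal_span_singleton]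
  set w : K := x ^ l * (γ : K) * (n : K) ^ l / (δ : K) with hw
  have h2 : FractionalIdeal.spanSingleton (nonZeroDivisors (𝓞 K)) w =
      ((b ^ l * a' ^ l : Ideal (𝓞 K)) : FractionalIdeal (nonZeroDivisors (𝓞 K)) K) := by
    have e3 : FractionalIdeal.spanSingleton (nonZeroDivisors (𝓞 K)) (δ : K) *
        FractionalIdeal.spanSingleton (nonZeroDivisors (𝓞 K)) w =
        FractionalIdeal.spanSingleton (nonZeroDivisors (𝓞 K)) (δ : K) *
        ((b ^ l * a' ^ l : Ideal (𝓞 K)) : FractionalIdeal (nonZeroDivisors (𝓞 K)) K) := by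
      rw [← h1, FractionalIdeal.spanSingleton_mul_spanSingleton]
      congr 1
      rw [hw]
      field_simp
    have hne : FractionalIdeal.spanSingleton (nonZeroDivisors (𝓞 K)) (δ : K) ≠ 0 :=
      FractionalIdeal.spanSingleton_ne_zero_iff.mpr hδK
    exact mul_left_cancel₀ hne e3
  have h3 : w ∈ ((b ^ l * a' ^ l : Ideal (𝓞 K)) :
      FractionalIdeal (nonZeroDivisors (𝓞 K)) K) := by
    rw [← h2]
    exact FractionalIdeal.mem_spanSingleton_self _ _
  obtain ⟨z, hz, hzw⟩ := (FractionalIdeal.mem_coeIdeal _).mp h3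
  have hzw' : (z : K) = w := hzw
  have h4 : b ^ l * a' ^ l = Ideal.span {z} := by
    have h4' : ((b ^ l * a' ^ l : Ideal (𝓞 K)) : FractionalIdeal (nonZeroDivisors (𝓞 K)) K) =
        ((Ideal.span {z} : Ideal (𝓞 K)) : FractionalIdeal (nonZeroDivisors (𝓞 K)) K) := by
      rw [← h2, FractionalIdeal.coeIdeal_span_singleton, hzw]
    exact FractionalIdeal.coeIdeal_injective h4'
  -- the norm
  have hnb : Ideal.absNorm b = m := by
    rw [hb, map_prod, hm]
    exact Finset.prod_congr rfl fun p hp => (hst p (mem_union_right _ hp)).2.2.2.2.1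
  have hna : Ideal.absNorm a' = n := by
    rw [ha', map_prod, hn]
    exact Finset.prod_congr rfl fun p hp => (hst p (mem_union_left _ hp)).2.2.2.2.2.1
  have h5 : (Algebra.norm ℤ z).natAbs = m ^ l * n ^ l := by
    rw [← Ideal.absNorm_span_singleton, ← h4, map_mul, map_pow, map_pow, hnb, hna]
  have hmy : m ≤ N := ht
  have hny : n ≤ N := hs
  have h6 : |e.σ (z : K) * e.τ (z : K)| ≤ ((N : ℝ) ^ 2) ^ l := by
    rw [← e.nrm, ← Algebra.coe_norm_int]
    have e4 : |(((Algebra.norm ℤ z : ℤ) : ℚ) : ℝ)| = (((Algebra.norm ℤ z).natAbs : ℕ) : ℝ) := by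
      rw [Nat.cast_natAbs]
      push_cast
      rfl
    rw [e4, h5]
    have e5 : m ^ l * n ^ l ≤ (N ^ 2) ^ l := by
      rw [← mul_pow, sq]
      exact Nat.pow_le_pow_left (Nat.mul_le_mul hmy hny) l
    exact_mod_cast e5
  have hz0 : (z : K) ≠ 0 := by
    rw [hzw', hw]
    have hx0 : x ≠ 0 := by
      rintro rfl
      rw [map_zero] at hx1
      exact lt_irrefl _ hx1
    have hn0 : (n : K) ≠ 0 := by exact_mod_cast hnpos.ne'
    have hγK : (γ : K) ≠ 0 := by exact_mod_cast hγ0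
    exact div_ne_zero (mul_ne_zero (mul_ne_zero (pow_ne_zero _ hx0) hγK) (pow_ne_zero _ hn0)) hδK
  have hσz : e.σ (z : K) ≠ 0 := by rw [Ne, map_eq_zero]; exact hz0
  have hτz : e.τ (z : K) ≠ 0 := by rw [Ne, map_eq_zero]; exact hz0
  have h7 : abs (Real.log (abs (e.σ (z : K) / e.τ (z : K)))) ≤ (l : ℝ) + 1 := by
    have hnr : (n : ℝ) ≠ 0 := by exact_mod_cast hnpos.ne'
    have e6 : e.σ (z : K) / e.τ (z : K) = (e.σ x / e.τ x) ^ l * (e.σ (γ : K) / e.τ (γ : K)) /
        (e.σ (δ : K) / e.τ (δ : K)) := by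
      rw [hzw', hw]
      have hx1' := hx1.ne'
      have hx2' := hx2.ne'
      simp only [map_div₀, map_mul, map_pow, map_natCast, div_pow]
      field_simp
    have hxx : 0 < e.σ x / e.τ x := div_pos hx1 hx2
    have e7 : Real.log (abs (e.σ (z : K) / e.τ (z : K))) = l * Real.log (e.σ x / e.τ x) +
        Real.log (abs (e.σ (γ : K) / e.τ (γ : K))) - Real.log (abs (e.σ (δ : K) / e.τ (δ : K))) := by
      rw [e6, abs_div, abs_mul, abs_pow, abs_of_pos hxx,
        Real.log_div (by positivity) (by positivity), Real.log_mul (by positivity) (by positivity),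
        Real.log_pow]
    rw [e7]
    have e8 : |(l : ℝ) * Real.log (e.σ x / e.τ x)| ≤ l := by
      rw [abs_mul, Nat.abs_cast]
      exact mul_le_of_le_one_right (Nat.cast_nonneg l) hxl.le
    have := abs_le.mp e8
    have := abs_le.mp hγl
    have := abs_le.mp hδl
    rw [abs_le]
    constructor <;> linarith
  have h8 := real_est hσz hτz h6 h7 hlt
  obtain ⟨u, v, huv, hu1, hu2⟩ := e.int1 z
  have hDr : (0 : ℝ) < D := by exact_mod_cast (by omega : 0 < D)
  have hv : v = 0 := by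
    by_contra hv
    have e9 : (e.σ (z : K) - e.τ (z : K)) ^ 2 = (v : ℝ) ^ 2 * D := by
      rw [hu1, hu2]
      have : √(D : ℝ) ^ 2 = D := Real.sq_sqrt hDr.le
      calc ((u + v * √(D : ℝ)) / 2 - (u - v * √(D : ℝ)) / 2) ^ 2 = (v : ℝ) ^ 2 * √(D : ℝ) ^ 2 := by
            ring
        _ = _ := by rw [this]
    have e10 : (1 : ℝ) ≤ (v : ℝ) ^ 2 := by
      have : (1 : ℤ) ≤ v ^ 2 := Int.one_le_abs hv |>.trans (by nlinarith [abs_nonneg v, sq_abs v, Int.one_le_abs hv]) 
      exact_mod_cast this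
    rw [e9] at h8
    nlinarith
  rw [hv] at huv hu1
  obtain ⟨u', hu'⟩ := huv
  have hu'' : u = 2 * u' := by linarith
  have h9 : z = (u' : 𝓞 K) := by
    apply RingOfIntegers.ext
    apply e.σ.injective
    rw [hu1, hu'']
    simp
  rw [h9] at h4
  exact hC K P P' s t hst l hl u' h4


/-! ### The field is generated by the square root of a squarefree number -/

theorem exists_sq (K : Type) [Field K] [NumberField K] (h2 : Module.finrank ℚ K = 2) :
    ∃ (x : K) (m : ℤ), x ^ 2 = (m : K) ∧ ∀ q : ℚ, (q : K) ≠ x := by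
  obtain ⟨θ, hθ⟩ : ∃ θ : K, ∀ q : ℚ, (q : K) ≠ θ := by
    by_contra hcon
    push Not at hcon
    have h3 : (⊤ : Submodule ℚ K) = Submodule.span ℚ {(1 : K)} := by
      rw [eq_comm, Submodule.eq_top_iff']
      intro y
      obtain ⟨q, hq⟩ := hcon y
      rw [Submodule.mem_span_singleton]
      exact ⟨q, by rw [← hq, Rat.smul_def, mul_one]⟩
    have h4 := finrank_span_singleton (K := ℚ) (one_ne_zero : (1 : K) ≠ 0)
    rw [← h3, finrank_top] at h4
    omega
  -- 1, θ, θ^2 are linearly dependent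
  have hli : ¬ LinearIndependent ℚ (fun i : Fin 3 => θ ^ (i : ℕ)) := by
    intro h
    have := h.fintype_card_le_finrank
    rw [h2, Fintype.card_fin] at this
    omega
  rw [Fintype.not_linearIndependent_iff] at hli
  obtain ⟨g, hg, i, hi⟩ := hli
  rw [Fin.sum_univ_three] at hg
  simp only [Fin.val_zero, pow_zero, Fin.val_one, pow_one, Fin.val_two, Rat.smul_def] at hg
  set a := g 2 with ha
  set b := g 1 with hb
  set c := g 0 with hc
  have ha0 : a ≠ 0 := by
    intro h0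
    rw [h0] at hg
    by_cases hb0 : b = 0
    · rw [hb0] at hg
      have hc0 : c = 0 := by
        have : ((c : ℚ) : K) = 0 := by simpa using hg
        exact_mod_cast this
      apply hi
      fin_cases i
      · exact hc0
      · exact hb0
      · exact h0
    · have hbK : ((b : ℚ) : K) ≠ 0 := by exact_mod_cast hb0
      apply hθ (-c / b)
      push_cast
      rw [div_eq_iff hbK]
      linear_combination -hg
  have haK : ((a : ℚ) : K) ≠ 0 := by exact_mod_cast ha0
  set r : ℚ := b ^ 2 - 4 * a * c with hr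
  set y : K := 2 * (a : K) * θ + (b : K) with hy
  have hy2 : y ^ 2 = ((r : ℚ) : K) := by
    rw [hy, hr]
    push_cast
    linear_combination 4 * (a : K) * hg
  refine ⟨(r.den : K) * y, r.num * r.den, ?_, ?_⟩
  · have h5 : (r.num : ℚ) = r * r.den := (Rat.mul_den_eq_num r).symm
    have h6 : ((r.num : ℤ) : K) = (r : K) * (r.den : K) := by
      have h7 := congrArg (fun q : ℚ => (q : K)) h5
      push_cast at h7
      exact h7
    rw [mul_pow, hy2]
    push_cast
    rw [h6]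
    ring
  · intro q hq
    have hden : ((r.den : ℕ) : K) ≠ 0 := by exact_mod_cast r.den_ne_zero
    apply hθ ((q / r.den - b) / (2 * a))
    push_cast
    rw [div_eq_iff (mul_ne_zero two_ne_zero haK)]
    have : (q : K) / (r.den : K) = y := by
      rw [div_eq_iff hden, hq]
      ring
    rw [this, hy]
    ring

theorem exists_sqfree (K : Type) [Field K] [NumberField K] (h2 : Module.finrank ℚ K = 2)
    (hpos : 0 < discr K) :
    ∃ (x : K) (a : ℕ), 1 < a ∧ Squarefree a ∧ x ^ 2 = (a : K) := by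
  obtain ⟨x, m, hx, hxq⟩ := exists_sq K h2
  have hm0 : m ≠ 0 := by
    rintro rfl
    apply hxq 0
    rw [Int.cast_zero, sq_eq_zero_iff] at hx
    rw [hx, Rat.cast_zero]
  -- a real embedding
  have hreal : ∃ φ : K →+* ℝ, True := by
    have hs := sign_discr (K := K)
    rw [Int.sign_eq_one_of_pos hpos] at hs
    have hcard := InfinitePlace.card_add_two_mul_card_eq_rank K
    rw [h2] at hcard
    have hr2 : InfinitePlace.nrComplexPlaces K = 0 := by
      by_contra h
      have h1 : InfinitePlace.nrComplexPlaces K = 1 := by omega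
      rw [h1] at hs
      norm_num at hs
    have hr1 : 0 < InfinitePlace.nrRealPlaces K := by omega
    unfold InfinitePlace.nrRealPlaces at hr1
    obtain ⟨⟨w, hw⟩⟩ := Fintype.card_pos_iff.1 hr1
    exact ⟨InfinitePlace.embedding_of_isReal hw, trivial⟩
  obtain ⟨φ, -⟩ := hreal
  have hm : 0 < m := by
    have h3 : (φ x) ^ 2 = (m : ℝ) := by rw [← map_pow, hx, map_intCast]
    have h4 : (0 : ℝ) ≤ (m : ℝ) := by rw [← h3]; exact sq_nonneg _
    have h5 : (0 : ℤ) ≤ m := by exact_mod_cast h4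
    omega
  lift m to ℕ using hm.le
  have hm' : 0 < m := by exact_mod_cast hm
  obtain ⟨a, f, ha, hf, haf, hsq⟩ := Nat.sq_mul_squarefree_of_pos hm'
  have hfK : (f : K) ≠ 0 := Nat.cast_ne_zero.2 hf.ne'
  refine ⟨x / f, a, ?_, hsq, ?_⟩
  · by_contra hcon
    have ha1 : a = 1 := by omega
    rw [ha1, mul_one] at haf
    have h6 : x ^ 2 = (f : K) ^ 2 := by
      rw [hx, ← haf]
      push_cast
      rfl
    rcases sq_eq_sq_iff_eq_or_eq_neg.1 h6 with h | h
    · apply hxq f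
      rw [h]
      push_cast
      rfl
    · apply hxq (-f)
      rw [h]
      push_cast
      rfl
  · rw [div_pow, hx, ← haf]
    push_cast
    field_simp

/-! ### The family of ideals -/

theorem pos_aux (h0 : P_N0) (hS : P_SPL) (h5 : P_N5) (hX : S_X) (hC : S_C) (hK : S_K)
    (K : Type) [Field K] [NumberField K] (D : ℕ) (hD : IsFund D)
    (h2 : Module.finrank ℚ K = 2) (hd : discr K = (D : ℤ)) (N l : ℕ) (hl : 1 ≤ l)
    (hlt : 4 * ((N : ℝ) ^ 2) ^ l * Real.exp (l + 1) < D) :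
    (Pool.Agent.H568.GR.tor K l : ℝ) * ((MM (discr K) N).card : ℝ) ≤ 2 * √(D : ℝ) * Lone D := by
  obtain ⟨e⟩ := h0 K D hD h2 hd
  have hD1 : 1 < D := hD.1
  have hP : ∀ p : ℕ, ∃ P P' : Ideal (𝓞 K), (p.Prime ∧ chi D p = 1) →
      P ≠ P' ∧ P.IsPrime ∧ P'.IsPrime ∧ Ideal.absNorm P = p ∧ Ideal.absNorm P' = p ∧
        P * P' = Ideal.span {(p : 𝓞 K)} := by
    intro p
    by_cases hp : p.Prime ∧ chi D p = 1
    · obtain ⟨P, P', h⟩ := (hS K D hD h2 hd p hp.1).1 hp.2
      exact ⟨P, P', fun _ => h⟩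
    · exact ⟨⊥, ⊥, fun h => absurd h hp⟩
  choose P P' hPP using hP
  have hA : ∀ c : {c : ClassGroup (𝓞 K) // c ^ l = 1}, ∃ (A : nonZeroDivisors (Ideal (𝓞 K)))
      (γ : 𝓞 K), ClassGroup.mk0 A = c.1 ∧
      (A : Ideal (𝓞 K)) ^ l = Ideal.span {γ} ∧ γ ≠ 0 ∧
      abs (Real.log (abs (e.σ (γ : K) / e.τ (γ : K)))) ≤ 1 / 2 :=
    fun c => exists_rep hX K D hD1 e l hl c.1 c.2
  choose A γ hA1 hA2 hA3 hA4 using hA
  have hMM : ∀ n ∈ MM (discr K) N, (n ≤ N ∧ Squarefree n) ∧ ∀ p ∈ n.primeFactors,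
      p.Prime ∧ chi D p = 1 := by
    intro n hn
    unfold MM at hn
    rw [Finset.mem_filter, Finset.mem_Icc] at hn
    refine ⟨⟨hn.1.2, hn.2.1⟩, fun p hp => ?_⟩
    have hp1 := Nat.prime_of_mem_primeFactors hp
    obtain ⟨h3, h4⟩ := hn.2.2 p hp1 (Nat.dvd_of_mem_primeFactors hp)
    refine ⟨hp1, ?_⟩
    rw [Pool.Agent.W428.LT.LTF.chi_odd _ hp1 h3, ← hd]
    exact h4
  have hprod : ∀ s : {s // s ∈ MM (discr K) N}, ∃ Q : nonZeroDivisors (Ideal (𝓞 K)),
      (Q : Ideal (𝓞 K)) = ∏ p ∈ s.1.primeFactors, P p := by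
    intro s
    refine ⟨⟨∏ p ∈ s.1.primeFactors, P p, mem_nonZeroDivisors_of_ne_zero ?_⟩, rfl⟩
    rw [Finset.prod_ne_zero_iff]
    intro p hp h0
    obtain ⟨q1, q3⟩ := (hMM s.1 s.2).2 p hp
    have := (hPP p ⟨q1, q3⟩).2.2.2.1
    rw [h0, Ideal.zero_eq_bot, Ideal.absNorm_bot] at this
    exact q1.ne_zero this.symm
  choose Q hQ using hprod
  have hcol : ∀ (c c' : {c : ClassGroup (𝓞 K) // c ^ l = 1})
      (s t : {s // s ∈ MM (discr K) N}), ∀ x ∈ XAB e ((A c * Q s : nonZeroDivisors (Ideal (𝓞 K))) :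
        Ideal (𝓞 K)) ((A c' * Q t : nonZeroDivisors (Ideal (𝓞 K))) : Ideal (𝓞 K)),
      abs (Real.log (e.σ x / e.τ x)) < 1 → c = c' ∧ s = t := by
    intro c c' s t x hx hxl
    have hx' := hx
    rw [Submonoid.coe_mul, Submonoid.coe_mul, hQ, hQ] at hx'
    have hst0 : s.1.primeFactors = t.1.primeFactors := collide hC K D hD1 e P P' N l hl
      s.1.primeFactors t.1.primeFactors
      (fun p hp => by
        rcases Finset.mem_union.mp hp with h | h
        · have h3 := (hMM s.1 s.2).2 p h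
          exact ⟨h3.1, hPP p h3⟩
        · have h3 := (hMM t.1 t.2).2 p h
          exact ⟨h3.1, hPP p h3⟩)
      (by rw [Nat.prod_primeFactors_of_squarefree (hMM s.1 s.2).1.2]; exact (hMM s.1 s.2).1.1)
      (by rw [Nat.prod_primeFactors_of_squarefree (hMM t.1 t.2).1.2]; exact (hMM t.1 t.2).1.1)
      hlt (A c) (A c') (γ c) (γ c')
      (hA2 c) (hA2 c') (hA3 c) (hA3 c') (hA4 c) (hA4 c') x hx' hxl
    have hst : s.1 = t.1 := by
      rw [← Nat.prod_primeFactors_of_squarefree (hMM s.1 s.2).1.2,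
        ← Nat.prod_primeFactors_of_squarefree (hMM t.1 t.2).1.2, hst0]
    have hst' : s = t := Subtype.ext hst
    rw [hst'] at hx
    have hcl := class_eq_of_mem e (A c * Q t) (A c' * Q t) hx
    rw [map_mul, map_mul, hA1, hA1] at hcl
    exact ⟨Subtype.ext (mul_right_cancel hcl), hst'⟩
  by_cases hne : Nonempty ({c : ClassGroup (𝓞 K) // c ^ l = 1} × {s // s ∈ MM (discr K) N})
  · have key := family_bound h0 h5 hK K D hD h2 hd e
      ({c : ClassGroup (𝓞 K) // c ^ l = 1} × {s // s ∈ MM (discr K) N})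
      (fun i => A i.1 * Q i.2)
      (fun i j x hx hxl => Prod.ext (hcol i.1 j.1 i.2 j.2 x hx hxl).1
        (hcol i.1 j.1 i.2 j.2 x hx hxl).2) hne
    rw [Fintype.card_prod, Fintype.card_coe] at key
    unfold Pool.Agent.H568.GR.tor
    rw [Nat.card_eq_fintype_card]
    push_cast at key
    exact key
  · have h00 : ((MM (discr K) N).card : ℝ) = 0 := by
      by_contra hcon
      apply hne
      have hc2 : (MM (discr K) N).card ≠ 0 := by
        intro h
        apply hcon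
        rw [h]
        simp
      obtain ⟨s, hs⟩ := Finset.card_pos.1 (Nat.pos_of_ne_zero hc2)
      exact ⟨(⟨1, one_pow l⟩, ⟨s, hs⟩)⟩
    have hH := lth h0 h5 hK K D hD h2 hd
    rw [h00, mul_zero]
    exact (Nat.cast_nonneg _).trans hH

end Pool.Agent.H568.GR.Pos

namespace Pool.Agent.H568.GR

open NumberField Pool.Agent.H38R2.CG Pool.Agent.W627.LT

/-- GR-POS. -/
theorem pos : Pool.Agent.H568.GR.S_POS := by
  obtain ⟨C, hC0, hC⟩ := Pool.Agent.W233.LT.ltl p3a
  refine ⟨2 * C, by positivity, ?_⟩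
  intro K _ _ h2 hpos l N hl hlt
  obtain ⟨x, a, ha1, hasq, hx⟩ := Pos.exists_sqfree K h2 hpos
  have hns : ¬ IsSquare a := by
    rintro ⟨b, hb⟩
    have := hasq b ⟨1, by rw [mul_one]; exact hb⟩
    rw [Nat.isUnit_iff] at this
    rw [this] at hb
    omega
  obtain ⟨D, hD, hd, -, -⟩ := Pool.Agent.W428.LT.LTF.ltf T_N0d K a (by omega) hns h2 ⟨x, hx⟩
  have habs : |(discr K : ℝ)| = (D : ℝ) := by
    rw [hd]
    push_cast
    exact abs_of_nonneg (Nat.cast_nonneg _)
  rw [habs] at hlt ⊢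
  have h3 := Pos.pos_aux T_N0 pspl p5 Pool.Agent.W904.LTX.ltx Pool.Agent.W171.LT.ltc
    Pool.Agent.W287.LT.ltk K D hD h2 hd N l hl hlt
  refine h3.trans ?_
  have h4 := hC D hD
  have h5 : 2 * √(D : ℝ) * Lone D ≤ 2 * √(D : ℝ) * (C * Real.log D) :=
    mul_le_mul_of_nonneg_left h4 (by positivity)
  refine h5.trans (le_of_eq ?_)
  ring

end Pool.Agent.H568.GR
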