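import Pool.Agent.H568.GR.Stm

/-!
# Reciprocity: from `(D/n)` to `(n/q)`
-/

set_option autoImplicit false

namespace Pool.Agent.H568.GR

namespace Rec

open Finset

/-- the sign, a function of `k` modulo eight -/
noncomputable def c (D : ℤ) (a q k : ℕ) : ℤ :=
  jacobiSym D.sign k * jacobiSym 2 k ^ a * qrSign k q

theorem abs_jac_le (a : ℤ) (b : ℕ) : |jacobiSym a b| ≤ 1 := by
  rcases jacobiSym.trichotomy a b with h | h | h <;> rw [h] <;> simp

theorem abs_c (D : ℤ) (a q k : ℕ) : |c D a q k| ≤ 1 := by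
  unfold c qrSign
  rw [abs_mul, abs_mul, abs_pow]
  have h1 := abs_jac_le D.sign k
  have h2 := abs_jac_le 2 k
  have h3 := abs_jac_le (ZMod.χ₄ (k : ZMod 4)) q
  have h4 : |jacobiSym 2 k| ^ a ≤ 1 := pow_le_one₀ (abs_nonneg _) h2
  calc |jacobiSym D.sign k| * |jacobiSym 2 k| ^ a * |jacobiSym (ZMod.χ₄ (k : ZMod 4)) q|
      ≤ 1 * 1 * 1 := by gcongr
    _ = 1 := by norm_num

theorem sign_jac (D : ℤ) (hD : D ≠ 0) (n : ℕ) (hn : Odd n) :
    jacobiSym D.sign n = jacobiSym D.sign (n % 8) := by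
  have hn8 : Odd (n % 8) := by
    rw [Nat.odd_iff] at hn ⊢; omega
  rcases lt_or_gt_of_ne hD with h | h
  · rw [Int.sign_eq_neg_one_of_neg h, jacobiSym.at_neg_one hn, jacobiSym.at_neg_one hn8,
      ZMod.χ₄_nat_mod_four n, ZMod.χ₄_nat_mod_four (n % 8)]
    congr 2
    omega
  · rw [Int.sign_eq_one_of_pos h, jacobiSym.one_left, jacobiSym.one_left]

theorem two_jac (n : ℕ) (hn : Odd n) : jacobiSym 2 n = jacobiSym 2 (n % 8) := by
  have hn8 : Odd (n % 8) := by
    rw [Nat.odd_iff] at hn ⊢; omega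
  rw [jacobiSym.at_two hn, jacobiSym.at_two hn8, ZMod.χ₈_nat_mod_eight n]

theorem qr_jac (n q : ℕ) : qrSign n q = qrSign (n % 8) q := by
  unfold qrSign
  rw [ZMod.χ₄_nat_mod_four n, ZMod.χ₄_nat_mod_four (n % 8)]
  congr 3
  omega

theorem expand (D : ℤ) (a q : ℕ) (hq : Odd q) (hD : D.natAbs = 2 ^ a * q) (n : ℕ) (hn : Odd n) :
    jacobiSym D n = jacobiSym D.sign n * jacobiSym 2 n ^ a * qrSign n q * jacobiSym n q := by
  have e : D = D.sign * (2 ^ a * (q : ℤ)) := by
    have h := Int.sign_mul_natAbs D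
    rw [hD] at h
    push_cast at h
    exact h.symm
  have e2 : jacobiSym D n = jacobiSym (D.sign * (2 ^ a * (q : ℤ))) n :=
    congrArg (fun z => jacobiSym z n) e
  rw [e2, jacobiSym.mul_left, jacobiSym.mul_left, jacobiSym.pow_left,
    jacobiSym.quadratic_reciprocity' hq hn]
  ring

theorem jac_eq (D : ℤ) (a q : ℕ) (hq : Odd q) (hD : D.natAbs = 2 ^ a * q) (n : ℕ) (hn : Odd n) :
    jacobiSym D n = c D a q (n % 8) * jacobiSym n q := by
  have hD0 : D ≠ 0 := by
    rintro rfl
    have : 0 < 2 ^ a * q := Nat.mul_pos (by positivity) hq.pos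
    rw [← hD] at this
    simp at this
  rw [expand D a q hq hD n hn, sign_jac D hD0 n hn, two_jac n hn, qr_jac n q]
  rfl

theorem sum_split (f : ℕ → ℝ) (x : ℕ) :
    ∑ n ∈ (Icc 1 x).filter (fun n => Odd n), f n =
      ∑ r ∈ ({1, 3, 5, 7} : Finset ℕ), ∑ m ∈ range ((x + 8 - r) / 8), f (8 * m + r) := by
  rw [← Finset.sum_fiberwise_of_maps_to (s := (Icc 1 x).filter (fun n => Odd n))
    (t := ({1, 3, 5, 7} : Finset ℕ)) (g := fun n => n % 8)]
  · refine Finset.sum_congr rfl fun r hr => ?_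
    have hr' : r < 8 ∧ Odd r ∧ 1 ≤ r := by
      simp only [mem_insert, mem_singleton] at hr
      rcases hr with rfl | rfl | rfl | rfl <;> decide
    obtain ⟨h8, hodd, h1⟩ := hr'
    refine Finset.sum_nbij' (fun n => n / 8) (fun m => 8 * m + r) ?_ ?_ ?_ ?_ ?_
    · intro n hn
      simp only [mem_filter, mem_Icc, mem_range] at hn ⊢
      omega
    · intro m hm
      simp only [mem_filter, mem_Icc, mem_range] at hm ⊢
      refine ⟨⟨⟨by omega, by omega⟩, ?_⟩, by omega⟩
      rw [Nat.odd_iff] at hodd ⊢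
      omega
    · intro n hn
      simp only [mem_filter, mem_Icc] at hn
      show 8 * (n / 8) + r = n
      omega
    · intro m hm
      show (8 * m + r) / 8 = m
      omega
    · intro n hn
      simp only [mem_filter, mem_Icc] at hn
      have : 8 * (n / 8) + r = n := by omega
      rw [this]
  · intro n hn
    simp only [mem_filter, mem_Icc, Nat.odd_iff] at hn
    simp only [mem_insert, mem_singleton]
    omega

theorem lin (q : ℕ) (hq : Odd q) (r : ℕ) : ∃ b : ℤ, ∀ m : ℕ,
    jacobiSym ((8 * m + r : ℕ) : ℤ) q = jacobiSym 8 q * jacobiSym (b + m) q := by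
  have hc : Nat.Coprime 8 q := by
    have h2 : Nat.Coprime 2 q := by
      rw [Nat.coprime_two_left]; exact hq
    exact Nat.Coprime.pow_left 3 h2
  obtain ⟨u, v, huv⟩ := Nat.isCoprime_iff_coprime.2 hc
  refine ⟨r * u, fun m => ?_⟩
  rw [← jacobiSym.mul_left]
  refine jacobiSym.mod_left' ?_
  have : ((8 * m + r : ℕ) : ℤ) = 8 * (r * u + m) + (q : ℤ) * (r * v) := by
    push_cast at huv ⊢
    linear_combination (-(r : ℤ)) * huv
  rw [this, Int.add_mul_emod_self_left]

theorem exists_neg (q : ℕ) (hq : Odd q) (hs : ¬ IsSquare q) :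
    ∃ n : ℕ, n % 8 = 1 ∧ jacobiSym n q = -1 := by
  obtain ⟨a, b, hab, hsq⟩ := Nat.sq_mul_squarefree q
  have ha1 : a ≠ 1 := by
    rintro rfl
    exact hs ⟨b, by rw [← hab]; ring⟩
  obtain ⟨p, hp, hpa⟩ := Nat.exists_prime_and_dvd ha1
  obtain ⟨a', rfl⟩ := hpa
  have hpa' : ¬ p ∣ a' := by
    rintro ⟨t, rfl⟩
    have := hsq p ⟨t, by ring⟩
    exact hp.one_lt.ne' (Nat.isUnit_iff.1 this)
  have hq0 : q ≠ 0 := hq.pos.ne'
  have hb0 : b ≠ 0 := by
    rintro rfl
    simp at hab
    omega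
  have ha0 : a' ≠ 0 := by
    rintro rfl
    simp at hpa'
  obtain ⟨j, b', hpb', hb⟩ := Nat.exists_eq_pow_mul_and_not_dvd hb0 p hp.ne_one
  have hp2 : p ≠ 2 := by
    rintro rfl
    rw [← hab] at hq
    have h : Even (b ^ 2 * (2 * a')) := by
      exact ⟨b ^ 2 * a', by ring⟩
    exact (Nat.not_even_iff_odd.2 hq) h
  have : Fact p.Prime := ⟨hp⟩
  have hb'0 : b' ≠ 0 := by
    rintro rfl
    simp at hpb'
  -- a non-residue
  obtain ⟨u, hu⟩ : ∃ u : ZMod p, quadraticChar (ZMod p) u = -1 :=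
    quadraticChar_exists_neg_one (by rw [ZMod.ringChar_zmod_n]; exact hp2)
  have hcop : Nat.Coprime p (8 * (a' * b')) := by
    have h8 : Nat.Coprime p 8 := by
      have : Nat.Coprime p 2 := by
        rw [Nat.coprime_two_right]
        exact hp.odd_of_ne_two hp2
      exact Nat.Coprime.pow_right 3 this
    exact Nat.Coprime.mul_right h8
      (Nat.Coprime.mul_right ((Nat.Prime.coprime_iff_not_dvd hp).2 hpa')
        ((Nat.Prime.coprime_iff_not_dvd hp).2 hpb'))
  obtain ⟨n, hn1, hn2⟩ := Nat.chineseRemainder hcop u.val 1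
  refine ⟨n, ?_, ?_⟩
  · have : n ≡ 1 [MOD 8] := Nat.ModEq.of_mul_right _ hn2
    have h := this
    unfold Nat.ModEq at h
    simpa using h
  · have hna' : jacobiSym n a' = 1 := by
      have h : n ≡ 1 [MOD a'] := by
        refine hn2.of_dvd ?_
        exact ⟨8 * b', by ring⟩
      have h2 : ((n : ℕ) : ℤ) % (a' : ℤ) = (1 : ℤ) % (a' : ℤ) := by
        have h3 := (Int.natCast_modEq_iff.2 h)
        unfold Int.ModEq at h3
        push_cast at h3
        exact h3
      rw [jacobiSym.mod_left' h2, jacobiSym.one_left]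
    have hnb' : jacobiSym n b' = 1 := by
      have h : n ≡ 1 [MOD b'] := by
        refine hn2.of_dvd ?_
        exact ⟨8 * a', by ring⟩
      have h2 : ((n : ℕ) : ℤ) % (b' : ℤ) = (1 : ℤ) % (b' : ℤ) := by
        have h3 := (Int.natCast_modEq_iff.2 h)
        unfold Int.ModEq at h3
        push_cast at h3
        exact h3
      rw [jacobiSym.mod_left' h2, jacobiSym.one_left]
    have hnp : jacobiSym n p = -1 := by
      rw [← jacobiSym.legendreSym.to_jacobiSym]
      unfold legendreSym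
      have h : ((n : ℤ) : ZMod p) = u := by
        have h1 : ((n : ℕ) : ZMod p) = ((u.val : ℕ) : ZMod p) :=
          (ZMod.natCast_eq_natCast_iff _ _ _).2 hn1
        rw [ZMod.natCast_zmod_val] at h1
        exact_mod_cast h1
      rw [h, hu]
    have : NeZero p := ⟨hp.ne_zero⟩
    have : NeZero a' := ⟨ha0⟩
    have : NeZero b' := ⟨hb'0⟩
    have : NeZero b := ⟨hb0⟩
    have hnb : jacobiSym n b * jacobiSym n b = 1 := by
      rw [hb, jacobiSym.mul_right, jacobiSym.pow_right, hnp, hnb', mul_one, ← pow_add,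
        ← two_mul, pow_mul]
      norm_num
    rw [← hab, sq, jacobiSym.mul_right, jacobiSym.mul_right, jacobiSym.mul_right, hnb, hnp, hna']
    norm_num

end Rec

open Finset in
theorem rec : S_REC := by
  intro D a q hq hD
  refine ⟨fun X V hV H x hx => ?_, fun hs => ?_⟩
  · rw [Rec.sum_split (fun n => ((jacobiSym D n : ℤ) : ℝ)) x]
    refine (Finset.abs_sum_le_sum_abs _ _).trans ?_
    have hkey : ∀ r ∈ ({1, 3, 5, 7} : Finset ℕ),
        |∑ m ∈ range ((x + 8 - r) / 8), ((jacobiSym D (8 * m + r) : ℤ) : ℝ)| ≤ V := by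
      intro r hr
      have hr' : r < 8 ∧ Odd r ∧ 1 ≤ r := by
        simp only [mem_insert, mem_singleton] at hr
        rcases hr with rfl | rfl | rfl | rfl <;> decide
      obtain ⟨h8, hodd, h1⟩ := hr'
      obtain ⟨b, hb⟩ := Rec.lin q hq r
      have e : ∑ m ∈ range ((x + 8 - r) / 8), ((jacobiSym D (8 * m + r) : ℤ) : ℝ) =
          ((Rec.c D a q r * jacobiSym 8 q : ℤ) : ℝ) *
            ∑ m ∈ range ((x + 8 - r) / 8), ((jacobiSym (b + m) q : ℤ) : ℝ) := by
        rw [Finset.mul_sum]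
        refine Finset.sum_congr rfl fun m _ => ?_
        have hodd' : Odd (8 * m + r) := by
          rw [Nat.odd_iff] at hodd ⊢
          omega
        rw [Rec.jac_eq D a q hq hD (8 * m + r) hodd', hb m]
        have : (8 * m + r) % 8 = r := by omega
        rw [this]
        push_cast
        ring
      rw [e, abs_mul]
      have h3 : |((Rec.c D a q r * jacobiSym 8 q : ℤ) : ℝ)| ≤ 1 := by
        rw [← Int.cast_abs, abs_mul]
        have := Rec.abs_c D a q r
        have h2 := Rec.abs_jac_le 8 q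
        have h4 : |Rec.c D a q r| * |jacobiSym 8 q| ≤ 1 * 1 := by gcongr
        exact_mod_cast h4
      have h4 := H b ((x + 8 - r) / 8) (by omega)
      calc |((Rec.c D a q r * jacobiSym 8 q : ℤ) : ℝ)| *
          |∑ m ∈ range ((x + 8 - r) / 8), ((jacobiSym (b + m) q : ℤ) : ℝ)| ≤ 1 * V := by
            gcongr
        _ = V := one_mul V
    refine (Finset.sum_le_sum hkey).trans ?_
    simp
  · obtain ⟨n, hn, hJ⟩ := Rec.exists_neg q hq hs
    have hodd : Odd n := by
      rw [Nat.odd_iff]; omega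
    refine ⟨n, hodd, ?_⟩
    rw [Rec.jac_eq D a q hq hD n hodd, hn, hJ]
    have : Rec.c D a q 1 = 1 := by
      unfold Rec.c qrSign
      rw [jacobiSym.one_right, jacobiSym.one_right]
      have : ZMod.χ₄ ((1 : ℕ) : ZMod 4) = 1 := by decide
      rw [this, jacobiSym.one_left]
      simp
    rw [this]
    norm_num

end Pool.Agent.H568.GR
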