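import Pool.Agent.H568.GR.Stm

set_option autoImplicit false

/-! # The iterated van der Corput inequality with periodic factors removed -/

namespace Pool.Agent.H568.GR

open Finset

namespace Vdc

theorem shift_le (F : ℤ → ℝ) (hF : ∀ n, |F n| ≤ 1) (N : ℕ) (s : ℕ) : ∀ A : ℤ,
    |∑ n ∈ range N, F (A + n) - ∑ n ∈ range N, F (A + n + s)| ≤ 2 * s := by
  induction s with
  | zero => intro A; simp
  | succ s ih =>
    intro A
    have h1 := ih A
    have h2 : |∑ n ∈ range N, F (A + n + s) -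
        ∑ n ∈ range N, F (A + n + ((s + 1 : ℕ) : ℤ))| ≤ 2 := by
      rw [← sum_sub_distrib]
      have h3 : ∀ n ∈ range N, F (A + n + s) - F (A + n + ((s + 1 : ℕ) : ℤ)) =
          (fun m : ℕ => F (A + m + s)) n - (fun m : ℕ => F (A + m + s)) (n + 1) := by
        intro n _
        have h4 : A + (n : ℤ) + ((s + 1 : ℕ) : ℤ) = A + ((n + 1 : ℕ) : ℤ) + s := by
          push_cast; ring
        simp only [h4]
      rw [sum_congr rfl h3, sum_range_sub']
      have a1 := abs_le.mp (hF (A + ((0 : ℕ) : ℤ) + s))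
      have a2 := abs_le.mp (hF (A + (N : ℤ) + s))
      rw [abs_le]
      constructor
      · show (-2 : ℝ) ≤ F (A + ((0 : ℕ) : ℤ) + s) - F (A + (N : ℤ) + s)
        linarith [a1.1, a2.2]
      · show F (A + ((0 : ℕ) : ℤ) + s) - F (A + (N : ℤ) + s) ≤ 2
        linarith [a1.2, a2.1]
    have h5 := abs_sub_le (∑ n ∈ range N, F (A + n)) (∑ n ∈ range N, F (A + n + s))
      (∑ n ∈ range N, F (A + n + ((s + 1 : ℕ) : ℤ)))
    push_cast at h2 h5 ⊢
    linarith

theorem per (w : ℤ → ℝ) (q : ℕ) (hw : ∀ n, w (n + q) = w n) (n : ℤ) (h : ℕ) :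
    w (n + q * h) = w n := by
  induction h with
  | zero => simp
  | succ h ih =>
    have h1 := hw (n + q * h)
    rw [ih] at h1
    rw [← h1]
    congr 1
    push_cast; ring

theorem step (w G : ℤ → ℝ) (q : ℕ) (A : ℤ) (N H : ℕ) (δ : ℝ) (hN : 1 ≤ N) (hH : 1 ≤ H)
    (hδ : 0 ≤ δ) (hδ1 : δ ≤ 1) (hw : ∀ n, |w n| ≤ 1) (hG : ∀ n, |G n| ≤ 1)
    (hp : ∀ n, w (n + q) = w n) (hq : (q : ℝ) * H ≤ δ * N) :
    (|∑ n ∈ range N, w (A + n) * G (A + n)| / N) ^ 2 ≤
      8 * δ + 2 * ((∑ h : Fin H, ∑ h' : Fin H,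
        |∑ n ∈ range N, G (A + n + q * (h : ℕ)) * G (A + n + q * (h' : ℕ))| / N) / (H : ℝ) ^ 2) := by
  have hN' : (0 : ℝ) < N := by exact_mod_cast hN
  have hH' : (0 : ℝ) < H := by exact_mod_cast hH
  set S : ℝ := ∑ n ∈ range N, w (A + n) * G (A + n) with hS
  set R : ℝ := ∑ n ∈ range N, |∑ h : Fin H, G (A + n + q * (h : ℕ))| with hR
  set T : ℝ := ∑ h : Fin H, ∑ h' : Fin H,
        |∑ n ∈ range N, G (A + n + q * (h : ℕ)) * G (A + n + q * (h' : ℕ))| with hT
  have hR0 : 0 ≤ R := sum_nonneg fun _ _ => abs_nonneg _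
  have hT0 : 0 ≤ T := sum_nonneg fun _ _ => sum_nonneg fun _ _ => abs_nonneg _
  -- each shifted sum is close to `S`
  have h1 : ∀ h : Fin H, |S - ∑ n ∈ range N, w (A + n) * G (A + n + q * (h : ℕ))| ≤ 2 * δ * N := by
    intro h
    have h2 := shift_le (fun n => w n * G n) (fun n => by
      rw [abs_mul]; exact mul_le_one₀ (hw n) (abs_nonneg _) (hG n)) N (q * h) A
    have h3 : ∀ n ∈ range N, w (A + n) * G (A + n + q * (h : ℕ)) =
        (fun n => w n * G n) (A + n + ((q * h : ℕ) : ℤ)) := by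
      intro n _
      have h4 := per w q hp (A + n) h
      simp only
      push_cast
      rw [h4]
    rw [hS, sum_congr rfl h3]
    refine h2.trans ?_
    push_cast
    have h5 : (h : ℝ) ≤ H := by
      have := h.2
      exact_mod_cast this.le
    have h6 : (q : ℝ) * h ≤ q * H := mul_le_mul_of_nonneg_left h5 (Nat.cast_nonneg _)
    linarith
  -- averaging
  have h2 : (H : ℝ) * |S| ≤ 2 * δ * N * H + R := by
    have h3 : (H : ℝ) * S = (∑ h : Fin H, (S - ∑ n ∈ range N, w (A + n) * G (A + n + q * (h : ℕ)))) +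
        ∑ h : Fin H, ∑ n ∈ range N, w (A + n) * G (A + n + q * (h : ℕ)) := by
      rw [← sum_add_distrib]
      simp
    have h4 : |∑ h : Fin H, (S - ∑ n ∈ range N, w (A + n) * G (A + n + q * (h : ℕ)))| ≤
        2 * δ * N * H := by
      refine (abs_sum_le_sum_abs _ _).trans ?_
      refine (sum_le_sum fun h _ => h1 h).trans ?_
      simp
      linarith
    have h5 : |∑ h : Fin H, ∑ n ∈ range N, w (A + n) * G (A + n + q * (h : ℕ))| ≤ R := by
      rw [sum_comm]
      refine (abs_sum_le_sum_abs _ _).trans ?_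
      refine sum_le_sum fun n _ => ?_
      rw [← mul_sum, abs_mul]
      exact mul_le_of_le_one_left (abs_nonneg _) (hw _)
    calc (H : ℝ) * |S| = |(H : ℝ) * S| := by rw [abs_mul, abs_of_pos hH']
      _ ≤ _ := by
        rw [h3]
        exact (abs_add_le _ _).trans (add_le_add h4 h5)
  -- Cauchy-Schwarz
  have h3 : R ^ 2 ≤ N * T := by
    have h4 : R ^ 2 ≤ N * ∑ n ∈ range N, (∑ h : Fin H, G (A + n + q * (h : ℕ))) ^ 2 := by
      have h5 := sq_sum_le_card_mul_sum_sq (s := range N)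
        (f := fun n : ℕ => |∑ h : Fin H, G (A + n + q * (h : ℕ))|)
      simp only [card_range, sq_abs] at h5
      exact h5
    refine h4.trans (mul_le_mul_of_nonneg_left ?_ hN'.le)
    have h6 : ∑ n ∈ range N, (∑ h : Fin H, G (A + n + q * (h : ℕ))) ^ 2 =
        ∑ h : Fin H, ∑ h' : Fin H,
          ∑ n ∈ range N, G (A + n + q * (h : ℕ)) * G (A + n + q * (h' : ℕ)) := by
      simp_rw [sq, sum_mul_sum]
      rw [sum_comm]
      refine sum_congr rfl fun h _ => ?_
      rw [sum_comm]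
    rw [h6]
    exact sum_le_sum fun h _ => sum_le_sum fun h' _ => le_abs_self _
  have h4 : |S| / N ≤ 2 * δ + R / (H * N) := by
    rw [div_le_iff₀ hN']
    have h5 : (2 * δ + R / (H * N)) * N = (2 * δ * N * H + R) / H := by
      field_simp
    rw [h5, le_div_iff₀ hH']
    linarith
  have h5 : (|S| / N) ^ 2 ≤ (2 * δ + R / (H * N)) ^ 2 :=
    pow_le_pow_left₀ (by positivity) h4 2
  have h6 : (2 * δ + R / (H * N)) ^ 2 ≤ 2 * ((2 * δ) ^ 2 + (R / (H * N)) ^ 2) := by
    nlinarith [sq_nonneg (2 * δ - R / (H * N))]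
  have h7 : (R / (H * N)) ^ 2 ≤ (T / N) / (H : ℝ) ^ 2 := by
    rw [div_pow, div_div, div_le_div_iff₀ (by positivity) (by positivity)]
    have h8 := mul_le_mul_of_nonneg_right h3 (show (0 : ℝ) ≤ N * H ^ 2 by positivity)
    nlinarith [h8]
  have h8 : (2 * δ) ^ 2 ≤ 4 * δ := by nlinarith
  have h9 : (∑ h : Fin H, ∑ h' : Fin H,
      |∑ n ∈ range N, G (A + n + q * (h : ℕ)) * G (A + n + q * (h' : ℕ))| / N) = T / N := by
    rw [hT, sum_div]
    refine sum_congr rfl fun h _ => ?_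
    rw [sum_div]
  rw [h9]
  linarith

/-- power mean over pairs -/
theorem pm (H m : ℕ) (hH : 1 ≤ H) (a : Fin H → Fin H → ℝ) (ha : ∀ i j, 0 ≤ a i j) :
    ((∑ i, ∑ j, a i j) / (H : ℝ) ^ 2) ^ m ≤ (∑ i, ∑ j, a i j ^ m) / (H : ℝ) ^ 2 := by
  have hH' : (0 : ℝ) < H := by exact_mod_cast hH
  have h := Real.pow_arith_mean_le_arith_mean_pow (univ : Finset (Fin H × Fin H))
    (fun _ => 1 / (H : ℝ) ^ 2) (fun p => a p.1 p.2) (fun _ _ => by positivity)
    (by simp; field_simp) (fun p _ => ha _ _) m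
  rw [← mul_sum, ← mul_sum, Fintype.sum_prod_type, Fintype.sum_prod_type] at h
  rw [div_eq_inv_mul, div_eq_inv_mul]
  rw [one_div] at h
  exact h

theorem sumCons {k H : ℕ} (f : (Fin (k + 1) → Fin H) → ℝ) :
    ∑ h, f h = ∑ a : Fin H, ∑ b : Fin k → Fin H, f (Fin.cons a b) := by
  rw [← (Fin.consEquiv (fun _ : Fin (k + 1) => Fin H)).sum_comp, Fintype.sum_prod_type]
  rfl

theorem prodCons {k : ℕ} (f : (Fin (k + 1) → Bool) → ℝ) :
    ∏ h, f h = (∏ b : Fin k → Bool, f (Fin.cons true b)) *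
      ∏ b : Fin k → Bool, f (Fin.cons false b) := by
  rw [← (Fin.consEquiv (fun _ : Fin (k + 1) => Bool)).prod_comp, Fintype.prod_prod_type,
    Fintype.prod_bool]
  rfl

theorem sh_cons {k H : ℕ} (Q : Fin (k + 1) → ℕ) (a a' : Fin H) (b b' : Fin k → Fin H) (c : Bool)
    (ω : Fin k → Bool) :
    sh Q (fun i => (((Fin.cons a b : Fin (k + 1) → Fin H) i : ℕ) : ℤ))
      (fun i => (((Fin.cons a' b' : Fin (k + 1) → Fin H) i : ℕ) : ℤ)) (Fin.cons c ω) =
    (Q 0 : ℤ) * (if c then ((a : ℕ) : ℤ) else ((a' : ℕ) : ℤ)) +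
      sh (fun i => Q i.succ) (fun i => ((b i : ℕ) : ℤ)) (fun i => ((b' i : ℕ) : ℤ)) ω := by
  unfold sh
  rw [Fin.sum_univ_succ]
  simp only [Fin.cons_zero, Fin.cons_succ]

end Vdc

open Vdc

theorem vdc : S_VDC := by
  intro k
  induction k with
  | zero =>
    refine ⟨1, le_refl 1, ?_⟩
    intro Q w g A N H δ hN hH hδ hδ1 hw hg hp hq
    simp [sh]
    exact hδ
  | succ k ih =>
    obtain ⟨C, hC1, hC⟩ := ih
    have hC0 : (0 : ℝ) ≤ C := le_trans zero_le_one hC1
    refine ⟨2 ^ (2 ^ k - 1) * 8 ^ (2 ^ k) * (1 + C), ?_, ?_⟩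
    · have a1 : (1 : ℝ) ≤ 2 ^ (2 ^ k - 1) := one_le_pow₀ (by norm_num)
      have a2 : (1 : ℝ) ≤ 8 ^ (2 ^ k) := one_le_pow₀ (by norm_num)
      have a3 : (1 : ℝ) ≤ 2 ^ (2 ^ k - 1) * 8 ^ (2 ^ k) := by nlinarith
      nlinarith
    intro Q w g A N H δ hN hH hδ hδ1 hw hg hp hq
    have hN' : (0 : ℝ) < N := by exact_mod_cast hN
    have hH' : (0 : ℝ) < H := by exact_mod_cast hH
    set m : ℕ := 2 ^ k with hm
    have hm1 : 1 ≤ m := Nat.one_le_two_pow
    set G : ℤ → ℝ := fun n => (∏ i : Fin k, w i.succ n) * g n with hGdef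
    have hG : ∀ n, |G n| ≤ 1 := by
      intro n
      rw [hGdef]
      simp only
      rw [abs_mul, abs_prod]
      exact mul_le_one₀ (prod_le_one (fun i _ => abs_nonneg _) (fun i _ => hw _ _))
        (abs_nonneg _) (hg n)
    have hS : ∀ n ∈ range N, (∏ i, w i (A + n)) * g (A + n) = w 0 (A + n) * G (A + n) := by
      intro n _
      rw [Fin.prod_univ_succ, hGdef]
      simp only
      ring
    rw [sum_congr rfl hS]
    have h1 := step (w 0) G (Q 0) A N H δ hN hH hδ hδ1 (hw 0) hG (hp 0) (hq 0)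
    set a : Fin H → Fin H → ℝ := fun h h' =>
      |∑ n ∈ range N, G (A + n + Q 0 * (h : ℕ)) * G (A + n + Q 0 * (h' : ℕ))| / N with ha
    set E : Fin H → Fin H → ℝ := fun h h' => (∑ b : Fin k → Fin H, ∑ b' : Fin k → Fin H,
      |∑ n ∈ range N, ∏ ω : Fin (k + 1) → Bool,
        g (A + n + sh Q (fun i => (((Fin.cons h b : Fin (k + 1) → Fin H) i : ℕ) : ℤ))
          (fun i => (((Fin.cons h' b' : Fin (k + 1) → Fin H) i : ℕ) : ℤ)) ω)| / N) /
        (H : ℝ) ^ (2 * k) with hE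
    have ha0 : ∀ i j, 0 ≤ a i j := fun i j => by positivity
    -- the induction hypothesis
    have h2 : ∀ h h', a h h' ^ m ≤ C * (δ + E h h') := by
      intro h h'
      have h3 := hC (fun i => Q i.succ)
        (fun i x => w i.succ (x + Q 0 * (h : ℕ)) * w i.succ (x + Q 0 * (h' : ℕ)))
        (fun x => g (x + Q 0 * (h : ℕ)) * g (x + Q 0 * (h' : ℕ))) A N H δ hN hH hδ hδ1
        (fun i n => by
          rw [abs_mul]; exact mul_le_one₀ (hw _ _) (abs_nonneg _) (hw _ _))
        (fun n => by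
          rw [abs_mul]; exact mul_le_one₀ (hg _) (abs_nonneg _) (hg _))
        (fun i n => by
          have e1 := hp i.succ (n + Q 0 * (h : ℕ))
          have e2 := hp i.succ (n + Q 0 * (h' : ℕ))
          rw [add_right_comm] at e1 e2
          show w i.succ (n + (Q i.succ : ℕ) + Q 0 * (h : ℕ)) *
            w i.succ (n + (Q i.succ : ℕ) + Q 0 * (h' : ℕ)) = _
          rw [e1, e2])
        (fun i => hq i.succ)
      have h4 : ∀ n ∈ range N,
          (∏ i : Fin k, w i.succ (A + n + Q 0 * (h : ℕ)) * w i.succ (A + n + Q 0 * (h' : ℕ))) *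
            (g (A + n + Q 0 * (h : ℕ)) * g (A + n + Q 0 * (h' : ℕ))) =
          G (A + n + Q 0 * (h : ℕ)) * G (A + n + Q 0 * (h' : ℕ)) := by
        intro n _
        rw [prod_mul_distrib, hGdef]
        simp only
        ring
      rw [sum_congr rfl h4] at h3
      refine h3.trans (le_of_eq ?_)
      congr 2
      rw [hE]
      simp only
      congr 1
      refine sum_congr rfl fun b _ => sum_congr rfl fun b' _ => ?_
      congr 2
      refine sum_congr rfl fun n _ => ?_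
      rw [prodCons, ← prod_mul_distrib]
      refine prod_congr rfl fun ω _ => ?_
      rw [sh_cons, sh_cons]
      congr 2
      · simp; ring
      · simp; ring
    have h5 : (∑ h : Fin H, ∑ h' : Fin H, a h h' ^ m) / (H : ℝ) ^ 2 ≤
        C * (δ + (∑ h : Fin H, ∑ h' : Fin H, E h h') / (H : ℝ) ^ 2) := by
      have h6 : ∑ h : Fin H, ∑ h' : Fin H, a h h' ^ m ≤
          ∑ h : Fin H, ∑ h' : Fin H, C * (δ + E h h') :=
        sum_le_sum fun h _ => sum_le_sum fun h' _ => h2 h h'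
      have h7 : ∑ h : Fin H, ∑ h' : Fin H, C * (δ + E h h') =
          C * (δ * (H : ℝ) ^ 2 + ∑ h : Fin H, ∑ h' : Fin H, E h h') := by
        simp_rw [mul_add, sum_add_distrib, ← mul_sum]
        simp only [sum_const, card_univ, Fintype.card_fin, nsmul_eq_mul]
        ring
      rw [div_le_iff₀ (by positivity)]
      rw [h7] at h6
      refine h6.trans (le_of_eq ?_)
      field_simp
    have h8 : (∑ h : Fin H, ∑ h' : Fin H, E h h') / (H : ℝ) ^ 2 =
        (∑ h : Fin (k + 1) → Fin H, ∑ h' : Fin (k + 1) → Fin H,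
          |∑ n ∈ range N, ∏ ω : Fin (k + 1) → Bool,
            g (A + n + sh Q (fun i => ((h i : ℕ) : ℤ)) (fun i => ((h' i : ℕ) : ℤ)) ω)| / N) /
              (H : ℝ) ^ (2 * (k + 1)) := by
      rw [hE]
      simp only
      rw [sumCons]
      simp_rw [sumCons (k := k), ← sum_div]
      rw [div_div, ← pow_add]
      congr 1
      congr 1
      refine sum_congr rfl fun h _ => ?_
      rw [sum_comm]
    set X : ℝ := (∑ h : Fin H, ∑ h' : Fin H, E h h') / (H : ℝ) ^ 2 with hX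
    rw [← h8]
    have hX0 : 0 ≤ X := by
      rw [hX]
      refine div_nonneg (sum_nonneg fun h _ => sum_nonneg fun h' _ => ?_) (by positivity)
      rw [hE]
      positivity
    set av : ℝ := (∑ h : Fin H, ∑ h' : Fin H, a h h') / (H : ℝ) ^ 2 with hav
    have hav0 : 0 ≤ av := by
      rw [hav]
      exact div_nonneg (sum_nonneg fun h _ => sum_nonneg fun h' _ => ha0 _ _) (by positivity)
    have h9 : av ^ m ≤ C * (δ + X) := (pm H m hH a ha0).trans h5
    have h10 : (|∑ n ∈ range N, w 0 (A + n) * G (A + n)| / N) ^ (2 ^ (k + 1)) ≤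
        (8 * δ + 2 * av) ^ m := by
      rw [pow_succ, mul_comm (2 ^ k) 2, pow_mul]
      exact pow_le_pow_left₀ (by positivity) h1 _
    refine h10.trans ?_
    refine (add_pow_le (by positivity) (by positivity) m).trans ?_
    rw [mul_assoc, mul_assoc]
    refine mul_le_mul_of_nonneg_left ?_ (by positivity)
    have h11 : (8 * δ) ^ m ≤ 8 ^ m * δ := by
      rw [mul_pow]
      refine mul_le_mul_of_nonneg_left ?_ (by positivity)
      calc δ ^ m ≤ δ ^ 1 := pow_le_pow_of_le_one hδ hδ1 hm1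
        _ = δ := pow_one δ
    have h12 : (2 * av) ^ m ≤ 8 ^ m * (C * (δ + X)) := by
      rw [mul_pow]
      refine mul_le_mul ?_ h9 (by positivity) (by positivity)
      exact pow_le_pow_left₀ (by norm_num) (by norm_num) m
    have h13 : (8 : ℝ) ^ m * δ + 8 ^ m * (C * (δ + X)) ≤ 8 ^ m * ((1 + C) * (δ + X)) := by
      rw [← mul_add]
      refine mul_le_mul_of_nonneg_left ?_ (by positivity)
      nlinarith
    linarith

end Pool.Agent.H568.GR
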