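import Pool.Agent.H568.GR.Stm
import Pool.Agent.H341R2.WeilSharp

/-!
# GR-WEIL: complete cube sums modulo a prime by the Weil bound (helper408)
-/

set_option autoImplicit false

namespace Pool.Agent.H568.GR

open Finset Polynomial

namespace Weil

/-- the polynomial of the cube -/
noncomputable def cf {k : ℕ} (p : ℕ) (s : (Fin k → Bool) → ZMod p) : (ZMod p)[X] :=
  ∏ ω : Fin k → Bool, (X + C (s ω))

theorem cf_monic {k : ℕ} (p : ℕ) [Fact p.Prime] (s : (Fin k → Bool) → ZMod p) :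
    (cf p s).Monic :=
  monic_prod_of_monic _ _ fun ω _ => monic_X_add_C _

theorem cf_natDegree {k : ℕ} (p : ℕ) [Fact p.Prime] (s : (Fin k → Bool) → ZMod p) :
    (cf p s).natDegree = 2 ^ k := by
  rw [cf, natDegree_prod_of_monic _ _ fun ω _ => monic_X_add_C _]
  simp

theorem cf_ne_sq {k : ℕ} (p : ℕ) [Fact p.Prime] (s : (Fin k → Bool) → ZMod p)
    (hs : ∀ ω, ω ≠ (fun _ => false) → s ω ≠ s (fun _ => false)) (c : ZMod p)
    (g : (ZMod p)[X]) : cf p s ≠ C c * g ^ 2 := by
  classical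
  intro h
  set ω0 : Fin k → Bool := fun _ => false with hω0
  have hsplit : cf p s = (X + C (s ω0)) * ∏ ω ∈ univ.erase ω0, (X + C (s ω)) := by
    rw [cf, mul_prod_erase univ (fun ω => X + C (s ω)) (mem_univ ω0)]
  set r : (ZMod p)[X] := ∏ ω ∈ univ.erase ω0, (X + C (s ω)) with hr
  have hr0 : r.eval (- s ω0) ≠ 0 := by
    rw [hr, eval_prod, prod_ne_zero_iff]
    intro ω hω
    rw [eval_add, eval_X, eval_C]
    intro h1
    exact hs ω (ne_of_mem_erase hω) (by linear_combination h1)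
  have hc : c ≠ 0 := by
    rintro rfl
    have := (cf_monic p s).ne_zero
    apply this
    rw [h]
    simp
  have hg0 : g.eval (- s ω0) = 0 := by
    have h1 : (cf p s).eval (- s ω0) = 0 := by
      rw [hsplit, eval_mul]
      simp
    rw [h, eval_mul, eval_C, eval_pow] at h1
    have h2 := (mul_eq_zero.1 h1).resolve_left hc
    exact pow_eq_zero_iff (two_ne_zero) |>.1 h2
  have hd1 : (derivative (cf p s)).eval (- s ω0) = r.eval (- s ω0) := by
    rw [hsplit, derivative_mul]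
    simp
  have hd2 : (derivative (cf p s)).eval (- s ω0) = 0 := by
    rw [h, derivative_mul, derivative_C, zero_mul, zero_add, eval_mul, derivative_pow]
    simp [hg0]
  exact hr0 (hd1 ▸ hd2)

theorem sum_eq {k : ℕ} (p : ℕ) [Fact p.Prime] (Q : Fin k → ℕ) (h h' : Fin k → ℤ) :
    (∑ x ∈ range p, ∏ ω : Fin k → Bool, ((jacobiSym ((x : ℤ) + sh Q h h' ω) p : ℤ) : ℝ)) =
      ∑ x : ZMod p, (quadraticChar (ZMod p)
        ((cf p (fun ω => ((sh Q h h' ω : ℤ) : ZMod p))).eval x) : ℝ) := by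
  have hterm : ∀ x : ℕ, ∏ ω : Fin k → Bool, ((jacobiSym ((x : ℤ) + sh Q h h' ω) p : ℤ) : ℝ) =
      (quadraticChar (ZMod p)
        ((cf p (fun ω => ((sh Q h h' ω : ℤ) : ZMod p))).eval (x : ZMod p)) : ℝ) := by
    intro x
    rw [cf, eval_prod, map_prod, Int.cast_prod]
    refine prod_congr rfl fun ω _ => ?_
    rw [← jacobiSym.legendreSym.to_jacobiSym, legendreSym]
    simp
  simp_rw [hterm]
  refine sum_bij (fun x _ => (x : ZMod p)) (fun x _ => mem_univ _) ?_ ?_ (fun _ _ => rfl)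
  · intro a ha b hb hab
    rw [mem_range] at ha hb
    have := (ZMod.natCast_eq_natCast_iff' a b p).1 hab
    rwa [Nat.mod_eq_of_lt ha, Nat.mod_eq_of_lt hb] at this
  · intro b _
    exact ⟨b.val, mem_range.2 (ZMod.val_lt b), ZMod.natCast_zmod_val b⟩

theorem sh_sub {k : ℕ} (Q : Fin k → ℕ) (h h' : Fin k → ℤ) (ω : Fin k → Bool) :
    sh Q h h' ω - sh Q h h' (fun _ => false) =
      ∑ i ∈ univ.filter (fun i => ω i = true), (Q i : ℤ) * (h i - h' i) := by
  rw [sh, sh, ← sum_sub_distrib, sum_filter]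
  refine sum_congr rfl fun i _ => ?_
  by_cases hi : ω i = true
  · simp [hi]; ring
  · simp [hi]

end Weil

theorem weil : S_WEIL := by
  intro k hk Q h h' p hp hp2 hs
  haveI : Fact p.Prime := ⟨hp⟩
  have hchar : ringChar (ZMod p) ≠ 2 := by
    rw [ZMod.ringChar_zmod_n]; exact hp2
  set s : (Fin k → Bool) → ZMod p := fun ω => ((sh Q h h' ω : ℤ) : ZMod p) with hsdef
  have hne : ∀ ω, ω ≠ (fun _ => false) → s ω ≠ s (fun _ => false) := by
    intro ω hω heq
    have h1 : (((sh Q h h' ω - sh Q h h' (fun _ => false) : ℤ)) : ZMod p) = 0 := by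
      push_cast
      rw [sub_eq_zero]
      exact heq
    rw [Weil.sh_sub, ZMod.intCast_zmod_eq_zero_iff_dvd] at h1
    refine hs (univ.filter (fun i => ω i = true)) ?_ h1
    by_contra hemp
    rw [not_nonempty_iff_eq_empty, filter_eq_empty_iff] at hemp
    apply hω
    funext i
    have := hemp (mem_univ i)
    simpa using this
  have hW := Pool.Agent.H341R2.Sharp.weil_sharp hchar (Weil.cf p s)
    (by rw [Weil.cf_natDegree]; exact Nat.one_le_two_pow) (Weil.cf_ne_sq p s hne)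
  rw [Weil.cf_natDegree, ZMod.card] at hW
  rw [cp, Weil.sum_eq]
  have hp0 : (0 : ℝ) < p := by exact_mod_cast hp.pos
  have hsq : (0 : ℝ) < √(p : ℝ) := Real.sqrt_pos.2 hp0
  rw [div_le_div_iff₀ hp0 hsq]
  calc _ ≤ (((2 ^ k : ℕ) : ℝ) - 1) * √(p : ℝ) * √(p : ℝ) :=
        mul_le_mul_of_nonneg_right hW hsq.le
    _ = (((2 ^ k : ℕ) : ℝ) - 1) * p := by
        rw [mul_assoc, Real.mul_self_sqrt hp0.le]
    _ ≤ 2 ^ k * p := by
        push_cast
        nlinarith

end Pool.Agent.H568.GR
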