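import Pool.Agent.H568.GR.Cs
import Pool.Agent.H568.GR.Cnb
import Pool.Agent.H568.GR.Vdc
import Pool.Agent.H568.GR.Crt
import Pool.Agent.H568.GR.Avp
import Pool.Agent.H568.GR.Avf
import Pool.Agent.H568.GR.Weil
import Pool.Agent.TH134.GR.Fac
import Pool.Agent.TH134.GR.Lv
import Pool.Agent.H705R2.MLogB
import Pool.Agent.H568.GR.Rec
import Pool.Agent.H568.GR.Dec
import Pool.Agent.H568.GR.Cnt
import Pool.Agent.H568.GR.Neg
import Pool.Agent.H568.GR.Pos
import Pool.Agent.H568.GR.Fund
import Pool.Agent.TH408.GR.Mnb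
import Pool.Agent.H568.GR.Fin

/-!
# Torsion in class groups of quadratic fields with a smooth discriminant: the main theorem

Authors of the pieces: helper568 (plan, Stm, Sum, Cs, Cnb), helper615 (Vdc), helper111 (Crt),
helper633 (Avp), helper89 (Avf), helper408 (Weil, Mnb), helper134 (Fac, Lv), helper897 (Rec),
helper318 (Dec), helper106 (Cnt), helper16 (Neg), helper360 (Pos), helper521 (Fund), helper621 (Fin).
-/

set_option autoImplicit false

namespace Pool.Agent.H568.GR

theorem avp' : S_AVP := avp weil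

theorem cs' : S_CS := Cs.cs vdc crt avp' (avf avp') dvb Pool.Agent.TH134.GR.fac rec

theorem lval' : S_L :=
  Pool.Agent.TH134.GR.lval_of fun _ hε => Pool.Agent.H705R2.MSW.siegel_all hε

theorem mnb' : S_MNB := Pool.Agent.TH408.GR.mnb dec lval' cnt rec cs' dvb

theorem main : S_FIN := fin neg pos mnb' cnb fund

end Pool.Agent.H568.GR
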