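import Pool.Agent.H568.GR.Sum

set_option autoImplicit false

namespace Pool.Agent.H568.GR

open Finset Filter Topology

namespace Cs

theorem blocks (f : ℤ → ℝ) (hf : ∀ n, |f n| ≤ 1) (N : ℕ) (hN : 0 < N) (b : ℝ) (hb : 0 ≤ b)
    (h : ∀ A : ℤ, |∑ n ∈ range N, f (A + n)| ≤ N * b) (A : ℤ) (M : ℕ) :
    |∑ n ∈ range M, f (A + n)| ≤ M * b + N := by
  have h1 : ∀ (t : ℕ) (A : ℤ), |∑ n ∈ range (N * t), f (A + n)| ≤ (N * t : ℕ) * b := by
    intro t
    induction t with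
    | zero => intro A; simp
    | succ t ih =>
      intro A
      rw [Nat.mul_succ, sum_range_add]
      refine (abs_add_le _ _).trans ?_
      have e : ∑ x ∈ range N, f (A + ((N * t + x : ℕ) : ℤ)) =
          ∑ x ∈ range N, f ((A + ((N * t : ℕ) : ℤ)) + (x : ℤ)) := by
        refine sum_congr rfl fun x _ => ?_
        congr 1
        push_cast
        ring
      rw [e]
      have := add_le_add (ih A) (h (A + ((N * t : ℕ) : ℤ)))
      refine this.trans (le_of_eq ?_)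
      push_cast
      ring
  have h2 : ∀ (s : ℕ) (A : ℤ), |∑ n ∈ range s, f (A + n)| ≤ s := by
    intro s A
    refine (abs_sum_le_sum_abs _ _).trans ?_
    refine (sum_le_sum fun n _ => hf _).trans ?_
    simp
  have hM : M = N * (M / N) + M % N := (Nat.div_add_mod M N).symm
  have h3 : ∑ n ∈ range M, f (A + n) = ∑ n ∈ range (N * (M / N)), f (A + n) +
      ∑ n ∈ range (M % N), f ((A + ((N * (M / N) : ℕ) : ℤ)) + n) := by
    conv_lhs => rw [hM]
    rw [sum_range_add]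
    congr 1
    refine sum_congr rfl fun x _ => ?_
    congr 1
    push_cast
    ring
  rw [h3]
  refine (abs_add_le _ _).trans (add_le_add ((h1 _ A).trans ?_) ((h2 _ _).trans ?_))
  · exact mul_le_mul_of_nonneg_right (by exact_mod_cast Nat.mul_div_le M N) hb
  · exact_mod_cast (Nat.mod_lt M hN).le

theorem omega_bound (hD : S_DIV) (m : ℕ) : ∃ C : ℝ, 1 ≤ C ∧ ∀ r : ℕ, r ≠ 0 →
    ((2 : ℝ) ^ m) ^ r.primeFactors.card ≤ C * (r : ℝ) ^ (1 / 4 : ℝ) := by
  obtain ⟨C, hC, h⟩ := hD (1 / (4 * ((m : ℝ) + 1))) (by positivity)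
  refine ⟨C ^ m, one_le_pow₀ hC, fun r hr => ?_⟩
  have hr1 : (1 : ℝ) ≤ r := by exact_mod_cast Nat.one_le_iff_ne_zero.2 hr
  have h1 : (2 : ℝ) ^ r.primeFactors.card ≤ (r.divisors.card : ℝ) := by
    rw [Nat.card_divisors hr]
    have h2 : 2 ^ r.primeFactors.card ≤ ∏ x ∈ r.primeFactors, (r.factorization x + 1) := by
      apply Finset.pow_card_le_prod
      intro p hp
      have := (Nat.prime_of_mem_primeFactors hp).factorization_pos_of_dvd hr
        (Nat.dvd_of_mem_primeFactors hp)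
      omega
    exact_mod_cast h2
  calc ((2 : ℝ) ^ m) ^ r.primeFactors.card = ((2 : ℝ) ^ r.primeFactors.card) ^ m := by
        rw [← pow_mul, ← pow_mul, mul_comm]
    _ ≤ (C * (r : ℝ) ^ (1 / (4 * ((m : ℝ) + 1)))) ^ m :=
        pow_le_pow_left₀ (by positivity) (h1.trans (h r (Nat.one_le_iff_ne_zero.2 hr))) m
    _ = C ^ m * (r : ℝ) ^ (1 / (4 * ((m : ℝ) + 1)) * m) := by
        rw [mul_pow, ← Real.rpow_natCast ((r : ℝ) ^ (1 / (4 * ((m : ℝ) + 1)))) m,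
          ← Real.rpow_mul (by positivity)]
    _ ≤ C ^ m * (r : ℝ) ^ (1 / 4 : ℝ) := by
        apply mul_le_mul_of_nonneg_left _ (by positivity)
        apply Real.rpow_le_rpow_of_exponent_le hr1
        rw [div_mul_eq_mul_div, one_mul, div_le_div_iff₀ (by positivity) (by norm_num)]
        nlinarith

theorem ev_const (C a : ℝ) (ha : 0 < a) : ∀ᶠ P : ℝ in atTop, C ≤ P ^ a :=
  (tendsto_rpow_atTop ha).eventually_ge_atTop C

/-- the core estimate -/
theorem core (hV : S_VDC) (hCRT : S_CRT) (hP : S_AVP) (hF : S_AVF) (hD : S_DIV) (k : ℕ)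
    (hk : 1 ≤ k) : ∃ C : ℝ, 1 ≤ C ∧ ∀ (Q : Fin k → ℕ) (r : ℕ),
    Odd (r * ∏ i, Q i) → Squarefree (r * ∏ i, Q i) → ∀ (A : ℤ) (N : ℕ) (δ R Y : ℝ),
    1 ≤ N → 0 ≤ δ → δ ≤ 1 → 2 ≤ R → (∀ i, (Q i : ℝ) ≤ Y) → 0 ≤ Y → Y * R ^ 2 ≤ δ * N →
    (r : ℝ) ≤ δ * N → ((R ≤ r ∧ (r : ℝ) ≤ R ^ 2) ∨ (r.Prime ∧ R < r)) →
    (|∑ n ∈ range N, ((jacobiSym (A + n) (r * ∏ i, Q i) : ℤ) : ℝ)| / N) ^ (2 ^ k) ≤
      C * (δ + R ^ (-(1 / 4 : ℝ))) := by
  obtain ⟨C, hC, h⟩ := Sum.gen hV hCRT k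
  obtain ⟨C1, hC1, h1⟩ := omega_bound hD (k + 3)
  refine ⟨C * (2 + C1 + 2 ^ (k + 4)), ?_, ?_⟩
  · have : (1 : ℝ) ≤ 2 ^ (k + 4) := one_le_pow₀ (by norm_num)
    nlinarith
  intro Q r hodd hsq A N δ R Y hN hδ hδ1 hR hQY hY hYR hrN hcase
  have hN0 : (0 : ℝ) < N := by exact_mod_cast hN
  have hR0 : 0 < R := by linarith
  have hne : r * ∏ i, Q i ≠ 0 := hsq.ne_zero
  have hr : r ≠ 0 := left_ne_zero_of_mul hne
  have hro : Odd r := Nat.Odd.of_mul_left hodd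
  have hrs : Squarefree r := hsq.of_mul_left
  have hcop : ∀ i, Nat.Coprime r (Q i) := fun i =>
    (Nat.coprime_of_squarefree_mul hsq).coprime_dvd_right (dvd_prod_of_mem Q (mem_univ i))
  have hRr : R ≤ r := by
    rcases hcase with hc | hc
    · exact hc.1
    · exact hc.2.le
  have hr0 : (0 : ℝ) < r := by linarith
  have hR4 : 0 < R ^ (-(1 / 4 : ℝ)) := Real.rpow_pos_of_pos hR0 _
  have hrdiv : (r : ℝ) / N ≤ δ := by rwa [div_le_iff₀ hN0]
  -- the average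
  have key : ∃ H : ℕ, 1 ≤ H ∧ (∀ i, (Q i : ℝ) * H ≤ δ * N) ∧
      (∑ h : Fin k → Fin H, ∑ h' : Fin k → Fin H,
        ∏ p ∈ r.primeFactors, cp p Q (fun i => ((h i : ℕ) : ℤ)) (fun i => ((h' i : ℕ) : ℤ))) /
          (H : ℝ) ^ (2 * k) ≤ (C1 + 2 ^ (k + 4)) * R ^ (-(1 / 4 : ℝ)) := by
    rcases hcase with hc | hc
    · refine ⟨r, Nat.one_le_iff_ne_zero.2 hr, fun i => ?_, ?_⟩
      · calc (Q i : ℝ) * r ≤ Y * R ^ 2 :=
              mul_le_mul (hQY i) hc.2 hr0.le hY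
          _ ≤ δ * N := hYR
      · refine (hF k hk Q r hro hrs hcop).trans ?_
        have e : (2 : ℝ) ^ (k + 3) = (2 : ℝ) ^ (k + 3) := rfl
        have h2 := h1 r hr
        have hs : √(r : ℝ) = (r : ℝ) ^ (1 / 2 : ℝ) := Real.sqrt_eq_rpow _
        rw [hs]
        calc ((2 : ℝ) ^ (k + 3)) ^ r.primeFactors.card / (r : ℝ) ^ (1 / 2 : ℝ)
            ≤ C1 * (r : ℝ) ^ (1 / 4 : ℝ) / (r : ℝ) ^ (1 / 2 : ℝ) :=
              div_le_div_of_nonneg_right h2 (by positivity)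
          _ = C1 * (r : ℝ) ^ (-(1 / 4 : ℝ)) := by
              rw [mul_div_assoc, ← Real.rpow_sub hr0]
              norm_num
          _ ≤ C1 * R ^ (-(1 / 4 : ℝ)) := by
              apply mul_le_mul_of_nonneg_left _ (by linarith)
              exact Real.rpow_le_rpow_of_nonpos hR0 hRr (by norm_num)
          _ ≤ (C1 + 2 ^ (k + 4)) * R ^ (-(1 / 4 : ℝ)) := by
              apply mul_le_mul_of_nonneg_right _ hR4.le
              have : (0 : ℝ) ≤ 2 ^ (k + 4) := by positivity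
              linarith
    · have hHR : (⌊R⌋₊ : ℝ) ≤ R := Nat.floor_le hR0.le
      have hHR2 : R / 2 ≤ (⌊R⌋₊ : ℝ) := by
        have := (Nat.lt_floor_add_one R).le
        linarith
      have hH1 : 1 ≤ ⌊R⌋₊ := by
        rw [Nat.one_le_floor_iff]
        linarith
      refine ⟨⌊R⌋₊, hH1, fun i => ?_, ?_⟩
      · calc (Q i : ℝ) * ⌊R⌋₊ ≤ Y * R := mul_le_mul (hQY i) hHR (by positivity) hY
          _ ≤ Y * R ^ 2 := by
              apply mul_le_mul_of_nonneg_left _ hY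
              nlinarith
          _ ≤ δ * N := hYR
      · have h2 := hP k hk Q r ⌊R⌋₊ hc.1 (by
          rintro rfl
          exact absurd hro (by decide)) hH1 (fun i hi => by
          have := Nat.dvd_gcd (dvd_refl r) hi
          rw [(hcop i)] at this
          exact hc.1.one_lt.ne' (Nat.dvd_one.1 this))
        rw [hc.1.primeFactors]
        simp only [prod_singleton]
        refine h2.trans ?_
        have h3 : 1 / √(r : ℝ) ≤ R ^ (-(1 / 4 : ℝ)) := by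
          have hs : 1 / √(r : ℝ) = (r : ℝ) ^ (-(1 / 2 : ℝ)) := by
            rw [Real.sqrt_eq_rpow, Real.rpow_neg hr0.le, one_div]
          rw [hs]
          calc (r : ℝ) ^ (-(1 / 2 : ℝ)) ≤ R ^ (-(1 / 2 : ℝ)) :=
                Real.rpow_le_rpow_of_nonpos hR0 hRr (by norm_num)
            _ ≤ R ^ (-(1 / 4 : ℝ)) :=
                Real.rpow_le_rpow_of_exponent_le (by linarith) (by norm_num)
        have h4 : (1 : ℝ) / ⌊R⌋₊ ≤ 2 * R ^ (-(1 / 4 : ℝ)) := by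
          have h5 : (1 : ℝ) / ⌊R⌋₊ ≤ 2 * R ^ (-(1 : ℝ)) := by
            rw [Real.rpow_neg_one, div_le_iff₀ (by linarith)]
            have : 2 * R⁻¹ * (R / 2) = 1 := by field_simp
            have h6 : 0 ≤ 2 * R⁻¹ := by positivity
            nlinarith
          refine h5.trans ?_
          apply mul_le_mul_of_nonneg_left _ (by norm_num)
          exact Real.rpow_le_rpow_of_exponent_le (by linarith) (by norm_num)
        calc (2 : ℝ) ^ (k + 2) * (1 / √(r : ℝ) + 1 / (⌊R⌋₊ : ℝ))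
            ≤ 2 ^ (k + 2) * (R ^ (-(1 / 4 : ℝ)) + 2 * R ^ (-(1 / 4 : ℝ))) :=
              mul_le_mul_of_nonneg_left (add_le_add h3 h4) (by positivity)
          _ ≤ (C1 + 2 ^ (k + 4)) * R ^ (-(1 / 4 : ℝ)) := by
              have e : (2 : ℝ) ^ (k + 4) = 4 * 2 ^ (k + 2) := by ring
              rw [e]
              have : (0 : ℝ) < 2 ^ (k + 2) * R ^ (-(1 / 4 : ℝ)) := by positivity
              have h7 : 0 ≤ C1 * R ^ (-(1 / 4 : ℝ)) := by positivity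
              nlinarith
  obtain ⟨H, hH1, hH2, hH3⟩ := key
  refine (h Q r hodd hsq A N H δ _ hN hH1 hδ hδ1 hH2 hH3).trans ?_
  rw [mul_assoc]
  apply mul_le_mul_of_nonneg_left _ (by linarith)
  have hb : (0 : ℝ) ≤ 2 ^ (k + 4) := by positivity
  have h8 : 0 ≤ C1 * δ := by positivity
  have h9 : 0 ≤ 2 ^ (k + 4) * δ := by positivity
  nlinarith

/-- one block -/
theorem block (hV : S_VDC) (hCRT : S_CRT) (hP : S_AVP) (hF : S_AVF) (hD : S_DIV) (hFAC : S_FAC)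
    (θ ε : ℝ) (hε : 0 < ε) (hεθ : ε ≤ θ / 2) (hθ : θ ≤ 1) : ∃ δ : ℝ, 0 < δ ∧
    ∀ᶠ P : ℝ in atTop, ∀ q : ℕ, Odd q → Squarefree q → P / 8 ≤ q → (q : ℝ) ≤ P →
      (∀ p : ℕ, p.Prime → p ∣ q → (p : ℝ) ≤ P ^ (θ - ε)) → ∀ A : ℤ,
      |∑ n ∈ range ⌊P ^ (θ - ε / 2)⌋₊, ((jacobiSym (A + n) q : ℤ) : ℝ)| ≤
        ⌊P ^ (θ - ε / 2)⌋₊ * P ^ (-δ) := by
  have hθ0 : 0 < θ := by linarith
  obtain ⟨c, hc⟩ := exists_nat_ge (2 / θ)
  have hc1 : 1 ≤ c := by
    have : (1 : ℝ) < c := lt_of_lt_of_le (by rw [lt_div_iff₀ hθ0]; linarith) hc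
    have : 1 < c := by exact_mod_cast this
    omega
  set k := 2 * c + 1 with hk
  obtain ⟨C, hC, h⟩ := core hV hCRT hP hF hD k (by omega)
  set δ1 : ℝ := ε / (128 * 2 ^ k) with hδ1
  have hδ10 : 0 < δ1 := by positivity
  refine ⟨δ1, hδ10, ?_⟩
  filter_upwards [ev_const 2 (ε / 8) (by positivity), ev_const 2 (ε / 16) (by positivity),
    ev_const (2 * C) (ε / 128) (by positivity), ev_const 9 (1 - ε / 16) (by linarith),
    ev_const 2 (θ - ε / 2) (by linarith), eventually_ge_atTop (1 : ℝ)]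
    with P g1 g2 g3 g4 g5 g6 q hqo hqs hq1 hq2 hpr A
  have hP0 : 0 < P := by linarith
  set N := ⌊P ^ (θ - ε / 2)⌋₊ with hN
  have hNle : (N : ℝ) ≤ P ^ (θ - ε / 2) := Nat.floor_le (by positivity)
  have hNge : P ^ (θ - ε / 2) / 2 ≤ (N : ℝ) := by
    have := (Nat.lt_floor_add_one (P ^ (θ - ε / 2))).le
    rw [← hN] at this
    linarith
  have hN0 : (0 : ℝ) < N := by linarith
  have hN1 : 1 ≤ N := by exact_mod_cast hN0
  set R := P ^ (ε / 16) with hR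
  set Y := P ^ (θ - ε) with hY
  have hR2 : R ^ 2 = P ^ (ε / 8) := by
    rw [hR, ← Real.rpow_natCast, ← Real.rpow_mul hP0.le]
    congr 1
    push_cast
    ring
  have hRY : R ^ 2 ≤ Y := by
    rw [hR2, hY]
    exact Real.rpow_le_rpow_of_exponent_le g6 (by linarith)
  have hRq : R < q := by
    have h2 : R * P ^ (1 - ε / 16) = P := by
      rw [hR, ← Real.rpow_add hP0]
      simp
    have hR0 : 0 < R := by positivity
    nlinarith
  have hqY : (q : ℝ) ≤ Y ^ c := by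
    refine hq2.trans ?_
    rw [hY, ← Real.rpow_natCast, ← Real.rpow_mul hP0.le]
    have h2 : (1 : ℝ) ≤ (θ - ε) * c := by
      have h3 : 2 ≤ c * θ := by rwa [div_le_iff₀ hθ0] at hc
      have h4 : (0 : ℝ) ≤ c := Nat.cast_nonneg c
      nlinarith
    calc P = P ^ (1 : ℝ) := (Real.rpow_one P).symm
      _ ≤ _ := Real.rpow_le_rpow_of_exponent_le g6 h2
  obtain ⟨r, Q, hqr, hQY, hcase⟩ := hFAC c q Y R hc1 hqo hqs (by linarith) hRY hpr hqY hRq
  set δ : ℝ := P ^ (-(ε / 4)) with hδ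
  have hδ0 : 0 < δ := by positivity
  have hδle : δ ≤ 1 := Real.rpow_le_one_of_one_le_of_nonpos g6 (by linarith)
  have hYR : Y * R ^ 2 ≤ δ * N := by
    have h2 : Y * R ^ 2 * P ^ (ε / 8) = δ * P ^ (θ - ε / 2) := by
      rw [hR2, hY, hδ, ← Real.rpow_add hP0, ← Real.rpow_add hP0, ← Real.rpow_add hP0]
      congr 1
      ring
    have h3 : 0 < Y * R ^ 2 := by positivity
    have h4 : δ * (P ^ (θ - ε / 2) / 2) ≤ δ * N := mul_le_mul_of_nonneg_left hNge hδ0.le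
    nlinarith
  have hY0 : 0 < Y := by positivity
  have hrY : (r : ℝ) ≤ Y := by
    rcases hcase with hc' | hc'
    · exact hc'.2.trans hRY
    · exact hpr r hc'.1 (hqr ▸ Dvd.intro _ rfl)
  have hR1 : 1 ≤ R ^ 2 := by nlinarith
  have hrN : (r : ℝ) ≤ δ * N := by nlinarith
  have h2 := h Q r (hqr ▸ hqo) (hqr ▸ hqs) A N δ R Y hN1 hδ0.le hδle g2 hQY hY0.le hYR hrN hcase
  rw [← hqr] at h2
  have h3 : R ^ (-(1 / 4 : ℝ)) = P ^ (-(ε / 64)) := by
    rw [hR, ← Real.rpow_mul hP0.le]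
    congr 1
    ring
  have h4 : δ ≤ P ^ (-(ε / 64)) := Real.rpow_le_rpow_of_exponent_le g6 (by linarith)
  have h5 : C * (δ + R ^ (-(1 / 4 : ℝ))) ≤ (P ^ (-δ1)) ^ (2 ^ k) := by
    have h6 : (P ^ (-δ1)) ^ (2 ^ k) = P ^ (-(ε / 128)) := by
      rw [← Real.rpow_natCast, ← Real.rpow_mul hP0.le]
      congr 1
      rw [hδ1]
      push_cast
      field_simp
    rw [h6, h3]
    have h7 : P ^ (-(ε / 128)) = P ^ (ε / 128) * P ^ (-(ε / 64)) := by
      rw [← Real.rpow_add hP0]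
      congr 1
      ring
    rw [h7]
    have h8 : 0 < P ^ (-(ε / 64)) := by positivity
    calc C * (δ + P ^ (-(ε / 64))) ≤ C * (P ^ (-(ε / 64)) + P ^ (-(ε / 64))) :=
          mul_le_mul_of_nonneg_left (by linarith) (by linarith)
      _ = (2 * C) * P ^ (-(ε / 64)) := by ring
      _ ≤ _ := mul_le_mul_of_nonneg_right g3 h8.le
  have h6 := le_of_pow_le_pow_left₀ (by positivity) (by positivity) (h2.trans h5)
  rw [div_le_iff₀ hN0] at h6
  linarith

theorem cs (hV : S_VDC) (hCRT : S_CRT) (hP : S_AVP) (hF : S_AVF) (hD : S_DIV) (hFAC : S_FAC)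
    (hREC : S_REC) : S_CS := by
  intro θ ε hε hεθ hθ
  obtain ⟨δ1, hδ1, h⟩ := block hV hCRT hP hF hD hFAC θ ε hε hεθ hθ
  set δ : ℝ := min δ1 (ε / 2) / 2 with hδ
  have hδ0 : 0 < δ := by
    have : 0 < min δ1 (ε / 2) := lt_min hδ1 (by positivity)
    positivity
  have hδa : 2 * δ ≤ δ1 := by
    rw [hδ]
    have := min_le_left δ1 (ε / 2)
    linarith
  have hδb : 2 * δ ≤ ε / 2 := by
    rw [hδ]
    have := min_le_right δ1 (ε / 2)
    linarith
  obtain ⟨P0, hP0⟩ := eventually_atTop.1 (h.and ((ev_const 4 δ hδ0).and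
    ((eventually_ge_atTop (1 : ℝ)).and (ev_const 2 (θ - ε / 2) (by linarith)))))
  refine ⟨δ, P0, hδ0, fun D a q hDP ha hqo hqs hDq hpr x => ?_⟩
  obtain ⟨g1, g2, g3, g4⟩ := hP0 _ hDP
  set P := |(D : ℝ)| with hPd
  have hPp : 0 < P := by linarith
  have hPq : P = (2 : ℝ) ^ a * q := by
    have h2 : ((D.natAbs : ℕ) : ℝ) = P := by rw [hPd, Nat.cast_natAbs, Int.cast_abs]
    rw [← h2, hDq]
    push_cast
    ring
  have h2a : (1 : ℝ) ≤ 2 ^ a := one_le_pow₀ (by norm_num)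
  have h2b : (2 : ℝ) ^ a ≤ 8 := by
    calc (2 : ℝ) ^ a ≤ 2 ^ 3 := pow_le_pow_right₀ (by norm_num) ha
      _ = 8 := by norm_num
  have hq0 : (0 : ℝ) ≤ q := Nat.cast_nonneg q
  have hb := g1 q hqo hqs (by nlinarith) (by nlinarith) hpr
  set N := ⌊P ^ (θ - ε / 2)⌋₊ with hN
  have hNle : (N : ℝ) ≤ P ^ (θ - ε / 2) := Nat.floor_le (by positivity)
  have hNpos : 0 < N := by
    rw [hN, Nat.floor_pos]
    linarith
  have key := (hREC D a q hqo hDq).1 x (x * P ^ (-δ1) + P ^ (θ - ε / 2)) (by positivity) (by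
    intro A M hM
    have h3 := blocks (fun n => ((jacobiSym n q : ℤ) : ℝ)) (fun n => Sum.jac_abs n q) N hNpos
      (P ^ (-δ1)) (by positivity) hb A M
    refine h3.trans (add_le_add ?_ hNle)
    exact mul_le_mul_of_nonneg_right (by exact_mod_cast hM) (by positivity)) x le_rfl
  refine key.trans ?_
  have e1 : P ^ (-δ) = P ^ δ * P ^ (-(2 * δ)) := by
    rw [← Real.rpow_add hPp]
    congr 1
    ring
  have e2 : P ^ (-(2 * δ)) * P ^ θ = P ^ (θ - 2 * δ) := by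
    rw [← Real.rpow_add hPp]
    congr 1
    ring
  have h4 : P ^ (-δ1) ≤ P ^ (-(2 * δ)) := Real.rpow_le_rpow_of_exponent_le g3 (by linarith)
  have h5 : P ^ (θ - ε / 2) ≤ P ^ (θ - 2 * δ) := Real.rpow_le_rpow_of_exponent_le g3 (by linarith)
  have hx : (0 : ℝ) ≤ x := Nat.cast_nonneg x
  have h6 : 0 < P ^ (-(2 * δ)) := by positivity
  have h7 : 0 < P ^ θ := by positivity
  calc 4 * (x * P ^ (-δ1) + P ^ (θ - ε / 2)) ≤
      4 * (x * P ^ (-(2 * δ)) + P ^ (θ - 2 * δ)) := by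
        have := mul_le_mul_of_nonneg_left h4 hx
        linarith
    _ = 4 * (P ^ (-(2 * δ)) * (x + P ^ θ)) := by rw [← e2]; ring
    _ ≤ P ^ δ * (P ^ (-(2 * δ)) * (x + P ^ θ)) := mul_le_mul_of_nonneg_right g2 (by positivity)
    _ = P ^ (-δ) * (x + P ^ θ) := by rw [e1]; ring

end Cs

end Pool.Agent.H568.GR
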