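import Pool.Agent.H568.GR.Stm

/-! Factorisation of a number without large prime factors (helper574). -/

set_option autoImplicit false

namespace Pool.Agent.H568.GR.Fac

/-- a list with pairwise products larger than `Y` has a large product -/
theorem prod_lt {Y : ℝ} (hY : 1 ≤ Y) (l : List ℕ) (hp : l.Pairwise fun (a b : ℕ) => Y < (a : ℝ) * b)
    (h1 : ∀ a ∈ l, 1 ≤ a) (c : ℕ) (hlen : 2 * c ≤ l.length) : Y ^ c ≤ (l.prod : ℝ) := by
  induction c generalizing l with
  | zero =>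
    rw [pow_zero]
    have : 1 ≤ l.prod := List.one_le_prod_of_one_le h1
    exact_mod_cast this
  | succ c ih =>
    match l, hlen with
    | [], h => simp at h
    | [a], h => simp at h; omega
    | a :: b :: l', h =>
      rw [List.pairwise_cons] at hp
      obtain ⟨ha, hp'⟩ := hp
      rw [List.pairwise_cons] at hp'
      have h2 := ih l' hp'.2 (fun x hx => h1 x (by simp [hx])) (by simp at h; omega)
      have h3 := ha b (by simp)
      rw [List.prod_cons, List.prod_cons, Nat.cast_mul, Nat.cast_mul, pow_succ]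
      have h4 : 0 < Y ^ c := by positivity
      calc Y ^ c * Y ≤ (l'.prod : ℝ) * ((a : ℝ) * b) :=
            mul_le_mul h2 h3.le (by linarith) (by positivity)
        _ = (a : ℝ) * ((b : ℝ) * l'.prod) := by ring

theorem prod_lt' {Y : ℝ} (hY : 1 ≤ Y) (l : List ℕ) (hp : l.Pairwise fun (a b : ℕ) => Y < (a : ℝ) * b)
    (h1 : ∀ a ∈ l, 1 ≤ a) (c : ℕ) (hlen : 2 * c + 2 ≤ l.length) : Y ^ c < (l.prod : ℝ) := by
  match l, hlen with
  | [], h => simp at h
  | [a], h => simp at h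
  | a :: b :: l', h =>
    rw [List.pairwise_cons] at hp
    obtain ⟨ha, hp'⟩ := hp
    rw [List.pairwise_cons] at hp'
    have h2 := prod_lt hY l' hp'.2 (fun x hx => h1 x (by simp [hx])) c (by simp at h; omega)
    have h3 := ha b (by simp)
    rw [List.prod_cons, List.prod_cons, Nat.cast_mul, Nat.cast_mul]
    have h4 : 0 < Y ^ c := by positivity
    calc Y ^ c = Y ^ c * 1 := (mul_one _).symm
      _ < (l'.prod : ℝ) * ((a : ℝ) * b) := by
          have h5 : (1 : ℝ) < (a : ℝ) * b := by linarith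
          calc Y ^ c * 1 < Y ^ c * ((a : ℝ) * b) := mul_lt_mul_of_pos_left h5 h4
            _ ≤ (l'.prod : ℝ) * ((a : ℝ) * b) := mul_le_mul_of_nonneg_right h2 (by positivity)
      _ = (a : ℝ) * ((b : ℝ) * l'.prod) := by ring

/-- factorisation into few parts -/
theorem exists_parts {Y : ℝ} (hY : 1 ≤ Y) (n c : ℕ) (hn : n ≠ 0)
    (hp : ∀ p : ℕ, p.Prime → p ∣ n → (p : ℝ) ≤ Y) (hnY : (n : ℝ) ≤ Y ^ c) :
    ∃ Q : Fin (2 * c + 1) → ℕ, n = ∏ i, Q i ∧ ∀ i, (Q i : ℝ) ≤ Y := by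
  classical
  have hex : ∃ k, ∃ l : List ℕ, l.length = k ∧ l.prod = n ∧ ∀ a ∈ l, (a : ℝ) ≤ Y :=
    ⟨_, n.primeFactorsList, rfl, Nat.prod_primeFactorsList hn, fun a ha =>
      hp a (Nat.prime_of_mem_primeFactorsList ha) (Nat.dvd_of_mem_primeFactorsList ha)⟩
  obtain ⟨l, hlen, hprod, hl⟩ := Nat.find_spec hex
  have hmin : ∀ l' : List ℕ, l'.prod = n → (∀ a ∈ l', (a : ℝ) ≤ Y) → l.length ≤ l'.length := by
    intro l' h1 h2
    rw [hlen]
    exact Nat.find_min' hex ⟨l', rfl, h1, h2⟩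
  have h1 : ∀ a ∈ l, 1 ≤ a := by
    intro a ha
    rcases Nat.eq_zero_or_pos a with h0 | h0
    · exfalso
      apply hn
      rw [← hprod]
      exact List.prod_eq_zero (h0 ▸ ha)
    · exact h0
  have hpw : l.Pairwise fun (a b : ℕ) => Y < (a : ℝ) * b := by
    rw [List.pairwise_iff_forall_sublist]
    intro a b hab
    by_contra hcon
    push Not at hcon
    obtain ⟨t, ht⟩ := hab.exists_perm_append
    have h2 := hmin ((a * b) :: t) (by
      rw [← hprod, ht.prod_eq]; simp [mul_assoc]) (by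
      intro x hx
      rcases List.mem_cons.1 hx with rfl | hx
      · push_cast; exact hcon
      · exact hl x (ht.mem_iff.2 (by simp [hx])))
    have h3 := ht.length_eq
    simp at h2 h3
    omega
  have hle : l.length ≤ 2 * c + 1 := by
    by_contra hcon
    push Not at hcon
    have := prod_lt' hY l hpw h1 c (by omega)
    rw [hprod] at this
    linarith
  obtain ⟨L, hL⟩ : ∃ L, L = l ++ List.replicate (2 * c + 1 - l.length) 1 := ⟨_, rfl⟩
  have hLlen : L.length = 2 * c + 1 := by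
    rw [hL, List.length_append, List.length_replicate]; omega
  refine ⟨fun i => L.get (i.cast hLlen.symm), ?_, fun i => ?_⟩
  · have h4 : List.ofFn (fun i : Fin (2 * c + 1) => L.get (i.cast hLlen.symm)) = L := by
      apply List.ext_getElem
      · simp [hLlen]
      · intro i h5 h6
        rw [List.getElem_ofFn]
        rfl
    rw [← List.prod_ofFn, h4, hL, List.prod_append, hprod]
    simp
  · have h5 : ∀ x ∈ L, (x : ℝ) ≤ Y := by
      intro x hx
      rw [hL, List.mem_append] at hx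
      rcases hx with hx | hx
      · exact hl x hx
      · rw [List.eq_of_mem_replicate hx]; simpa using hY
    exact h5 _ (List.get_mem _ _)

theorem fac_aux (c : ℕ) (q : ℕ) (Y R : ℝ) (_hc : 1 ≤ c) (hodd : Odd q) (_hsq : Squarefree q)
    (hR : 1 ≤ R) (hRY : R ^ 2 ≤ Y)
    (hp : ∀ p : ℕ, p.Prime → p ∣ q → (p : ℝ) ≤ Y) (hq : (q : ℝ) ≤ Y ^ c) (hRq : R < q) :
    ∃ (r : ℕ) (Q : Fin (2 * c + 1) → ℕ), q = r * ∏ i, Q i ∧ (∀ i, (Q i : ℝ) ≤ Y) ∧
      ((R ≤ r ∧ (r : ℝ) ≤ R ^ 2) ∨ (r.Prime ∧ R < r)) := by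
  classical
  have hq0 : q ≠ 0 := by rintro rfl; simp at hodd
  have hY : 1 ≤ Y := by nlinarith
  have key : ∀ r : ℕ, r ∣ q → r ≠ 0 → ∃ Q : Fin (2 * c + 1) → ℕ, q = r * ∏ i, Q i ∧
      ∀ i, (Q i : ℝ) ≤ Y := by
    rintro r ⟨n, rfl⟩ hr
    have hn : n ≠ 0 := right_ne_zero_of_mul hq0
    obtain ⟨Q, h1, h2⟩ := exists_parts hY n c hn (fun p hp' hpn => hp p hp' (hpn.mul_left r)) (by
      refine le_trans ?_ hq
      have : n ≤ r * n := Nat.le_mul_of_pos_left n (Nat.pos_of_ne_zero hr)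
      exact_mod_cast this)
    exact ⟨Q, by rw [← h1], h2⟩
  by_cases hA : ∃ p : ℕ, p.Prime ∧ p ∣ q ∧ R < p
  · obtain ⟨p, hp1, hp2, hp3⟩ := hA
    obtain ⟨Q, h1, h2⟩ := key p hp2 hp1.ne_zero
    exact ⟨p, Q, h1, h2, Or.inr ⟨hp1, hp3⟩⟩
  · push Not at hA
    have hex : ∃ r : ℕ, r ∣ q ∧ R ≤ r := ⟨q, dvd_rfl, hRq.le⟩
    obtain ⟨hr1, hr2⟩ := Nat.find_spec hex
    set r := Nat.find hex with hr
    have hr0 : r ≠ 0 := by
      intro h0
      rw [h0] at hr2
      norm_num at hr2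
      linarith
    obtain ⟨Q, h1, h2⟩ := key r hr1 hr0
    refine ⟨r, Q, h1, h2, Or.inl ⟨hr2, ?_⟩⟩
    by_cases h3 : r = 1
    · rw [h3]; push_cast; nlinarith
    · obtain ⟨p, hp1, s, hs⟩ := Nat.exists_prime_and_dvd h3
      have hs0 : s ≠ 0 := by rintro rfl; rw [mul_zero] at hs; exact hr0 hs
      have hsr : s < r := by
        rw [hs]
        exact lt_mul_of_one_lt_left (Nat.pos_of_ne_zero hs0) hp1.one_lt
      have h4 := Nat.find_min hex hsr
      have hsq' : s ∣ q := (Dvd.intro_left p hs.symm).trans hr1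
      have h5 : (s : ℝ) < R := by
        by_contra hcon
        push Not at hcon
        exact h4 ⟨hsq', hcon⟩
      have hpq : p ∣ q := (Dvd.intro s hs.symm).trans hr1
      have h6 := hA p hp1 hpq
      rw [hs]
      push_cast
      rw [sq]
      exact mul_le_mul h6 h5.le (by positivity) (by linarith)

end Pool.Agent.H568.GR.Fac

namespace Pool.Agent.H568.GR

theorem fac : S_FAC := fun c q Y R hc hodd hsq hR hRY hp hq hRq =>
  Fac.fac_aux c q Y R hc hodd hsq hR hRY hp hq hRq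

end Pool.Agent.H568.GR
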