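import Pool.Agent.H568.GR.Stm
import Pool.Agent.H705R2.MLogB

/-!
# The value at `1` of the real character `n ↦ (D / n)`, `n` odd
-/

set_option autoImplicit false

namespace Pool.Agent.H568.GR

open Finset NumberField

namespace LVal

/-- the values of the character -/
def val (D : ℤ) (n : ℕ) : ℤ := if Odd n then jacobiSym D n else 0

lemma odd_mod (D : ℤ) (n : ℕ) : Odd (n % (4 * D.natAbs)) ↔ Odd n := by
  rw [Nat.odd_iff, Nat.odd_iff, Nat.mod_mod_of_dvd]
  exact ⟨2 * D.natAbs, by ring⟩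

lemma val_mod (D : ℤ) (n : ℕ) : val D (n % (4 * D.natAbs)) = val D n := by
  unfold val
  by_cases h : Odd n
  · rw [if_pos h, if_pos ((odd_mod D n).2 h), ← jacobiSym.mod_right D h]
  · rw [if_neg h, if_neg (fun h' => h ((odd_mod D n).1 h'))]

lemma val_mul (D : ℤ) (a b : ℕ) : val D (a * b) = val D a * val D b := by
  unfold val
  by_cases ha : Odd a
  · by_cases hb : Odd b
    · rw [if_pos ha, if_pos hb, if_pos (ha.mul hb)]
      have : NeZero a := ⟨by rintro rfl; simp at ha⟩
      have : NeZero b := ⟨by rintro rfl; simp at hb⟩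
      exact jacobiSym.mul_right D a b
    · rw [if_neg hb, mul_zero, if_neg]
      intro h
      exact hb (Nat.odd_mul.1 h).2
  · rw [if_neg ha, zero_mul, if_neg]
    intro h
    exact ha (Nat.odd_mul.1 h).1

lemma val_eq_zero {D : ℤ} {n : ℕ} (h : ¬ Nat.Coprime n (4 * D.natAbs)) : val D n = 0 := by
  unfold val
  by_cases hn : Odd n
  · rw [if_pos hn]
    have : NeZero n := ⟨by rintro rfl; simp at hn⟩
    rw [jacobiSym.eq_zero_iff_not_coprime]
    intro h1
    apply h
    refine Nat.Coprime.mul_right ?_ ?_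
    · have : Nat.Coprime n (2 ^ 2) := Nat.Coprime.pow_right 2 (Nat.coprime_two_right.2 hn)
      simpa using this
    · rw [Int.gcd_eq_natAbs] at h1
      have h2 : Nat.gcd D.natAbs n = 1 := by simpa using h1
      exact (Nat.coprime_comm.1 h2)
  · rw [if_neg hn]

lemma val_sq {D : ℤ} {n : ℕ} (h : Nat.Coprime n (4 * D.natAbs)) : val D n ^ 2 = 1 := by
  unfold val
  have h2 : Nat.Coprime n 2 := Nat.Coprime.coprime_dvd_right ⟨2 * D.natAbs, by ring⟩ h
  have hn : Odd n := Nat.coprime_two_right.1 h2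
  rw [if_pos hn]
  apply jacobiSym.sq_one
  have h3 : Nat.Coprime n D.natAbs := Nat.Coprime.coprime_dvd_right ⟨4, by ring⟩ h
  rw [Int.gcd_eq_natAbs]
  simpa using h3.symm

/-- the character -/
noncomputable def psi (D : ℤ) [NeZero (4 * D.natAbs)] : DirichletCharacter ℂ (4 * D.natAbs) where
  toFun a := ((val D a.val : ℤ) : ℂ)
  map_one' := by
    have h : ((1 : ℕ) : ZMod (4 * D.natAbs)).val = 1 % (4 * D.natAbs) := ZMod.val_natCast _ _
    rw [Nat.cast_one] at h
    rw [h, val_mod]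
    simp [val]
  map_mul' a b := by
    rw [ZMod.val_mul, val_mod, val_mul]
    push_cast
    ring
  map_nonunit' a ha := by
    rw [val_eq_zero, Int.cast_zero]
    intro h
    apply ha
    rw [← ZMod.natCast_zmod_val a]
    exact (ZMod.isUnit_iff_coprime _ _).2 h

lemma psi_apply (D : ℤ) [NeZero (4 * D.natAbs)] (n : ℕ) :
    psi D (n : ZMod (4 * D.natAbs)) = ((val D n : ℤ) : ℂ) := by
  change ((val D (n : ZMod (4 * D.natAbs)).val : ℤ) : ℂ) = _
  rw [ZMod.val_natCast, val_mod]

lemma psi_sq (D : ℤ) [NeZero (4 * D.natAbs)] : psi D ^ 2 = 1 := by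
  apply MulChar.ext
  intro a
  rw [MulChar.pow_apply_coe, MulChar.one_apply_coe]
  have h1 : Nat.Coprime (a : ZMod (4 * D.natAbs)).val (4 * D.natAbs) := by
    exact ZMod.val_coe_unit_coprime a
  change ((val D (a : ZMod (4 * D.natAbs)).val : ℤ) : ℂ) ^ 2 = 1
  exact_mod_cast val_sq h1

lemma psi_ne_one {D : ℤ} [NeZero (4 * D.natAbs)] {n : ℕ} (hn : Odd n)
    (h : jacobiSym D n = -1) : psi D ≠ 1 := by
  intro h1
  have h2 := psi_apply D n
  rw [h1] at h2
  have h3 : val D n = -1 := by unfold val; rw [if_pos hn, h]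
  rw [h3] at h2
  by_cases hu : IsUnit ((n : ZMod (4 * D.natAbs)))
  · rw [MulChar.one_apply hu] at h2
    norm_num at h2
  · rw [MulChar.map_nonunit _ hu] at h2
    norm_num at h2

end LVal

open LVal in
/-- The value at `1`. -/
theorem lval : S_L := by
  intro ε hε
  obtain ⟨c, hc, hS⟩ := Pool.Agent.H705R2.MSW.siegel_all hε
  refine ⟨c * 4 ^ (-ε), by positivity, ?_⟩
  rintro D hD ⟨n, hn, hj⟩
  have hDa : 0 < D.natAbs := Int.natAbs_pos.2 hD
  have : NeZero (4 * D.natAbs) := ⟨by omega⟩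
  have hψ := psi_ne_one hn hj
  have hsq := psi_sq D
  have hcast : ((4 * D.natAbs : ℕ) : ℝ) = 4 * |(D : ℝ)| := by
    push_cast
    rw [Nat.cast_natAbs]
    push_cast
    ring
  have hDr : (0 : ℝ) < |(D : ℝ)| := by
    rw [abs_pos]
    exact_mod_cast hD
  have him : ((psi D).LFunction 1).im = 0 := by
    have := Pool.Agent.H307R2.LFunction_im hsq hψ (x := 1) one_pos
    simpa using this
  have hre : (((psi D).LFunction 1).re : ℂ) = (psi D).LFunction 1 := by
    apply Complex.ext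
    · simp
    · simp [him]
  refine ⟨((psi D).LFunction 1).re, ?_, ?_⟩
  · have h1 := hS (4 * D.natAbs) (psi D) hsq hψ
    rw [hcast] at h1
    rw [← hre, Complex.norm_real, Real.norm_eq_abs] at h1
    refine le_trans (le_of_eq ?_) h1
    rw [Real.mul_rpow (by norm_num) hDr.le]
    ring
  · intro Z hZ
    have h1 := Pool.Agent.H307R2.LFunction_eq hψ hZ (s := 1) (by simp)
    have h2 := Pool.Agent.H307R2.TM_norm_le hZ (Pool.Agent.H307R2.Ech_norm_le hψ Z)
      (s := 1) (by simp)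
    have h3 : ((∑ d ∈ (Icc 1 Z).filter (fun n => Odd n), ((jacobiSym D d : ℤ) : ℝ) / d : ℝ) : ℂ) =
        ∑ n ∈ Finset.Icc 1 Z, (psi D) (n : ZMod (4 * D.natAbs)) * (n : ℂ) ^ (-(1 : ℂ)) := by
      rw [Finset.sum_filter]
      push_cast
      refine Finset.sum_congr rfl fun k _ => ?_
      rw [psi_apply]
      unfold LVal.val
      by_cases hk : Odd k
      · rw [if_pos hk, if_pos hk, Complex.cpow_neg_one, div_eq_mul_inv]
        push_cast
        rfl
      · rw [if_neg hk, if_neg hk]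
        simp
    have h4 : ((∑ d ∈ (Icc 1 Z).filter (fun n => Odd n), ((jacobiSym D d : ℤ) : ℝ) / d -
        ((psi D).LFunction 1).re : ℝ) : ℂ) =
        - Pool.Agent.H307R2.TM Z (Pool.Agent.H307R2.Ech (psi D) Z) 1 := by
      rw [Complex.ofReal_sub, h3, hre, h1]
      ring
    have h5 : |∑ d ∈ (Icc 1 Z).filter (fun n => Odd n), ((jacobiSym D d : ℤ) : ℝ) / d -
        ((psi D).LFunction 1).re| =
        ‖Pool.Agent.H307R2.TM Z (Pool.Agent.H307R2.Ech (psi D) Z) 1‖ := by
      rw [← Real.norm_eq_abs, ← Complex.norm_real, h4, norm_neg]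
    rw [h5]
    refine h2.trans ?_
    rw [hcast]
    have hZ0 : (0 : ℝ) < Z := by exact_mod_cast hZ
    have h6 : ((Z : ℝ) ^ (-(1 : ℂ).re) / (1 : ℂ).re) = (Z : ℝ)⁻¹ := by
      rw [Complex.one_re, Real.rpow_neg_one, div_one]
    rw [h6, ← div_eq_mul_inv]
    apply div_le_div_of_nonneg_right _ hZ0.le
    linarith

end Pool.Agent.H568.GR
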