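import Pool.Agent.H568.GR.Stm2

/-!
# MNB: many squarefree products of split primes
-/

set_option autoImplicit false

namespace Pool.Agent.H568.GR

open Finset NumberField

namespace Mnb

/-- the function `n ↦ (D/n)` -/
def FF (D : ℤ) : ArithmeticFunction ℤ := ⟨fun n => if n = 0 then 0 else jacobiSym D n, by simp⟩

theorem FF_apply (D : ℤ) {n : ℕ} (hn : n ≠ 0) : FF D n = jacobiSym D n := by
  show (if n = 0 then 0 else jacobiSym D n) = _
  rw [if_neg hn]

theorem FF_mult (D : ℤ) : (FF D).IsMultiplicative := by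
  constructor
  · rw [FF_apply D one_ne_zero, jacobiSym.one_right]
  · intro m n _
    by_cases hm : m = 0
    · subst hm
      simp
    by_cases hn : n = 0
    · subst hn
      simp
    have : NeZero m := ⟨hm⟩
    have : NeZero n := ⟨hn⟩
    rw [FF_apply D hm, FF_apply D hn, FF_apply D (mul_ne_zero hm hn), jacobiSym.mul_right]

theorem geom_nonneg {x : ℤ} (hx : x = 0 ∨ x = 1 ∨ x = -1) (n : ℕ) :
    0 ≤ ∑ i ∈ range n, x ^ i := by
  rcases hx with rfl | rfl | rfl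
  · exact sum_nonneg fun i _ => by positivity
  · exact sum_nonneg fun i _ => by positivity
  · rw [neg_one_geom_sum]
    split_ifs <;> norm_num

theorem div_nonneg' (D : ℤ) (n : ℕ) : 0 ≤ ∑ d ∈ n.divisors, jacobiSym D d := by
  by_cases hn : n = 0
  · subst hn
    simp
  have hmul : ((FF D) * (ArithmeticFunction.zeta : ArithmeticFunction ℤ)).IsMultiplicative :=
    (FF_mult D).mul ArithmeticFunction.isMultiplicative_zeta.natCast
  have h1 : ∀ m : ℕ, m ≠ 0 → ((FF D) * (ArithmeticFunction.zeta : ArithmeticFunction ℤ)) m =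
      ∑ d ∈ m.divisors, jacobiSym D d := by
    intro m _
    rw [ArithmeticFunction.coe_mul_zeta_apply]
    refine sum_congr rfl fun d hd => ?_
    exact FF_apply D (Nat.pos_of_mem_divisors hd).ne'
  rw [← h1 n hn, hmul.multiplicative_factorization _ hn]
  refine Finset.prod_nonneg fun p hp => ?_
  have hpp : p.Prime := Nat.prime_of_mem_primeFactors (by simpa using hp)
  show 0 ≤ ((FF D) * (ArithmeticFunction.zeta : ArithmeticFunction ℤ)) (p ^ (n.factorization p))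
  rw [h1 _ (pow_ne_zero _ hpp.ne_zero), Nat.divisors_prime_pow hpp, sum_map]
  have h2 : ∑ x ∈ range (n.factorization p + 1), jacobiSym D (p ^ x) =
      ∑ x ∈ range (n.factorization p + 1), (jacobiSym D p) ^ x :=
    sum_congr rfl fun x _ => jacobiSym.pow_right _ _ _
  refine (le_of_le_of_eq (geom_nonneg (jacobiSym.trichotomy D p) _) h2.symm)

theorem sum_nonneg' (D : ℤ) (N : ℕ) :
    0 ≤ ∑ n ∈ (Icc 1 N).filter (fun n => Odd n), ∑ d ∈ n.divisors, ((jacobiSym D d : ℤ) : ℝ) := by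
  refine sum_nonneg fun n _ => ?_
  have := div_nonneg' D n
  exact_mod_cast this

theorem not_sq {q : ℕ} (hq : Squarefree q) (h1 : 1 < q) : ¬ IsSquare q := by
  rintro ⟨r, hr⟩
  have h2 := hq r ⟨1, by rw [hr]; ring⟩
  rw [Nat.isUnit_iff] at h2
  subst h2
  omega

theorem wdiv {w x c : ℝ} (hc : 0 < c) (h : w * (x / c) ≤ 1) : w * x ≤ c := by
  rw [← mul_div_assoc, div_le_one hc] at h
  exact h

theorem lowAlg {c N w A Lb lg P η y : ℝ} (hN : 0 ≤ N) (hw : 0 ≤ w) (hw4 : w ^ 3 * 152 ≤ c)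
    (hL : c * w ≤ Lb) (hP : P ≤ 8 * w ^ 4) (hη : η ≤ 20 * w ^ 4) (hy : lg ≤ N * w ^ 4 + 1)
    (hNw : 1 ≤ N * w ^ 4) (hyt : y ≤ 20 * (N * w ^ 4))
    (h : N / 2 * (Lb - P - η) - 2 * lg - y ≤ A) : c * N * w / 4 ≤ A := by
  have h1 : N / 2 * (c * w - 8 * w ^ 4 - 20 * w ^ 4) ≤ N / 2 * (Lb - P - η) :=
    mul_le_mul_of_nonneg_left (by linarith) (by positivity)
  have h2 : 38 * (N * w ^ 4) ≤ c * N * w / 4 := by
    have h3 := mul_le_mul_of_nonneg_left hw4 (show 0 ≤ N * w by positivity)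
    have h4 : N * w * (w ^ 3 * 152) = 152 * (N * w ^ 4) := by ring
    have h5 : N * w * c = c * N * w := by ring
    linarith
  have h3 : N / 2 * (c * w - 8 * w ^ 4 - 20 * w ^ 4) =
      c * N * w / 2 - 14 * (N * w ^ 4) := by ring
  linarith

/-- the algebra of the last step -/
theorem core {c C M N w u A : ℝ} (hC : 1 ≤ C) (hN : 0 < N) (hw : 0 < w)
    (hw1 : w ≤ 1) (huw : u * w = 1) (hw4 : w * (80 * C ^ 2) ≤ c)
    (hlow : c * N * w / 4 ≤ A) (hup : A ≤ C ^ 2 * u * (u ^ 48 * M + 10 * N * w ^ 6)) :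
    c * N * w ^ 50 ≤ 8 * C ^ 2 * M := by
  have hC2 : 0 < C ^ 2 := by positivity
  have e1 : C ^ 2 * u * (u ^ 48 * M + 10 * N * w ^ 6) * w ^ 49 =
      C ^ 2 * M * (u * w) ^ 49 + 10 * C ^ 2 * N * (u * w) * w ^ 54 := by ring
  rw [huw] at e1
  have h1 : c * N * w / 4 * w ^ 49 ≤ C ^ 2 * u * (u ^ 48 * M + 10 * N * w ^ 6) * w ^ 49 :=
    mul_le_mul_of_nonneg_right (hlow.trans hup) (by positivity)
  rw [e1] at h1
  have h2 : w ^ 4 ≤ w := by
    calc w ^ 4 = w * w ^ 3 := by ring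
      _ ≤ w * 1 := mul_le_mul_of_nonneg_left (pow_le_one₀ hw.le hw1) hw.le
      _ = w := by ring
  have h3 : w ^ 4 * (80 * C ^ 2) ≤ c :=
    (mul_le_mul_of_nonneg_right h2 (by positivity)).trans hw4
  have h4 : 10 * C ^ 2 * N * 1 * w ^ 54 ≤ c * N * w ^ 50 / 8 := by
    have h5 := mul_le_mul_of_nonneg_left h3 (show 0 ≤ N * w ^ 50 by positivity)
    nlinarith
  nlinarith

end Mnb

open Mnb in
theorem mnb : S_DEC → S_L → S_CNT → S_REC → S_CS → S_DIV → S_MNB := by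
  intro hDEC hL hCNT hREC hCS hDIV θ ε hε hεθ hθ
  obtain ⟨δ, P1, hδ, hcs⟩ := hCS (θ - ε / 2) (ε / 2) (by linarith) (by linarith) (by linarith)
  set dl : ℝ := min δ (ε / 100) with hdl
  have hdl0 : 0 < dl := lt_min hδ (by linarith)
  have hdlδ : dl ≤ δ := min_le_left _ _
  have hdlε : dl ≤ ε / 100 := min_le_right _ _
  obtain ⟨c, hc, hLc⟩ := hL (dl / 8) (by linarith)
  obtain ⟨C, hC, hdiv⟩ := hDIV (dl / 16) (by linarith)
  set K : ℝ := 2 + 152 / c + 80 * C ^ 2 / c + 16 * C ^ 2 / c with hK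
  have hlog : ∀ᶠ x : ℝ in Filter.atTop, ‖Real.log x‖ ≤ (1 / 4) * ‖x ^ (dl / 8)‖ :=
    (isLittleO_log_rpow_atTop (by linarith : 0 < dl / 8)).bound (by norm_num)
  have hKev : ∀ᶠ x : ℝ in Filter.atTop, K ≤ x ^ (dl / 8) :=
    (tendsto_rpow_atTop (by linarith : 0 < dl / 8)).eventually_ge_atTop K
  obtain ⟨P0, hP0⟩ := Filter.eventually_atTop.mp
    ((hlog.and hKev).and ((Filter.eventually_ge_atTop (9 : ℝ)).and
      (Filter.eventually_ge_atTop P1)))
  refine ⟨P0, fun D a q hPD ha hq hqs hDq hsm => ?_⟩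
  obtain ⟨⟨hlg, hKP⟩, hP9, hPP1⟩ := hP0 _ hPD
  set P : ℝ := |(D : ℝ)| with hP
  have hPpos : 0 < P := by linarith
  have hP1 : 1 ≤ P := by linarith
  set u : ℝ := P ^ (dl / 8) with hu
  have hupos : 0 < u := Real.rpow_pos_of_pos hPpos _
  have hK2 : 2 ≤ K := by
    rw [hK]
    have h1 : 0 ≤ 152 / c := by positivity
    have h2 : 0 ≤ 80 * C ^ 2 / c := by positivity
    have h3 : 0 ≤ 16 * C ^ 2 / c := by positivity
    linarith
  have hu2 : 2 ≤ u := hK2.trans hKP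
  set w : ℝ := u⁻¹ with hw
  have hwpos : 0 < w := inv_pos.mpr hupos
  have huw : u * w = 1 := mul_inv_cancel₀ hupos.ne'
  have hw1 : w ≤ 1 := inv_le_one_of_one_le₀ (by linarith)
  have hwu : w * u = 1 := by rw [mul_comm]; exact huw
  have hwhalf : w * 2 ≤ 1 := (mul_le_mul_of_nonneg_left hu2 hwpos.le).trans_eq hwu
  have hwK : w * K ≤ 1 := (mul_le_mul_of_nonneg_left hKP hwpos.le).trans_eq hwu
  have hlogP : 1 + 2 * Real.log P ≤ u := by
    rw [Real.norm_eq_abs, Real.norm_eq_abs, abs_of_nonneg (Real.log_nonneg hP1),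
      abs_of_pos hupos] at hlg
    linarith
  -- powers
  have hpu : ∀ (n : ℕ) (x : ℝ), x = n * (dl / 8) → P ^ x = u ^ n := by
    intro n x hx
    rw [hx, mul_comm, Real.rpow_mul hPpos.le, Real.rpow_natCast]
  have hpw : ∀ (n : ℕ) (x : ℝ), x = -(n * (dl / 8)) → P ^ x = w ^ n := by
    intro n x hx
    rw [hx, Real.rpow_neg hPpos.le, hpu n _ rfl, hw, inv_pow]
  have hmono : ∀ {x y : ℝ}, x ≤ y → P ^ x ≤ P ^ y := fun h =>
    Real.rpow_le_rpow_of_exponent_le hP1 h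
  have hD0 : D ≠ 0 := by
    rintro rfl
    rw [hP] at hPpos
    simp at hPpos
  have hPnat : P = (D.natAbs : ℝ) := by
    rw [hP, Nat.cast_natAbs, Int.cast_abs]
  -- nonsquare
  have hq1 : 1 < q := by
    by_contra hcon
    have h1 : q ≤ 1 := by omega
    have h2 : 2 ^ a ≤ 2 ^ 3 := Nat.pow_le_pow_right (by norm_num) ha
    have h3 : D.natAbs ≤ 8 := by
      rw [hDq]
      calc 2 ^ a * q ≤ 2 ^ 3 * 1 := Nat.mul_le_mul h2 h1
        _ = 8 := by norm_num
    have h4 : P ≤ 8 := by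
      rw [hPnat]
      exact_mod_cast h3
    linarith
  obtain ⟨_, hrec2⟩ := hREC D a q hq hDq
  obtain ⟨L, hLlow, hLZ⟩ := hLc D hD0 (hrec2 (not_sq hqs hq1))
  have hLlow' : c * w ≤ |L| := by
    have h1 := hpw 1 (-(dl / 8)) (by push_cast; ring)
    rw [pow_one] at h1
    rw [← h1]
    exact hLlow
  -- the short sums
  have hshort : ∀ x : ℕ, |∑ n ∈ (Icc 1 x).filter (fun n => Odd n), ((jacobiSym D n : ℤ) : ℝ)| ≤
      w ^ 8 * (x + P ^ (θ - ε / 2)) := by
    intro x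
    have h1 := hcs D a q hPP1 ha hq hqs hDq (by
      intro p hp hpq
      have := hsm p hp hpq
      rwa [show θ - ε = θ - ε / 2 - ε / 2 by ring] at this) x
    refine h1.trans (mul_le_mul_of_nonneg_right ?_ (by positivity))
    rw [← hpw 8 (-dl) (by push_cast; ring)]
    exact hmono (by linarith)
  -- the parameters
  set N : ℕ := ⌊P ^ (θ - ε / 4)⌋₊ with hN
  have hX2 : u ≤ P ^ (θ - ε / 4) := hmono (by linarith)
  have hXpos : 0 < P ^ (θ - ε / 4) := Real.rpow_pos_of_pos hPpos _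
  have hNle : (N : ℝ) ≤ P ^ (θ - ε / 4) := Nat.floor_le hXpos.le
  have hNge : P ^ (θ - ε / 4) / 2 ≤ N := by
    have h1 := Nat.lt_floor_add_one (P ^ (θ - ε / 4))
    rw [← hN] at h1
    linarith
  have hNpos : (0 : ℝ) < N := by linarith
  have hNP : (N : ℝ) ≤ P := hNle.trans (by
    calc P ^ (θ - ε / 4) ≤ P ^ (1 : ℝ) := hmono (by linarith)
      _ = P := Real.rpow_one P)
  set y : ℕ := ⌈(N : ℝ) * w ^ 4⌉₊ with hy
  have hyge : (N : ℝ) * w ^ 4 ≤ y := Nat.le_ceil _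
  have hyle : (y : ℝ) ≤ N * w ^ 4 + 1 := (Nat.ceil_lt_add_one (by positivity)).le
  have hw4le : w ^ 4 ≤ 1 := pow_le_one₀ hwpos.le hw1
  have hyN : y ≤ N := by
    rw [hy]
    exact Nat.ceil_le.mpr (mul_le_of_le_one_right hNpos.le hw4le)
  have hN0pos : 1 ≤ P ^ (θ - ε / 2) := Real.one_le_rpow hP1 (by linarith)
  have hN0y : P ^ (θ - ε / 2) ≤ y := by
    refine le_trans ?_ hyge
    have h1 : P ^ (θ - ε / 4) * w ^ 4 = P ^ (θ - ε / 4 - 4 * (dl / 8)) := by
      rw [← hpw 4 (-(4 * (dl / 8))) (by push_cast; ring), ← Real.rpow_add hPpos]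
      congr 1
    have h2 : P ^ (θ - ε / 4 - 4 * (dl / 8)) * w = P ^ (θ - ε / 4 - 5 * (dl / 8)) := by
      have h3 := hpw 1 (-(dl / 8)) (by push_cast; ring)
      rw [pow_one] at h3
      rw [← h3, ← Real.rpow_add hPpos]
      congr 1
      ring
    have h3 : P ^ (θ - ε / 2) ≤ P ^ (θ - ε / 4 - 5 * (dl / 8)) := hmono (by linarith)
    have h4 : 0 < P ^ (θ - ε / 4 - 4 * (dl / 8)) := Real.rpow_pos_of_pos hPpos _
    have h5 : P ^ (θ - ε / 4) / 2 * w ^ 4 ≤ N * w ^ 4 :=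
      mul_le_mul_of_nonneg_right hNge (by positivity)
    rw [← h2] at h3
    have h6 := mul_le_mul_of_nonneg_left hwhalf h4.le
    rw [div_mul_eq_mul_div, h1] at h5
    have h7 : P ^ (θ - ε / 4 - 4 * (dl / 8)) * (w * 2) =
      2 * (P ^ (θ - ε / 4 - 4 * (dl / 8)) * w) := by ring
    rw [h7, mul_one] at h6
    refine le_trans h3 (le_trans ?_ h5)
    rw [le_div_iff₀ (by norm_num : (0 : ℝ) < 2), mul_comm]
    exact h6
  have hNw4 : 1 ≤ (N : ℝ) * w ^ 4 := by
    have h1 : P ^ (θ - ε / 4) * w ^ 4 = P ^ (θ - ε / 4 - 4 * (dl / 8)) := by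
      rw [← hpw 4 (-(4 * (dl / 8))) (by push_cast; ring), ← Real.rpow_add hPpos]
      congr 1
    have h2 : u ≤ P ^ (θ - ε / 4 - 4 * (dl / 8)) := hmono (by linarith)
    have h5 : P ^ (θ - ε / 4) / 2 * w ^ 4 ≤ N * w ^ 4 :=
      mul_le_mul_of_nonneg_right hNge (by positivity)
    rw [← h1] at h2
    linarith
  have hypos : (0 : ℝ) < y := by linarith
  have hy1 : 1 ≤ y := by exact_mod_cast (by exact_mod_cast hypos : 0 < y)
  set Z : ℕ := D.natAbs ^ 2 with hZ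
  have hZP : (Z : ℝ) = P ^ 2 := by
    rw [hZ, hPnat]
    push_cast
    ring
  have hNZ : N ≤ Z := by
    have h1 : (N : ℝ) ≤ Z := by
      rw [hZP, sq]
      exact hNP.trans (le_mul_of_one_le_left hPpos.le hP1)
    exact_mod_cast h1
  have hZ1 : 1 ≤ Z := by
    rw [hZ]
    exact Nat.one_le_iff_ne_zero.mpr (pow_ne_zero 2 (Int.natAbs_ne_zero.mpr hD0))
  have hPinv : 8 * P / Z = 8 / P := by
    rw [hZP]
    field_simp
  have hLZ' := hLZ Z hZ1
  rw [hPinv] at hLZ'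
  have hcnt := hCNT D (w ^ 8) (P ^ (θ - ε / 2)) L (8 / P) N y Z (by positivity)
    (pow_le_one₀ hwpos.le hw1) hN0pos hy1 hyN hNZ hN0y (by positivity) hshort hLZ'
  -- the lower bound
  set A : ℝ := ∑ n ∈ (Icc 1 N).filter (fun n => Odd n), ∑ d ∈ n.divisors,
    ((jacobiSym D d : ℤ) : ℝ) with hA
  rw [abs_of_nonneg (sum_nonneg' D N)] at hcnt
  have hlogZ : Real.log Z = 2 * Real.log P := by
    rw [hZP, Real.log_pow]
    norm_num
  rw [hlogZ] at hcnt
  have hPw : 8 / P ≤ 8 * w ^ 4 := by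
    rw [div_le_iff₀ hPpos]
    have h1 : w ^ 4 * P = P ^ (1 - 4 * (dl / 8)) := by
      rw [← hpw 4 (-(4 * (dl / 8))) (by push_cast; ring)]
      nth_rewrite 2 [← Real.rpow_one P]
      rw [← Real.rpow_add hPpos]
      congr 1
      ring
    have h2 : 1 ≤ P ^ (1 - 4 * (dl / 8)) := Real.one_le_rpow hP1 (by linarith)
    rw [mul_assoc, h1]
    linarith
  have hη : 20 * w ^ 8 * (1 + 2 * Real.log P) ≤ 20 * w ^ 4 := by
    have h1 : w ^ 8 * (1 + 2 * Real.log P) ≤ w ^ 8 * u :=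
      mul_le_mul_of_nonneg_left hlogP (by positivity)
    have h2 : w ^ 8 * u = w ^ 7 * (u * w) := by ring
    rw [h2, huw, mul_one] at h1
    have h3 : w ^ 7 ≤ w ^ 4 := pow_le_pow_of_le_one hwpos.le hw1 (by norm_num)
    linarith
  have hyterm : 20 * w ^ 8 * (N : ℝ) ^ 2 / y ≤ 20 * (N * w ^ 4) := by
    rw [div_le_iff₀ hypos]
    have h1 := mul_le_mul_of_nonneg_left hyge (show 0 ≤ 20 * ((N : ℝ) * w ^ 4) by positivity)
    refine le_trans (le_of_eq ?_) h1
    ring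
  have hcw : w ^ 3 * 152 ≤ c := by
    have h1 : w * (152 / c) ≤ 1 := by
      refine le_trans (mul_le_mul_of_nonneg_left ?_ hwpos.le) hwK
      rw [hK]
      have h2 : 0 ≤ 80 * C ^ 2 / c := by positivity
      have h3 : 0 ≤ 16 * C ^ 2 / c := by positivity
      linarith
    have h2 := wdiv hc h1
    have h3 : w ^ 3 ≤ w := by
      calc w ^ 3 = w * w ^ 2 := by ring
        _ ≤ w * 1 := mul_le_mul_of_nonneg_left (pow_le_one₀ hwpos.le hw1) hwpos.le
        _ = w := by ring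
    linarith
  have hlow : c * N * w / 4 ≤ A :=
    lowAlg hNpos.le hwpos.le hcw hLlow' hPw hη hyle hNw4 hyterm hcnt
  -- the upper bound
  have hdivn : ∀ n : ℕ, 1 ≤ n → (n : ℝ) ≤ P → (n.divisors.card : ℝ) ≤ C * P ^ (dl / 16) := by
    intro n hn hnP
    refine (hdiv n hn).trans (mul_le_mul_of_nonneg_left ?_ (by linarith))
    exact Real.rpow_le_rpow (by positivity) hnP (by linarith)
  have hdec := hDEC D hD0 N (u ^ 24) (C * P ^ (dl / 16)) (one_le_pow₀ (by linarith))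
    (fun n hn => by
      rw [mem_Icc] at hn
      exact hdivn n hn.1 ((by exact_mod_cast hn.2 : (n : ℝ) ≤ N).trans hNP))
  have hτD : (D.natAbs.divisors.card : ℝ) ≤ C * P ^ (dl / 16) :=
    hdivn _ (Nat.one_le_iff_ne_zero.mpr (Int.natAbs_ne_zero.mpr hD0)) (by rw [hPnat])
  set M : ℝ := ((MM D N).card : ℝ) with hM
  have hM0 : 0 ≤ M := by positivity
  have hB4 : (10 : ℝ) * N / (u ^ 24) ^ (1 / 4 : ℝ) = 10 * N * w ^ 6 := by
    have h1 : (u ^ 24 : ℝ) ^ (1 / 4 : ℝ) = u ^ 6 := by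
      rw [← Real.rpow_natCast, ← Real.rpow_mul hupos.le, ← Real.rpow_natCast]
      norm_num
    rw [h1, div_eq_mul_inv, hw, inv_pow]
  rw [hB4] at hdec
  have hup : A ≤ C ^ 2 * u * (u ^ 48 * M + 10 * N * w ^ 6) := by
    have hpp : P ^ (dl / 16) * P ^ (dl / 16) = u := by
      rw [← Real.rpow_add hPpos, hu]
      congr 1
      ring
    have h1 : C * P ^ (dl / 16) * D.natAbs.divisors.card ≤
        C * P ^ (dl / 16) * (C * P ^ (dl / 16)) :=
      mul_le_mul_of_nonneg_left hτD (by positivity)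
    have h2 : C * P ^ (dl / 16) * (C * P ^ (dl / 16)) = C ^ 2 * u := by
      rw [← hpp]
      ring
    rw [h2] at h1
    have h3 : (u ^ 24) ^ 2 * M + 10 * N * w ^ 6 = u ^ 48 * M + 10 * N * w ^ 6 := by ring
    rw [h3] at hdec
    exact hdec.trans (mul_le_mul_of_nonneg_right h1 (by positivity))
  have h80 : w * (80 * C ^ 2) ≤ c := by
    have h1 : w * (80 * C ^ 2 / c) ≤ 1 := by
      refine le_trans (mul_le_mul_of_nonneg_left ?_ hwpos.le) hwK
      rw [hK]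
      have h2 : 0 ≤ 152 / c := by positivity
      have h3 : 0 ≤ 16 * C ^ 2 / c := by positivity
      linarith
    exact wdiv hc h1
  have h16 : w * (16 * C ^ 2) ≤ c := by
    have h1 : 0 ≤ w * (64 * C ^ 2) := by positivity
    have h2 : w * (80 * C ^ 2) = w * (64 * C ^ 2) + w * (16 * C ^ 2) := by ring
    linarith
  have hcore := core hC hNpos hwpos hw1 huw h80 hlow hup
  -- the end
  have hfin1 : c * (P ^ (θ - ε / 4)) * w ^ 50 ≤ 16 * C ^ 2 * M := by
    have h1 : c * (P ^ (θ - ε / 4) / 2) * w ^ 50 ≤ c * N * w ^ 50 :=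
      mul_le_mul_of_nonneg_right (mul_le_mul_of_nonneg_left hNge hc.le) (by positivity)
    have h2 : c * (P ^ (θ - ε / 4) / 2) * w ^ 50 = c * (P ^ (θ - ε / 4)) * w ^ 50 / 2 := by ring
    linarith
  have hfin2 : w * (16 * C ^ 2) * (P ^ (θ - ε / 4) * w ^ 50) ≤ 16 * C ^ 2 * M := by
    have h1 := mul_le_mul_of_nonneg_right h16 (show 0 ≤ P ^ (θ - ε / 4) * w ^ 50 by positivity)
    have h2 : c * (P ^ (θ - ε / 4) * w ^ 50) = c * (P ^ (θ - ε / 4)) * w ^ 50 := by ring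
    linarith
  have hfin3 : P ^ (θ - ε / 4) * w ^ 51 ≤ M := by
    have h1 : 0 < 16 * C ^ 2 := by positivity
    refine le_of_mul_le_mul_left ?_ h1
    have e : 16 * C ^ 2 * (P ^ (θ - ε / 4) * w ^ 51) =
      w * (16 * C ^ 2) * (P ^ (θ - ε / 4) * w ^ 50) := by ring
    rw [e]
    exact hfin2
  refine le_trans ?_ hfin3
  rw [← hpw 51 (-(51 * (dl / 8))) (by push_cast; ring), ← Real.rpow_add hPpos]
  exact hmono (by linarith)

end Pool.Agent.H568.GR
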