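import Pool.Agent.H568.GR.Stm

/-!
# Torsion in class groups of quadratic fields with a smooth discriminant: statements, second part
-/

set_option autoImplicit false

namespace Pool.Agent.H568.GR

open Finset NumberField

/-- FUND: the shape of the discriminant of a quadratic field. -/
def S_FUND : Prop := ∀ (K : Type) [Field K] [NumberField K], Module.finrank ℚ K = 2 →
  ∃ a q : ℕ, a ≤ 3 ∧ Odd q ∧ Squarefree q ∧ (discr K).natAbs = 2 ^ a * q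

/-- CS: short character sums for smooth discriminants. -/
def S_CS : Prop := ∀ θ ε : ℝ, 0 < ε → ε ≤ θ / 2 → θ ≤ 1 → ∃ δ P0 : ℝ, 0 < δ ∧ ∀ (D : ℤ) (a q : ℕ),
  P0 ≤ |(D : ℝ)| → a ≤ 3 → Odd q → Squarefree q → D.natAbs = 2 ^ a * q →
  (∀ p : ℕ, p.Prime → p ∣ q → (p : ℝ) ≤ |(D : ℝ)| ^ (θ - ε)) →
  ∀ x : ℕ, |∑ n ∈ (Icc 1 x).filter (fun n => Odd n), ((jacobiSym D n : ℤ) : ℝ)| ≤
    |(D : ℝ)| ^ (-δ) * (x + |(D : ℝ)| ^ θ)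

/-- CNB: the class number bound. -/
def S_CNB : Prop := ∃ C : ℝ, 0 < C ∧ ∀ (K : Type) [Field K] [NumberField K],
  Module.finrank ℚ K = 2 →
  (Nat.card (ClassGroup (𝓞 K)) : ℝ) ≤ C * √|(discr K : ℝ)| * Real.log |(discr K : ℝ)|

/-- DIV: the divisor bound. -/
def S_DIV : Prop := ∀ ε : ℝ, 0 < ε → ∃ C : ℝ, 1 ≤ C ∧ ∀ n : ℕ, 1 ≤ n →
  (n.divisors.card : ℝ) ≤ C * (n : ℝ) ^ ε

/-- MNB: many squarefree products of split primes. -/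
def S_MNB : Prop := ∀ θ ε : ℝ, 0 < ε → ε ≤ θ / 8 → θ ≤ 1 / 2 → ∃ P0 : ℝ, ∀ (D : ℤ) (a q : ℕ),
  P0 ≤ |(D : ℝ)| → a ≤ 3 → Odd q → Squarefree q → D.natAbs = 2 ^ a * q →
  (∀ p : ℕ, p.Prime → p ∣ q → (p : ℝ) ≤ |(D : ℝ)| ^ (θ - ε)) →
  |(D : ℝ)| ^ (θ - ε / 2) ≤ (MM D ⌊|(D : ℝ)| ^ (θ - ε / 4)⌋₊).card

/-- The final theorem. -/
def S_FIN : Prop := ∀ (l : ℕ) (ε : ℝ), 1 ≤ l → 0 < ε → ∃ C : ℝ, ∀ (K : Type) [Field K]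
  [NumberField K], Module.finrank ℚ K = 2 →
  (∀ p : ℕ, p.Prime → (p : ℤ) ∣ discr K → (p : ℝ) ≤ |(discr K : ℝ)| ^ (1 / (2 * l) - ε : ℝ)) →
  (Nat.card {c : ClassGroup (𝓞 K) // c ^ l = 1} : ℝ) ≤
    C * |(discr K : ℝ)| ^ (1 / 2 - 1 / (2 * l) + ε : ℝ)

end Pool.Agent.H568.GR
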