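import Pool.Agent.H568.GR.Stm2

set_option autoImplicit false

namespace Pool.Agent.H568.GR

open Finset

namespace Sum

theorem jac_abs (a : ℤ) (b : ℕ) : |((jacobiSym a b : ℤ) : ℝ)| ≤ 1 := by
  rcases jacobiSym.trichotomy a b with h | h | h <;> rw [h] <;> norm_num

theorem jac_period (a : ℤ) (b : ℕ) : jacobiSym (a + b) b = jacobiSym a b := by
  rw [jacobiSym.mod_left (a + b) b, jacobiSym.mod_left a b, Int.add_emod_right]

theorem jac_prod {k : ℕ} (r : ℕ) (Q : Fin k → ℕ) (hr : r ≠ 0) (hQ : ∀ i, Q i ≠ 0) (a : ℤ) :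
    jacobiSym a (r * ∏ i, Q i) = (∏ i, jacobiSym a (Q i)) * jacobiSym a r := by
  haveI : NeZero r := ⟨hr⟩
  have key : ∀ s : Finset (Fin k), jacobiSym a (∏ i ∈ s, Q i) = ∏ i ∈ s, jacobiSym a (Q i) := by
    classical
    intro s
    induction s using Finset.induction_on with
    | empty => simp
    | insert i s his ih =>
      rw [prod_insert his, prod_insert his]
      haveI : NeZero (Q i) := ⟨hQ i⟩
      haveI : NeZero (∏ i ∈ s, Q i) := ⟨prod_ne_zero_iff.2 fun j _ => hQ j⟩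
      rw [jacobiSym.mul_right, ih]
  haveI : NeZero (∏ i, Q i) := ⟨prod_ne_zero_iff.2 fun j _ => hQ j⟩
  rw [jacobiSym.mul_right, key, mul_comm]

/-- the general bound -/
theorem gen (hV : S_VDC) (hC : S_CRT) (k : ℕ) : ∃ C : ℝ, 1 ≤ C ∧ ∀ (Q : Fin k → ℕ) (r : ℕ),
    Odd (r * ∏ i, Q i) → Squarefree (r * ∏ i, Q i) → ∀ (A : ℤ) (N H : ℕ) (δ avg : ℝ),
    1 ≤ N → 1 ≤ H → 0 ≤ δ → δ ≤ 1 → (∀ i, (Q i : ℝ) * H ≤ δ * N) →
    (∑ h : Fin k → Fin H, ∑ h' : Fin k → Fin H,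
      ∏ p ∈ r.primeFactors, cp p Q (fun i => ((h i : ℕ) : ℤ)) (fun i => ((h' i : ℕ) : ℤ))) /
        (H : ℝ) ^ (2 * k) ≤ avg →
    (|∑ n ∈ range N, ((jacobiSym (A + n) (r * ∏ i, Q i) : ℤ) : ℝ)| / N) ^ (2 ^ k) ≤
      C * (δ + avg + r / N) := by
  obtain ⟨C, hC1, h⟩ := hV k
  refine ⟨C, hC1, fun Q r hodd hsq A N H δ avg hN hH hδ hδ1 hQH havg => ?_⟩
  have hne : r * ∏ i, Q i ≠ 0 := hsq.ne_zero
  have hr : r ≠ 0 := left_ne_zero_of_mul hne
  have hQ : ∀ i, Q i ≠ 0 := fun i => prod_ne_zero_iff.1 (right_ne_zero_of_mul hne) i (mem_univ i)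
  have hro : Odd r := Nat.Odd.of_mul_left hodd
  have hrs : Squarefree r := hsq.of_mul_left
  have hN0 : (0 : ℝ) < N := by exact_mod_cast hN
  have hH0 : (0 : ℝ) < H := by exact_mod_cast hH
  have h1 := h Q (fun i n => ((jacobiSym n (Q i) : ℤ) : ℝ)) (fun n => ((jacobiSym n r : ℤ) : ℝ))
    A N H δ hN hH hδ hδ1 (fun i n => jac_abs _ _) (fun n => jac_abs _ _)
    (fun i n => by rw [jac_period]) hQH
  have e1 : ∀ n : ℕ, ((jacobiSym (A + n) (r * ∏ i, Q i) : ℤ) : ℝ) =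
      (∏ i, ((jacobiSym (A + n) (Q i) : ℤ) : ℝ)) * ((jacobiSym (A + n) r : ℤ) : ℝ) := by
    intro n
    rw [jac_prod r Q hr hQ]
    push_cast
    rfl
  rw [sum_congr rfl fun n _ => e1 n]
  refine h1.trans (mul_le_mul_of_nonneg_left ?_ (by linarith))
  rw [add_assoc]
  refine add_le_add le_rfl ?_
  have h2 : ∀ h h' : Fin k → Fin H, |∑ n ∈ range N, ∏ ω : Fin k → Bool,
      ((jacobiSym (A + n + sh Q (fun i => ((h i : ℕ) : ℤ)) (fun i => ((h' i : ℕ) : ℤ)) ω) r : ℤ) :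
        ℝ)| / N ≤ ∏ p ∈ r.primeFactors, cp p Q (fun i => ((h i : ℕ) : ℤ))
          (fun i => ((h' i : ℕ) : ℤ)) + r / N := by
    intro h h'
    rw [div_le_iff₀ hN0, add_mul, div_mul_cancel₀ _ hN0.ne', mul_comm _ (N : ℝ)]
    exact hC k Q _ _ r hro hrs A N
  have h3 : (∑ h : Fin k → Fin H, ∑ h' : Fin k → Fin H, |∑ n ∈ range N, ∏ ω : Fin k → Bool,
      ((jacobiSym (A + n + sh Q (fun i => ((h i : ℕ) : ℤ)) (fun i => ((h' i : ℕ) : ℤ)) ω) r : ℤ) :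
        ℝ)| / N) ≤ (∑ h : Fin k → Fin H, ∑ h' : Fin k → Fin H,
      ∏ p ∈ r.primeFactors, cp p Q (fun i => ((h i : ℕ) : ℤ)) (fun i => ((h' i : ℕ) : ℤ))) +
        (H : ℝ) ^ (2 * k) * (r / N) := by
    refine (sum_le_sum fun h _ => sum_le_sum fun h' _ => h2 h h').trans (le_of_eq ?_)
    simp only [sum_add_distrib, sum_const, card_univ, Fintype.card_fun, Fintype.card_fin,
      nsmul_eq_mul]
    push_cast
    ring
  have hHp : (0 : ℝ) < (H : ℝ) ^ (2 * k) := by positivity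
  calc _ ≤ ((∑ h : Fin k → Fin H, ∑ h' : Fin k → Fin H,
      ∏ p ∈ r.primeFactors, cp p Q (fun i => ((h i : ℕ) : ℤ)) (fun i => ((h' i : ℕ) : ℤ))) +
        (H : ℝ) ^ (2 * k) * (r / N)) / (H : ℝ) ^ (2 * k) := by
        refine div_le_div_of_nonneg_right ?_ hHp.le
        exact h3
    _ = _ + r / N := by rw [add_div, mul_div_cancel_left₀ _ hHp.ne']
    _ ≤ avg + r / N := by linarith

end Sum

end Pool.Agent.H568.GR
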